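import Pool.Agent.H86.IE.Jet

/-!
# The weighted norm of the passive derivatives

`nj D M Φ θ Q = θ sup |Q| + ∑ M ^ (-r) sup |∂ ^ r Q|`, suprema over the chart. `jet_le`: all the
jets of a polynomial near a triangular chart are bounded by `nj 1`; `jet_diff`: the variation at the
resolution `1 / M` is bounded by `nj (1 / E)` where `E` is the smallest number of grid steps.
-/

set_option autoImplicit false

namespace Pool.IEN

open Finset Real
open Pool.Agent.H49.Ent Pool.Agent.H32.Dense Pool.STK Pool.KAF Pool.KAL Pool.KS3 Pool.M3F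

/-- Iterated passive derivative. -/
noncomputable def pN {d : ℕ} (r : ℕ) (Q : MvPolynomial (Option (Fin d)) ℝ) :
    MvPolynomial (Option (Fin d)) ℝ := (MvPolynomial.pderiv none)^[r] Q

lemma pN_zero {d : ℕ} (Q : MvPolynomial (Option (Fin d)) ℝ) : pN 0 Q = Q := rfl

lemma pN_succ {d : ℕ} (r : ℕ) (Q : MvPolynomial (Option (Fin d)) ℝ) :
    pN (r + 1) Q = MvPolynomial.pderiv none (pN r Q) := by
  unfold pN
  rw [Function.iterate_succ_apply']

lemma pN_pN {d : ℕ} (r s : ℕ) (Q : MvPolynomial (Option (Fin d)) ℝ) :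
    pN r (pN s Q) = pN (r + s) Q := by
  unfold pN
  rw [Function.iterate_add_apply]

lemma pN_pderiv {d : ℕ} (r : ℕ) (o : Option (Fin d)) (Q : MvPolynomial (Option (Fin d)) ℝ) :
    pN r (MvPolynomial.pderiv o Q) = MvPolynomial.pderiv o (pN r Q) := by
  induction r with
  | zero => rfl
  | succ r ih => rw [pN_succ, pN_succ, ih, pd_comm]

lemma pN_deg {d : ℕ} (r D : ℕ) {Q : MvPolynomial (Option (Fin d)) ℝ} (hQ : Q.totalDegree ≤ D) :
    (pN r Q).totalDegree ≤ D := by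
  induction r with
  | zero => exact hQ
  | succ r ih =>
    rw [pN_succ]
    exact SML.totalDegree_pderiv_le none _ D (ih.trans (Nat.le_succ _))

lemma pN_deg_sub {d : ℕ} (r D : ℕ) {Q : MvPolynomial (Option (Fin d)) ℝ}
    (hQ : Q.totalDegree ≤ D) : (pN r Q).totalDegree ≤ D - r := by
  induction r with
  | zero => exact hQ
  | succ r ih =>
    rw [pN_succ]
    refine SML.totalDegree_pderiv_le none _ (D - (r + 1)) (ih.trans (by omega))

lemma pN_eq_zero {d : ℕ} (r D : ℕ) {Q : MvPolynomial (Option (Fin d)) ℝ}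
    (hQ : Q.totalDegree ≤ D) (hr : D < r) : pN r Q = 0 := by
  obtain ⟨s, rfl⟩ : ∃ s, r = s + 1 := ⟨r - 1, by omega⟩
  rw [pN_succ]
  have h1 := pN_deg_sub s D hQ
  have h2 : (pN s Q).totalDegree = 0 := by omega
  rw [MvPolynomial.totalDegree_eq_zero_iff_eq_C] at h2
  rw [h2, MvPolynomial.pderiv_C]

/-- The weighted norm. -/
noncomputable def nj {d : ℕ} (D M : ℕ) (Φ : Option (Fin d) → MvPolynomial (Fin d) ℝ) (θ : ℝ)
    (Q : MvPolynomial (Option (Fin d)) ℝ) : ℝ :=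
  θ * csC Φ Q + ∑ r ∈ range D, (1 / M : ℝ) ^ (r + 1) * csC Φ (pN (r + 1) Q)

section

variable {d : ℕ} (D M : ℕ) (Φ : Option (Fin d) → MvPolynomial (Fin d) ℝ)

lemma nj_sum_nonneg (Q : MvPolynomial (Option (Fin d)) ℝ) :
    0 ≤ ∑ r ∈ range D, (1 / M : ℝ) ^ (r + 1) * csC Φ (pN (r + 1) Q) :=
  Finset.sum_nonneg fun _ _ => mul_nonneg (by positivity) (csC_nonneg _ _)

lemma nj_nonneg {θ : ℝ} (hθ : 0 ≤ θ) (Q : MvPolynomial (Option (Fin d)) ℝ) :
    0 ≤ nj D M Φ θ Q := by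
  have h1 := nj_sum_nonneg D M Φ Q
  have h2 := mul_nonneg hθ (csC_nonneg Φ Q)
  unfold nj
  linarith

lemma nj_mono {θ θ' : ℝ} (h : θ ≤ θ') (Q : MvPolynomial (Option (Fin d)) ℝ) :
    nj D M Φ θ Q ≤ nj D M Φ θ' Q := by
  have h2 := mul_le_mul_of_nonneg_right h (csC_nonneg Φ Q)
  unfold nj
  linarith

lemma nj_one (Q : MvPolynomial (Option (Fin d)) ℝ) :
    nj D M Φ 1 Q = ∑ r ∈ range (D + 1), (1 / M : ℝ) ^ r * csC Φ (pN r Q) := by
  rw [Finset.sum_range_succ', pow_zero, pN_zero, one_mul, add_comm]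
  unfold nj
  rw [one_mul]

lemma csC_le_nj (Q : MvPolynomial (Option (Fin d)) ℝ) : csC Φ Q ≤ nj D M Φ 1 Q := by
  have h1 := nj_sum_nonneg D M Φ Q
  unfold nj
  linarith

end

/-- A derivative of the polynomial. -/
lemma nj_pderiv {d : ℕ} (D M : ℕ) (Φ : Option (Fin d) → MvPolynomial (Fin d) ℝ) {E B : ℝ}
    (hE : 1 ≤ E) (hB : 0 ≤ B)
    (h : ∀ Q : MvPolynomial (Option (Fin d)) ℝ, Q.totalDegree ≤ D → ∀ o,
      1 / M * csC Φ (MvPolynomial.pderiv o Q) ≤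
        B * (csC Φ Q / E + 1 / M * csC Φ (MvPolynomial.pderiv none Q)))
    (Q : MvPolynomial (Option (Fin d)) ℝ) (hQ : Q.totalDegree ≤ D) (o : Option (Fin d)) :
    1 / M * nj D M Φ 1 (MvPolynomial.pderiv o Q) ≤ 2 * B * nj D M Φ (1 / E) Q := by
  have hE0 : 0 < E := by linarith
  set T : ℝ := ∑ r ∈ range D, (1 / M : ℝ) ^ (r + 1) * csC Φ (pN (r + 1) Q) with hT
  have hT0 : 0 ≤ T := nj_sum_nonneg D M Φ Q
  have h1 : 1 / M * nj D M Φ 1 (MvPolynomial.pderiv o Q) ≤ ∑ r ∈ range (D + 1),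
      (1 / M : ℝ) ^ r * (B * (csC Φ (pN r Q) / E + 1 / M * csC Φ (pN (r + 1) Q))) := by
    rw [nj_one, Finset.mul_sum]
    refine Finset.sum_le_sum fun r _ => ?_
    rw [pN_pderiv]
    have h2 := h (pN r Q) (pN_deg r D hQ) o
    rw [← pN_succ] at h2
    calc 1 / M * ((1 / M : ℝ) ^ r * csC Φ (MvPolynomial.pderiv o (pN r Q))) =
          (1 / M : ℝ) ^ r * (1 / M * csC Φ (MvPolynomial.pderiv o (pN r Q))) := by ring
      _ ≤ _ := mul_le_mul_of_nonneg_left h2 (by positivity)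
  have h2 : ∑ r ∈ range (D + 1),
      (1 / M : ℝ) ^ r * (B * (csC Φ (pN r Q) / E + 1 / M * csC Φ (pN (r + 1) Q))) =
      B * ((∑ r ∈ range (D + 1), (1 / M : ℝ) ^ r * csC Φ (pN r Q)) / E +
        ∑ r ∈ range (D + 1), (1 / M : ℝ) ^ (r + 1) * csC Φ (pN (r + 1) Q)) := by
    rw [Finset.sum_div, ← Finset.sum_add_distrib, Finset.mul_sum]
    refine Finset.sum_congr rfl fun r _ => ?_
    rw [pow_succ]
    ring
  have h3 : ∑ r ∈ range (D + 1), (1 / M : ℝ) ^ r * csC Φ (pN r Q) = csC Φ Q + T := by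
    rw [← nj_one]
    unfold nj
    rw [one_mul]
  have h4 : ∑ r ∈ range (D + 1), (1 / M : ℝ) ^ (r + 1) * csC Φ (pN (r + 1) Q) = T := by
    rw [Finset.sum_range_succ, pN_eq_zero (D + 1) D hQ (Nat.lt_succ_self D)]
    have : csC Φ (0 : MvPolynomial (Option (Fin d)) ℝ) = 0 :=
      le_antisymm (csC_le Φ _ le_rfl fun u _ => by simp) (csC_nonneg _ _)
    rw [this, mul_zero, add_zero]
  rw [h2, h3, h4] at h1
  refine h1.trans ?_
  have h5 : nj D M Φ (1 / E) Q = 1 / E * csC Φ Q + T := rfl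
  rw [h5]
  have h6 : T / E ≤ T := div_le_self hT0 hE
  have h7 : 0 ≤ csC Φ Q / E := div_nonneg (csC_nonneg _ _) hE0.le
  have h8 : (csC Φ Q + T) / E + T ≤ 2 * (1 / E * csC Φ Q + T) := by
    have e1 : (csC Φ Q + T) / E = csC Φ Q / E + T / E := by ring
    have e2 : 1 / E * csC Φ Q = csC Φ Q / E := by ring
    rw [e1, e2]
    linarith
  calc B * ((csC Φ Q + T) / E + T) ≤ B * (2 * (1 / E * csC Φ Q + T)) :=
        mul_le_mul_of_nonneg_left h8 hB
    _ = _ := by ring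

/-- All the jets on the chart. -/
lemma Psi_le_nj {d : ℕ} (D M : ℕ) (Φ : Option (Fin d) → MvPolynomial (Fin d) ℝ) {h B : ℝ}
    (hh : 0 ≤ h) (hB0 : 0 ≤ B)
    (hA : ∀ Q : MvPolynomial (Option (Fin d)) ℝ, Q.totalDegree ≤ D → ∀ o,
      h * nj D M Φ 1 (MvPolynomial.pderiv o Q) ≤ B * nj D M Φ 1 Q) :
    ∀ e, e ≤ D → ∀ Q : MvPolynomial (Option (Fin d)) ℝ, Q.totalDegree ≤ e → ∀ u ∈ ucube d,
      Psi Q h (cpt Φ u) ≤ (1 + (d + 1) * B) ^ e * nj D M Φ 1 Q := by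
  intro e
  induction e with
  | zero =>
    intro _ Q hQ u hu
    have hQ0 : Q.totalDegree = 0 := by omega
    rw [MvPolynomial.totalDegree_eq_zero_iff_eq_C] at hQ0
    have h1 := (le_csC Φ Q hu).trans (csC_le_nj D M Φ Q)
    rw [pow_zero, one_mul]
    refine le_trans (le_of_eq ?_) h1
    rw [hQ0]
    unfold Psi shf
    rw [MvPolynomial.aeval_C, MvPolynomial.eval_C]
    exact coefSum_C _
  | succ e ih =>
    intro he Q hQ u hu
    have h1 := (le_csC Φ Q hu).trans (csC_le_nj D M Φ Q)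
    have hx : 0 ≤ ((d : ℝ) + 1) * B := by positivity
    have hp : 0 ≤ (1 + ((d : ℝ) + 1) * B) ^ e := by positivity
    have hN := nj_nonneg D M Φ zero_le_one Q
    have h2 : ∀ o, h * Psi (MvPolynomial.pderiv o Q) h (cpt Φ u) ≤
        (1 + ((d : ℝ) + 1) * B) ^ e * (B * nj D M Φ 1 Q) := by
      intro o
      have hdeg : (MvPolynomial.pderiv o Q).totalDegree ≤ e := SML.totalDegree_pderiv_le o Q e hQ
      have h3 := ih (by omega) _ hdeg u hu
      have h4 := hA Q (by omega) o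
      calc h * Psi (MvPolynomial.pderiv o Q) h (cpt Φ u)
          ≤ h * ((1 + ((d : ℝ) + 1) * B) ^ e * nj D M Φ 1 (MvPolynomial.pderiv o Q)) :=
            mul_le_mul_of_nonneg_left h3 hh
        _ = (1 + ((d : ℝ) + 1) * B) ^ e * (h * nj D M Φ 1 (MvPolynomial.pderiv o Q)) := by ring
        _ ≤ (1 + ((d : ℝ) + 1) * B) ^ e * (B * nj D M Φ 1 Q) :=
            mul_le_mul_of_nonneg_left h4 hp
    have h5 := SML.Psi_le_pderiv Q hh (cpt Φ u)
    rw [Finset.mul_sum] at h5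
    have h6 : ∑ o, h * Psi (MvPolynomial.pderiv o Q) h (cpt Φ u) ≤
        ((d : ℝ) + 1) * ((1 + ((d : ℝ) + 1) * B) ^ e * (B * nj D M Φ 1 Q)) := by
      refine (Finset.sum_le_sum fun o _ => h2 o).trans ?_
      rw [Finset.sum_const, Finset.card_univ, nsmul_eq_mul, Fintype.card_option, Fintype.card_fin]
      push_cast
      exact le_rfl
    have hone : (1 : ℝ) ≤ (1 + ((d : ℝ) + 1) * B) ^ e := one_le_pow₀ (by linarith)
    calc Psi Q h (cpt Φ u) ≤ nj D M Φ 1 Q +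
          ((d : ℝ) + 1) * ((1 + ((d : ℝ) + 1) * B) ^ e * (B * nj D M Φ 1 Q)) := by linarith
      _ ≤ (1 + ((d : ℝ) + 1) * B) ^ e * nj D M Φ 1 Q +
          ((d : ℝ) + 1) * ((1 + ((d : ℝ) + 1) * B) ^ e * (B * nj D M Φ 1 Q)) := by nlinarith
      _ = (1 + ((d : ℝ) + 1) * B) ^ (e + 1) * nj D M Φ 1 Q := by ring

/-- The variation of a polynomial near a point. -/
lemma sub_le_Psi {σ : Type} [Fintype σ] (Q : MvPolynomial σ ℝ) {h : ℝ} (hh : 0 ≤ h)
    (x y : σ → ℝ) (hy : ∀ o, |y o - x o| ≤ h) :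
    |MvPolynomial.eval y Q - MvPolynomial.eval x Q| ≤
      h * ∑ o, Psi (MvPolynomial.pderiv o Q) h x := by
  set Q' := Q - MvPolynomial.C (MvPolynomial.eval x Q) with hQ'
  have h1 := abs_eval_le_Psi_of_near Q' h hh x y hy
  have h2 := SML.Psi_le_pderiv Q' hh x
  have e1 : MvPolynomial.eval x Q' = 0 := by
    rw [hQ', map_sub, MvPolynomial.eval_C, sub_self]
  have e2 : MvPolynomial.eval y Q' = MvPolynomial.eval y Q - MvPolynomial.eval x Q := by
    rw [hQ', map_sub, MvPolynomial.eval_C]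
  have e3 : ∀ o, MvPolynomial.pderiv o Q' = MvPolynomial.pderiv o Q := by
    intro o
    rw [hQ', map_sub, MvPolynomial.pderiv_C, sub_zero]
  rw [e1, abs_zero, zero_add] at h2
  simp only [e3] at h2
  rw [e2] at h1
  exact h1.trans h2

/-- **Jets and variation on a triangular chart.** -/
theorem jet_tri (d D k₀ : ℕ) : ∃ C₁ : ℝ, 1 ≤ C₁ ∧
    ∀ (C₀ κ : ℝ) (M : ℕ) (E : ℝ) (Ng : Fin d → ℕ) (G : Fin d → MvPolynomial (Fin d) ℝ)
      (w : Fin d → ℝ) (F : MvPolynomial (Fin d) ℝ), 1 ≤ C₀ → 1 ≤ κ → 1 ≤ M → 1 ≤ E →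
      Tri k₀ C₀ M Ng G w F → (∀ i, E ≤ Ng i) →
      ∀ Q : MvPolynomial (Option (Fin d)) ℝ, Q.totalDegree ≤ D → ∀ u ∈ ucube d,
      Psi Q (κ / M) (cpt (triC G w F) u) ≤
        (C₁ * κ * C₀ ^ (2 * d)) ^ (D + 1) * nj D M (triC G w F) 1 Q ∧
      ∀ y : Option (Fin d) → ℝ, (∀ o, |y o - cpt (triC G w F) u o| ≤ κ / M) →
        |MvPolynomial.eval y Q - MvPolynomial.eval (cpt (triC G w F) u) Q| ≤
          (C₁ * κ * C₀ ^ (2 * d)) ^ (D + 1) * nj D M (triC G w F) (1 / E) Q := by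
  obtain ⟨C₁, hC₁, H⟩ := jst d D k₀
  have hd0 : (0 : ℝ) ≤ d := Nat.cast_nonneg d
  refine ⟨1 + ((d : ℝ) + 1) * (2 * C₁), by nlinarith, ?_⟩
  intro C₀ κ M E Ng G w F hC₀ hκ hM hE hT hNg Q hQ u hu
  set Φ := triC G w F with hΦ
  have hM0 : (0 : ℝ) < M := by exact_mod_cast hM
  set B : ℝ := C₁ * C₀ ^ (2 * d) with hB
  have hC2 : (1 : ℝ) ≤ C₀ ^ (2 * d) := one_le_pow₀ hC₀
  have hB1 : 1 ≤ B := by rw [hB]; nlinarith
  have hB0 : 0 ≤ B := by linarith
  have hst := H C₀ M E Ng G w F hC₀ hM (by linarith) hT hNg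
  have hn := nj_pderiv D M Φ hE hB0 hst
  have hE1 : 1 / E ≤ 1 := by rw [div_le_one (by linarith)]; exact hE
  set B' : ℝ := κ * (2 * B) with hB'
  have hB'0 : 0 ≤ B' := by positivity
  have hn' : ∀ Q : MvPolynomial (Option (Fin d)) ℝ, Q.totalDegree ≤ D → ∀ o,
      κ / M * nj D M Φ 1 (MvPolynomial.pderiv o Q) ≤ B' * nj D M Φ (1 / E) Q := by
    intro Q hQ o
    have h1 := mul_le_mul_of_nonneg_left (hn Q hQ o) (by linarith : (0 : ℝ) ≤ κ)
    calc κ / M * nj D M Φ 1 (MvPolynomial.pderiv o Q) =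
          κ * (1 / M * nj D M Φ 1 (MvPolynomial.pderiv o Q)) := by ring
      _ ≤ κ * (2 * B * nj D M Φ (1 / E) Q) := h1
      _ = _ := by rw [hB']; ring
  have hP := Psi_le_nj D M Φ (h := κ / M) (by positivity) hB'0 (fun Q hQ o =>
    (hn' Q hQ o).trans (mul_le_mul_of_nonneg_left (nj_mono D M Φ hE1 Q) hB'0))
  set R : ℝ := 1 + ((d : ℝ) + 1) * B' with hR
  have hR1 : 1 ≤ R := by
    rw [hR]
    have : 0 ≤ ((d : ℝ) + 1) * B' := by positivity
    linarith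
  have hRK : R ≤ (1 + ((d : ℝ) + 1) * (2 * C₁)) * κ * C₀ ^ (2 * d) := by
    have h1 : 1 ≤ κ * C₀ ^ (2 * d) := by nlinarith
    have e1 : (1 + ((d : ℝ) + 1) * (2 * C₁)) * κ * C₀ ^ (2 * d) =
        κ * C₀ ^ (2 * d) + ((d : ℝ) + 1) * B' := by
      rw [hB', hB]
      ring
    rw [e1, hR]
    linarith
  have hRK' : R ^ (D + 1) ≤ ((1 + ((d : ℝ) + 1) * (2 * C₁)) * κ * C₀ ^ (2 * d)) ^ (D + 1) :=
    pow_le_pow_left₀ (by linarith) hRK _
  refine ⟨?_, ?_⟩
  · have h1 := hP D le_rfl Q hQ u hu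
    refine h1.trans (mul_le_mul_of_nonneg_right ?_ (nj_nonneg D M Φ zero_le_one Q))
    exact (pow_le_pow_right₀ hR1 (Nat.le_succ D)).trans hRK'
  · intro y hy
    have h1 := sub_le_Psi Q (h := κ / M) (by positivity) (cpt Φ u) y hy
    have h2 : ∀ o, κ / M * Psi (MvPolynomial.pderiv o Q) (κ / M) (cpt Φ u) ≤
        R ^ D * (B' * nj D M Φ (1 / E) Q) := by
      intro o
      have hdeg : (MvPolynomial.pderiv o Q).totalDegree ≤ D :=
        SML.totalDegree_pderiv_le o Q D (hQ.trans (Nat.le_succ _))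
      have h3 := hP D le_rfl _ hdeg u hu
      have h4 := hn' Q hQ o
      have hR0 : 0 ≤ R ^ D := by positivity
      calc κ / M * Psi (MvPolynomial.pderiv o Q) (κ / M) (cpt Φ u) ≤
            κ / M * (R ^ D * nj D M Φ 1 (MvPolynomial.pderiv o Q)) :=
            mul_le_mul_of_nonneg_left h3 (by positivity)
        _ = R ^ D * (κ / M * nj D M Φ 1 (MvPolynomial.pderiv o Q)) := by ring
        _ ≤ _ := mul_le_mul_of_nonneg_left h4 hR0
    rw [Finset.mul_sum] at h1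
    have h5 : ∑ o, κ / M * Psi (MvPolynomial.pderiv o Q) (κ / M) (cpt Φ u) ≤
        ((d : ℝ) + 1) * (R ^ D * (B' * nj D M Φ (1 / E) Q)) := by
      refine (Finset.sum_le_sum fun o _ => h2 o).trans ?_
      rw [Finset.sum_const, Finset.card_univ, nsmul_eq_mul, Fintype.card_option, Fintype.card_fin]
      push_cast
      exact le_rfl
    have hnn := nj_nonneg D M Φ (θ := 1 / E) (by positivity) Q
    refine (h1.trans h5).trans ?_
    calc ((d : ℝ) + 1) * (R ^ D * (B' * nj D M Φ (1 / E) Q)) =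
          R ^ D * (((d : ℝ) + 1) * B') * nj D M Φ (1 / E) Q := by ring
      _ ≤ R ^ D * R * nj D M Φ (1 / E) Q := by
          refine mul_le_mul_of_nonneg_right (mul_le_mul_of_nonneg_left ?_ (by positivity)) hnn
          rw [hR]
          linarith
      _ = R ^ (D + 1) * nj D M Φ (1 / E) Q := by rw [pow_succ]
      _ ≤ _ := mul_le_mul_of_nonneg_right hRK' hnn

end Pool.IEN
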