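import Pool.Agent.H86.IE.Tay

/-!
# Doubling for the difference of two leaves, with a universal constant

`dbl`: `B` is a leaf with a triangular chart, `a` is another graph over the same base, `Q` is an
equation of universal degree along `a`. If all the polynomials of the universal degree double on
`B` around the point, then the difference of the two graphs doubles, with a universal exponent.
-/

set_option autoImplicit false

namespace Pool.IEN

open Finset Real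
open Pool.Agent.H49.Ent Pool.Agent.H32.Dense Pool.STK Pool.KAF Pool.KAL Pool.KS3 Pool.M3F Pool.KJA

/-- The graph of `a` over the base of a chart. -/
noncomputable def gch {d : ℕ} (Φ : Option (Fin d) → MvPolynomial (Fin d) ℝ)
    (a : MvPolynomial (Fin d) ℝ) : Option (Fin d) → MvPolynomial (Fin d) ℝ :=
  fun o => o.elim a (fun i => Φ (some i))

lemma cpt_gch {d : ℕ} (Φ : Option (Fin d) → MvPolynomial (Fin d) ℝ)
    (a : MvPolynomial (Fin d) ℝ) (u : Fin d → ℝ) :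
    cpt Φ u = psh (cpt (gch Φ a) u)
      (MvPolynomial.eval u (Φ none) - MvPolynomial.eval u a) := by
  funext o
  cases o with
  | none => simp [psh, cpt, gch]
  | some i => simp [psh, cpt, gch]

/-- The forbidden zone. -/
lemma dich_num {y H Cm A θ₀ θ₁ D' : ℝ} (hy : 0 ≤ y) (hH : 1 ≤ H) (hCm : 1 ≤ Cm)
    (hD' : 1 ≤ D') (hθ₁ : 0 < θ₁)
    (h1 : y ≤ H * Cm * (A * θ₀ + D' * (y ^ 2 / θ₁)))
    (h2 : y ≤ θ₁ / (2 * H * Cm * D')) : y ≤ 2 * H * Cm * A * θ₀ := by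
  have h3 : H * Cm * (D' * (y ^ 2 / θ₁)) ≤ y / 2 := by
    have h4 : y * (2 * H * Cm * D') ≤ θ₁ := by
      rwa [le_div_iff₀ (by positivity)] at h2
    have h5 : H * Cm * (D' * (y ^ 2 / θ₁)) = y * (y * (2 * H * Cm * D')) / θ₁ / 2 := by
      field_simp
    rw [h5]
    refine div_le_div_of_nonneg_right ?_ (by norm_num)
    rw [div_le_iff₀ hθ₁]
    exact mul_le_mul_of_nonneg_left h4 hy
  have h6 : H * Cm * (A * θ₀ + D' * (y ^ 2 / θ₁)) =
      H * Cm * A * θ₀ + H * Cm * (D' * (y ^ 2 / θ₁)) := by ring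
  rw [h6] at h1
  linarith

/-- The corner of the intermediate cube of side `ℓ`. -/
noncomputable def ico {d : ℕ} (K : ℕ) (j : Fin d → ℕ) (ℓ : ℝ) : Fin d → ℝ :=
  fun i => (j i : ℝ) * (1 - ℓ) / (K - 1)

lemma ico_small {d : ℕ} {K : ℕ} {j : Fin d → ℕ} (hK : 2 ≤ K) :
    ico K j (1 / K) = rco K j := by
  have hK1 : (2 : ℝ) ≤ K := by exact_mod_cast hK
  have h1 : (K : ℝ) - 1 ≠ 0 := by
    intro h
    linarith
  funext i
  unfold ico rco
  have h2 : (K : ℝ) ≠ 0 := by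
    intro h
    linarith
  field_simp

lemma ico_one {d : ℕ} {K : ℕ} {j : Fin d → ℕ} : ico K j 1 = fun _ => 0 := by
  funext i
  unfold ico
  simp

/-- The intermediate cubes are nested and inside the triple of the previous one. -/
lemma ico_step {d : ℕ} {K : ℕ} {j : Fin d → ℕ} (hK : 2 ≤ K) (hj : ∀ i, j i < K) {ℓ ℓ' : ℝ}
    (h1 : ℓ ≤ ℓ') (h2 : ℓ' ≤ 2 * ℓ) {y : Fin d → ℝ} (hy : y ∈ cube (ico K j ℓ') ℓ') (i : Fin d) :
    ico K j ℓ i - ℓ ≤ y i ∧ y i ≤ ico K j ℓ i + 2 * ℓ := by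
  have hK1 : (2 : ℝ) ≤ K := by exact_mod_cast hK
  have hji : (j i : ℝ) + 1 ≤ K := by exact_mod_cast hj i
  have hj0 : (0 : ℝ) ≤ j i := Nat.cast_nonneg _
  have hK2 : (0 : ℝ) < K - 1 := by linarith
  have e1 : ico K j ℓ i - ico K j ℓ' i = (j i : ℝ) / (K - 1) * (ℓ' - ℓ) := by
    unfold ico
    field_simp
    ring
  have h3 : (j i : ℝ) / (K - 1) ≤ 1 := by
    rw [div_le_one hK2]
    linarith
  have h4 : 0 ≤ (j i : ℝ) / (K - 1) := div_nonneg hj0 hK2.le
  have h5 : (j i : ℝ) / (K - 1) * (ℓ' - ℓ) ≤ ℓ' - ℓ := by nlinarith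
  have h6 : 0 ≤ (j i : ℝ) / (K - 1) * (ℓ' - ℓ) := mul_nonneg h4 (by linarith)
  obtain ⟨h7, h8⟩ := hy i
  constructor <;> linarith

lemma ico_sub {d : ℕ} {K : ℕ} {j : Fin d → ℕ} (hK : 2 ≤ K) (hj : ∀ i, j i < K) {ℓ ℓ' : ℝ}
    (h1 : ℓ ≤ ℓ') {y : Fin d → ℝ} (hy : y ∈ cube (ico K j ℓ) ℓ) : y ∈ cube (ico K j ℓ') ℓ' := by
  intro i
  have hK1 : (2 : ℝ) ≤ K := by exact_mod_cast hK
  have hji : (j i : ℝ) + 1 ≤ K := by exact_mod_cast hj i
  have hj0 : (0 : ℝ) ≤ j i := Nat.cast_nonneg _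
  have hK2 : (0 : ℝ) < K - 1 := by linarith
  have e1 : ico K j ℓ i - ico K j ℓ' i = (j i : ℝ) / (K - 1) * (ℓ' - ℓ) := by
    unfold ico
    field_simp
    ring
  have h3 : (j i : ℝ) / (K - 1) ≤ 1 := by
    rw [div_le_one hK2]
    linarith
  have h4 : 0 ≤ (j i : ℝ) / (K - 1) := div_nonneg hj0 hK2.le
  have h5 : (j i : ℝ) / (K - 1) * (ℓ' - ℓ) ≤ ℓ' - ℓ := by nlinarith
  have h6 : 0 ≤ (j i : ℝ) / (K - 1) * (ℓ' - ℓ) := mul_nonneg h4 (by linarith)
  obtain ⟨h7, h8⟩ := hy i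
  constructor <;> linarith

/-- The chain of cubes. -/
lemma cube_chain {d : ℕ} {K : ℕ} {j : Fin d → ℕ} (hK : 2 ≤ K) (f : ℝ → ℝ) {Yl Yh B : ℝ}
    (hY : B * Yl ≤ Yh) (hB : 0 ≤ B)
    (h0 : f (1 / K) ≤ Yl)
    (hstep : ∀ ℓ ℓ' : ℝ, 1 / (K : ℝ) ≤ ℓ → ℓ ≤ ℓ' → ℓ' ≤ 2 * ℓ → ℓ' ≤ 1 → f ℓ' ≤ B * f ℓ)
    (hd : ∀ ℓ : ℝ, 1 / (K : ℝ) ≤ ℓ → ℓ ≤ 1 → f ℓ ≤ Yh → f ℓ ≤ Yl) : f 1 ≤ Yl := by
  have hK0 : (0 : ℝ) < K := by
    have : (2 : ℝ) ≤ K := by exact_mod_cast hK
    linarith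
  have hK1 : 1 / (K : ℝ) ≤ 1 := by
    rw [div_le_one hK0]
    have : (2 : ℝ) ≤ K := by exact_mod_cast hK
    linarith
  have key : ∀ n : ℕ, f (min (2 ^ n * (1 / (K : ℝ))) 1) ≤ Yl := by
    intro n
    induction n with
    | zero => rwa [pow_zero, one_mul, min_eq_left hK1]
    | succ n ih =>
      have h1 : 1 / (K : ℝ) ≤ min (2 ^ n * (1 / (K : ℝ))) 1 := by
        refine le_min ?_ hK1
        have : (1 : ℝ) ≤ 2 ^ n := one_le_pow₀ (by norm_num)
        have h2 : 0 < 1 / (K : ℝ) := by positivity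
        nlinarith
      have h2 : min (2 ^ n * (1 / (K : ℝ))) 1 ≤ min (2 ^ (n + 1) * (1 / (K : ℝ))) 1 := by
        refine min_le_min_right _ ?_
        refine mul_le_mul_of_nonneg_right ?_ (by positivity)
        exact pow_le_pow_right₀ (by norm_num) (Nat.le_succ n)
      have h3 : min (2 ^ (n + 1) * (1 / (K : ℝ))) 1 ≤ 2 * min (2 ^ n * (1 / (K : ℝ))) 1 := by
        rcases le_total (2 ^ n * (1 / (K : ℝ))) 1 with h | h
        · rw [min_eq_left h]
          refine (min_le_left _ _).trans (le_of_eq ?_)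
          rw [pow_succ]
          ring
        · rw [min_eq_right h]
          exact (min_le_right _ _).trans (by norm_num)
      have h4 := hstep _ _ h1 h2 h3 (min_le_right _ _)
      refine hd _ (h1.trans h2) (min_le_right _ _) ?_
      exact h4.trans ((mul_le_mul_of_nonneg_left ih hB).trans hY)
  obtain ⟨n, hn⟩ := pow_unbounded_of_one_lt (K : ℝ) (by norm_num : (1 : ℝ) < 2)
  have h1 := key n
  have h2 : (1 : ℝ) ≤ 2 ^ n * (1 / (K : ℝ)) := by
    rw [mul_one_div, le_div_iff₀ hK0]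
    linarith
  rwa [min_eq_right h2] at h1

/-- The values of the passive derivatives on the small cube of the leaf and on the whole leaf. -/
lemma dbl_num {D k : ℕ} {α s s' : ℕ → ℝ} {M r θ₀ θ₁ Z : ℝ} (hα : ∀ k, 0 ≤ α k) (hM : 1 ≤ M)
    (hr0 : 0 < r) (hr1 : r ≤ 1) (hMr : 1 / M ≤ r) (hrθ : r ≤ θ₀) (hθ : θ₀ ≤ θ₁) (hZ : 0 ≤ Z)
    (hs : ∀ m, s m ≤ ∑ i ∈ range (D + 1), r ^ i * α (m + i))
    (hs0 : ∀ m, 0 ≤ s m)
    (hk0 : 0 < α (k + 1)) (hk : α k ≤ θ₀ * α (k + 1))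
    (hk2 : ∀ m, α (k + 1 + m) * θ₁ ^ m ≤ α (k + 1))
    (hs' : s' k ≤ Z * ∑ m ∈ range (D + 1), (1 / M) ^ m * s (k + m)) :
    s' k ≤ Z * (D + 1) ^ 2 * θ₀ * α (k + 1) := by
  have hM0 : 0 < M := by linarith
  have hθ₀ : 0 < θ₀ := lt_of_lt_of_le hr0 hrθ
  have hθ₁ : 0 < θ₁ := lt_of_lt_of_le hθ₀ hθ
  have e1 : 1 / (1 / r) = r := by
    rw [one_div_one_div]
  obtain ⟨h1, h2⟩ := bridge_num (D := D) (k := k) (a := α) (s := s) (M := 1 / r) (E₁ := 1)
    (θ₀ := θ₀) (θ₁ := θ₁) (by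
      rw [le_div_iff₀ hr0]
      linarith) hα le_rfl (by rwa [e1]) (by
      rw [e1]
      linarith) (fun m => by
      rw [one_mul, e1]
      exact hs m) hk0 hk hk2
  rw [one_mul] at h1
  have h3 : ∀ m ∈ range (D + 1), (1 / M) ^ m * s (k + m) ≤ (D + 1) * θ₀ * α (k + 1) := by
    intro m _
    rcases Nat.eq_zero_or_pos m with rfl | hm
    · rw [pow_zero, one_mul, add_zero]
      exact h1
    · obtain ⟨i, rfl⟩ : ∃ i, m = i + 1 := ⟨m - 1, by omega⟩
      have h4 := h2 i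
      rw [one_mul] at h4
      have h5 : (1 / M) ^ (i + 1) ≤ θ₀ * θ₁ ^ i := by
        rw [pow_succ, mul_comm]
        refine mul_le_mul (hMr.trans hrθ) ?_ (by positivity) hθ₀.le
        exact pow_le_pow_left₀ (by positivity) (by linarith) i
      rw [show k + (i + 1) = k + 1 + i by ring]
      calc (1 / M) ^ (i + 1) * s (k + 1 + i) ≤ θ₀ * θ₁ ^ i * s (k + 1 + i) :=
            mul_le_mul_of_nonneg_right h5 (hs0 _)
        _ = θ₀ * (s (k + 1 + i) * θ₁ ^ i) := by ring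
        _ ≤ θ₀ * ((D + 1) * α (k + 1)) := mul_le_mul_of_nonneg_left h4 hθ₀.le
        _ = _ := by ring
  have h4 := Finset.sum_le_sum h3
  rw [Finset.sum_const, Finset.card_range, nsmul_eq_mul] at h4
  push_cast at h4
  calc s' k ≤ Z * ∑ m ∈ range (D + 1), (1 / M) ^ m * s (k + m) := hs'
    _ ≤ Z * ((D + 1) * ((D + 1) * θ₀ * α (k + 1))) := mul_le_mul_of_nonneg_left h4 hZ
    _ = _ := by ring

/-- **Doubling for the difference of two leaves.** -/
theorem dbl (d D k₀ : ℕ) : ∃ C : ℝ, 1 ≤ C ∧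
    ∀ (C₀ κ : ℝ) (M K : ℕ) (Ng j : Fin d → ℕ) (G : Fin d → MvPolynomial (Fin d) ℝ)
      (w : Fin d → ℝ) (F a : MvPolynomial (Fin d) ℝ) (Q : MvPolynomial (Option (Fin d)) ℝ)
      (Z H ρ r : ℝ),
      1 ≤ C₀ → 1 ≤ κ → 1 ≤ M → 2 ≤ K → 1 ≤ Z → 1 ≤ H → (∀ i, K ≤ Ng i) → (∀ i, j i < K) →
      Tri k₀ C₀ M Ng G w F → a.totalDegree ≤ k₀ → Q.totalDegree ≤ D →
      -- all the polynomials of degree at most `D` double on the leaf
      (∀ R : MvPolynomial (Option (Fin d)) ℝ, R.totalDegree ≤ D → ∀ u ∈ ucube d, ∃ u' ∈ ucube d,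
        (∀ i, (j i : ℝ) / K ≤ u' i ∧ u' i ≤ ((j i : ℝ) + 1) / K) ∧
        Psi R (κ / M) (cpt (triC G w F) u) ≤ Z * Psi R (κ / M) (cpt (triC G w F) u')) →
      -- the equation along the other graph
      0 < ρ → 1 ≤ M * ρ → 0 < csC (gch (triC G w F) a) (pN 1 Q) →
      csC (gch (triC G w F) a) Q ≤ ρ * csC (gch (triC G w F) a) (pN 1 Q) →
      (∀ m, csC (gch (triC G w F) a) (pN (m + 1) Q) * ρ ^ m ≤
        csC (gch (triC G w F) a) (pN 1 Q)) →
      -- the point is typical in the other graph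
      (∀ k, k + 1 ≤ D → ∃ u : Fin d → ℝ,
        (∀ i, (j i : ℝ) / K ≤ u i ∧ u i ≤ ((j i : ℝ) + 1) / K) ∧
        csC (gch (triC G w F) a) (pN (k + 1) Q) ≤
          H * |MvPolynomial.eval (cpt (gch (triC G w F) a) u) (pN (k + 1) Q)|) →
      -- the difference on the small cube
      ρ ≤ r → r ≤ 1 → cs (rco K j) (1 / K) (F - a) ≤ r →
      cs (fun _ => 0) 1 (F - a) ≤
        (C * H ^ 2 * Z * (C * κ * C₀ ^ (2 * d)) ^ (D + 1)) ^ (D + 1) * r := by
  classical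
  obtain ⟨C₁, hC₁, hjt⟩ := jet_tri d D k₀
  obtain ⟨Cm, hCm, hmul⟩ := cs_mul d (max k₀ ((k₀ + 1) * D))
  obtain ⟨K₁, hK₁, hcen⟩ := SML.psi_center_le d k₀
  set B : ℝ := 3 ^ k₀ * K₁ with hB
  have hB1 : 1 ≤ B := by
    have : (1 : ℝ) ≤ 3 ^ k₀ := one_le_pow₀ (by norm_num)
    rw [hB]
    nlinarith
  have hD0 : (0 : ℝ) ≤ D := Nat.cast_nonneg D
  set c₂ : ℝ := 8 * B * Cm ^ 2 * (D + 1) ^ 3 with hc₂
  have hc₂1 : 1 ≤ c₂ := by
    have h1 : 1 ≤ B * Cm ^ 2 := by nlinarith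
    have h2 : (1 : ℝ) ≤ (D + 1) ^ 3 := one_le_pow₀ (by linarith)
    rw [hc₂]
    have h3 : 1 ≤ B * Cm ^ 2 * (D + 1) ^ 3 := by nlinarith
    nlinarith
  refine ⟨c₂ + 4 ^ d * C₁, by
    have : 0 ≤ (4 : ℝ) ^ d * C₁ := by positivity
    linarith, ?_⟩
  intro C₀ κ M K Ng j G w F a Q Z H ρ r hC₀ hκ hM hK hZ hH hKN hj hT ha hQ hL hρ hMρ hS hQ0 hQr
    htyp hρr hr1 hsmall
  set C : ℝ := c₂ + 4 ^ d * C₁ with hC
  have hM0 : (0 : ℝ) < M := by exact_mod_cast hM
  have hM1 : (1 : ℝ) ≤ M := by exact_mod_cast hM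
  have hK0 : (0 : ℝ) < K := by
    have : (2 : ℝ) ≤ K := by exact_mod_cast hK
    linarith
  have hr0 : 0 < r := lt_of_lt_of_le hρ hρr
  set ΦB := triC G w F with hΦB
  set ΦA := gch ΦB a with hΦA
  set α : ℕ → ℝ := fun m => csC ΦA (pN m Q) with hα
  have hα0 : ∀ m, 0 ≤ α m := fun m => csC_nonneg _ _
  have hαD : ∀ m, D < m → α m = 0 := by
    intro m hm
    simp only [hα]
    rw [pN_eq_zero m D hQ hm]
    exact le_antisymm (csC_le ΦA _ le_rfl fun u _ => by simp) (csC_nonneg _ _)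
  have hK1 : 1 ≤ K := by omega
  have hK2 : 1 / (K : ℝ) ≤ 1 := by
    rw [div_le_one hK0]
    exact_mod_cast hK1
  -- the constants
  set KK : ℝ := (C₁ * κ * (2 * C₀) ^ (2 * d)) ^ (D + 1) with hKK
  have hC2d : (1 : ℝ) ≤ (2 * C₀) ^ (2 * d) := one_le_pow₀ (by linarith)
  have hKK1 : 1 ≤ KK := by
    rw [hKK]
    refine one_le_pow₀ ?_
    have h1 : 1 ≤ C₁ * κ := by nlinarith
    nlinarith
  set A : ℝ := Z * KK * (D + 1) ^ 2 + 1 with hA
  have hZK : 1 ≤ Z * KK := by nlinarith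
  have hDD : (1 : ℝ) ≤ (D + 1) ^ 2 := one_le_pow₀ (by linarith)
  have hA1 : 1 ≤ A := by
    have : 0 ≤ Z * KK * (D + 1) ^ 2 := by positivity
    rw [hA]
    linarith
  set Λ : ℝ := 4 * B * (H * Cm) ^ 2 * A * (D + 1) with hΛ
  have hHC : 1 ≤ H * Cm := by nlinarith
  have hHC2 : 1 ≤ (H * Cm) ^ 2 := one_le_pow₀ hHC
  have hΛ0 : 2 * H * Cm * A ≤ Λ := by
    have h1 : H * Cm ≤ (H * Cm) ^ 2 := by nlinarith
    have h2 : (H * Cm) ^ 2 ≤ B * (H * Cm) ^ 2 := by nlinarith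
    have h3 : 0 ≤ B * (H * Cm) ^ 2 * A := by positivity
    have h4 : H * Cm * A ≤ B * (H * Cm) ^ 2 * A :=
      mul_le_mul_of_nonneg_right (h1.trans h2) (by linarith)
    have h5 : B * (H * Cm) ^ 2 * A ≤ B * (H * Cm) ^ 2 * A * (D + 1) := by nlinarith
    rw [hΛ]
    nlinarith
  have hΛ1 : 1 ≤ Λ := by
    refine le_trans ?_ hΛ0
    have h1 : 1 ≤ H * Cm * A := by nlinarith
    nlinarith
  set θ : ℕ → ℝ := fun k => r * Λ ^ k with hθ
  have hθ0 : ∀ k, 0 < θ k := fun k => by positivity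
  have hθm : Monotone θ := fun i i' hii =>
    mul_le_mul_of_nonneg_left (pow_le_pow_right₀ hΛ1 hii) hr0.le
  obtain ⟨k, hkD, hk0, hk1, hk2⟩ := gapm hα0 hαD hθ0 hθm ⟨0, hS, by
    refine hQ0.trans (mul_le_mul_of_nonneg_right ?_ (csC_nonneg _ _))
    simp only [hθ, pow_zero, mul_one]
    exact hρr⟩
  have hrθ : r ≤ θ k := by
    have : (1 : ℝ) ≤ Λ ^ k := one_le_pow₀ hΛ1
    simp only [hθ]
    nlinarith
  have hθ1 : θ (k + 1) = Λ * θ k := by
    simp only [hθ]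
    rw [pow_succ]
    ring
  -- the difference
  set g : MvPolynomial (Fin d) ℝ := F - a with hg
  have hgB : ∀ u : Fin d → ℝ, cpt ΦB u = psh (cpt ΦA u) (MvPolynomial.eval u g) := by
    intro u
    rw [hg, map_sub]
    exact cpt_gch ΦB a u
  have hAle : ∀ (m i : ℕ) (u : Fin d → ℝ), u ∈ ucube d →
      |MvPolynomial.eval (cpt ΦA u) (pN i (pN m Q))| ≤ α (m + i) := by
    intro m i u hu
    rw [pN_pN, add_comm i m]
    exact le_csC ΦA _ hu
  -- the small cube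
  set Φq := triC (rcG K j G w) (fun i => w i / K) (MvPolynomial.bind₁ (afm (rco K j) (1 / K)) F)
    with hΦq
  have hq1 : ∀ m, csC Φq (pN m Q) ≤ ∑ i ∈ range (D + 1), r ^ i * α (m + i) := by
    intro m
    refine csC_le Φq _ (Finset.sum_nonneg fun i _ => mul_nonneg (by positivity) (hα0 _)) ?_
    intro v hv
    have hu := rco_mem hK1 hj hv
    rw [hΦq, cpt_rch, ← hΦB, hgB]
    refine (abs_psh_le _ (r := r) ?_ (pN_deg m D hQ)).trans ?_
    · refine le_trans ?_ hsmall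
      refine SML.le_cs (by positivity) _ fun i => ?_
      have := hv i
      constructor
      · have h1 : 0 ≤ 1 / (K : ℝ) * v i := mul_nonneg (by positivity) this.1
        linarith
      · have h1 : 1 / (K : ℝ) * v i ≤ 1 / K * 1 :=
          mul_le_mul_of_nonneg_left this.2 (by positivity)
        linarith
    · exact Finset.sum_le_sum fun i _ => mul_le_mul_of_nonneg_left (hAle m i _ hu) (by positivity)
  have hTq := tri_rest hC₀ hM hT hK1 hKN hj
  have hNq : ∀ i, (1 : ℝ) ≤ ((Ng i / K : ℕ) : ℝ) := fun i => by exact_mod_cast hTq.pos i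
  have hs' : csC ΦB (pN k Q) ≤ Z * KK *
      ∑ m ∈ range (D + 1), (1 / (M : ℝ)) ^ m * csC Φq (pN (k + m) Q) := by
    refine csC_le ΦB _ (mul_nonneg (by positivity) (Finset.sum_nonneg fun i _ =>
      mul_nonneg (by positivity) (csC_nonneg _ _))) ?_
    intro u hu
    have hκM : 0 ≤ κ / M := by positivity
    obtain ⟨u', hu', hcu, hLu⟩ := hL (pN k Q) (pN_deg k D hQ) u hu
    have h1 : |MvPolynomial.eval (cpt ΦB u) (pN k Q)| ≤ Psi (pN k Q) (κ / M) (cpt ΦB u) :=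
      abs_eval_le_Psi_of_near _ _ hκM _ _ (fun o => by
        rw [sub_self, abs_zero]
        exact hκM)
    set v : Fin d → ℝ := fun i => K * u' i - j i with hv
    have hvm : v ∈ ucube d := by
      intro i
      obtain ⟨h2, h3⟩ := hcu i
      rw [div_le_iff₀ hK0] at h2
      rw [le_div_iff₀ hK0] at h3
      simp only [hv]
      constructor <;> linarith
    have hvu : (fun i => rco K j i + 1 / K * v i) = u' := by
      funext i
      simp only [hv, rco]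
      field_simp
      ring
    have h2 := (hjt (2 * C₀) κ M 1 (fun i => Ng i / K) (rcG K j G w) (fun i => w i / K)
      (MvPolynomial.bind₁ (afm (rco K j) (1 / K)) F) (by linarith) hκ hM le_rfl hTq hNq
      (pN k Q) (pN_deg k D hQ) v hvm).1
    rw [cpt_rch, hvu, ← hΦB, ← hΦq, ← hKK, nj_one] at h2
    have h3 : ∑ m ∈ range (D + 1), (1 / (M : ℝ)) ^ m * csC Φq (pN m (pN k Q)) =
        ∑ m ∈ range (D + 1), (1 / (M : ℝ)) ^ m * csC Φq (pN (k + m) Q) := by
      refine Finset.sum_congr rfl fun m _ => ?_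
      rw [pN_pN, add_comm m k]
    rw [h3] at h2
    calc |MvPolynomial.eval (cpt ΦB u) (pN k Q)| ≤ Psi (pN k Q) (κ / M) (cpt ΦB u) := h1
      _ ≤ Z * Psi (pN k Q) (κ / M) (cpt ΦB u') := hLu
      _ ≤ Z * (KK * ∑ m ∈ range (D + 1), (1 / (M : ℝ)) ^ m * csC Φq (pN (k + m) Q)) :=
          mul_le_mul_of_nonneg_left h2 (by linarith)
      _ = _ := by ring
  have hMr : 1 / (M : ℝ) ≤ r := by
    rw [div_le_iff₀ hM0]
    nlinarith
  have hBk : csC ΦB (pN k Q) ≤ Z * KK * (D + 1) ^ 2 * θ k * α (k + 1) :=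
    dbl_num (D := D) (k := k) (α := α) (s := fun m => csC Φq (pN m Q))
      (s' := fun m => csC ΦB (pN m Q)) (M := (M : ℝ)) (r := r) (θ₀ := θ k) (θ₁ := θ (k + 1))
      (Z := Z * KK) hα0 hM1 hr0 hr1 hMr hrθ (hθm (Nat.le_succ k)) (by positivity) hq1
      (fun m => csC_nonneg _ _) hk0 hk1 hk2 hs'
  -- the other polynomial
  set R : MvPolynomial (Fin d) ℝ := MvPolynomial.bind₁ ΦA (pN (k + 1) Q) with hR
  have hΦAd : ∀ o, (ΦA o).totalDegree ≤ k₀ + 1 := by
    intro o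
    cases o with
    | none => exact ha.trans (Nat.le_succ _)
    | some i =>
      change (G i + MvPolynomial.C (w i) * MvPolynomial.X i).totalDegree ≤ _
      refine (MvPolynomial.totalDegree_add _ _).trans (max_le ((hT.degG i).trans (Nat.le_succ _)) ?_)
      refine (MvPolynomial.totalDegree_mul _ _).trans ?_
      rw [MvPolynomial.totalDegree_C, MvPolynomial.totalDegree_X]
      omega
  have hRd : R.totalDegree ≤ max k₀ ((k₀ + 1) * D) :=
    ((SML.totalDegree_bind_le ΦA (k₀ + 1) hΦAd _).trans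
      (Nat.mul_le_mul_left _ (pN_deg (k + 1) D hQ))).trans (le_max_right _ _)
  have hgd' : g.totalDegree ≤ k₀ :=
    (MvPolynomial.totalDegree_sub _ _).trans (max_le hT.degF ha)
  have hgd : g.totalDegree ≤ max k₀ ((k₀ + 1) * D) := hgd'.trans (le_max_left _ _)
  obtain ⟨u₀, hu₀c, hu₀⟩ := htyp k hkD
  have hu₀s : u₀ ∈ cube (ico K j (1 / K)) (1 / K) := by
    rw [ico_small hK]
    intro i
    obtain ⟨h1, h2⟩ := hu₀c i
    unfold rco
    refine ⟨h1, ?_⟩
    rw [add_div] at h2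
    exact h2
  have hcube : ∀ ℓ : ℝ, ℓ ≤ 1 → ∀ y ∈ cube (ico K j ℓ) ℓ, y ∈ ucube d := by
    intro ℓ hℓ y hy
    have h1 := ico_sub hK hj hℓ hy
    rw [ico_one] at h1
    intro i
    have := h1 i
    rw [zero_add] at this
    exact this
  -- the forbidden zone
  have hdich : ∀ ℓ : ℝ, 1 / (K : ℝ) ≤ ℓ → ℓ ≤ 1 →
      cs (ico K j ℓ) ℓ g ≤ θ (k + 1) / (2 * H * Cm * (D + 1)) →
      cs (ico K j ℓ) ℓ g ≤ 2 * H * Cm * A * θ k := by
    intro ℓ hℓ1 hℓ2 hy
    set y : ℝ := cs (ico K j ℓ) ℓ g with hydef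
    have hℓ0 : 0 ≤ ℓ := le_trans (by positivity) hℓ1
    have hy0 : 0 ≤ y := SML.cs_nonneg _ _ _
    have hyθ : y ≤ θ (k + 1) := by
      refine hy.trans (div_le_self (hθ0 _).le ?_)
      nlinarith
    have hR0 : α (k + 1) ≤ H * cs (ico K j ℓ) ℓ R := by
      refine hu₀.trans (mul_le_mul_of_nonneg_left ?_ (by linarith))
      rw [← eval_bind]
      exact SML.le_cs hℓ0 R (ico_sub hK hj hℓ1 hu₀s)
    have hgR : cs (ico K j ℓ) ℓ (g * R) ≤
        (A * θ k + (D + 1) * (y ^ 2 / θ (k + 1))) * α (k + 1) := by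
      have hyy : 0 ≤ y ^ 2 / θ (k + 1) := div_nonneg (sq_nonneg _) (hθ0 _).le
      have hAθ : 0 ≤ A * θ k := mul_nonneg (by linarith) (hθ0 k).le
      refine SML.cs_le _ (mul_nonneg (by positivity) (hα0 _)) ?_
      intro u hu
      have huc := hcube ℓ hℓ2 u hu
      have hgu : |MvPolynomial.eval u g| ≤ y := SML.le_cs hℓ0 g hu
      have h1 := lin_psh_le (cpt ΦA u) hgu (pN_deg k D hQ)
      rw [← hgB] at h1
      rw [map_mul, hR, eval_bind]
      have h2 : pN 1 (pN k Q) = pN (k + 1) Q := by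
        rw [pN_pN, add_comm]
      rw [h2] at h1
      have h3 : |MvPolynomial.eval (cpt ΦB u) (pN k Q)| ≤
          Z * KK * (D + 1) ^ 2 * θ k * α (k + 1) := (le_csC ΦB _ huc).trans hBk
      have h4 : |MvPolynomial.eval (cpt ΦA u) (pN k Q)| ≤ θ k * α (k + 1) :=
        (le_csC ΦA _ huc).trans hk1
      have h5 : ∑ m ∈ range D, y ^ (m + 2) *
          |MvPolynomial.eval (cpt ΦA u) (pN (m + 2) (pN k Q))| ≤
          D * (y ^ 2 / θ (k + 1) * α (k + 1)) := by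
        have h6 : ∀ m ∈ range D, y ^ (m + 2) *
            |MvPolynomial.eval (cpt ΦA u) (pN (m + 2) (pN k Q))| ≤
            y ^ 2 / θ (k + 1) * α (k + 1) := by
          intro m _
          have h7 := hAle k (m + 2) u huc
          have h8 := hk2 (m + 1)
          rw [show k + 1 + (m + 1) = k + (m + 2) by ring] at h8
          have h9 : y ^ m * θ (k + 1) ≤ θ (k + 1) ^ (m + 1) := by
            rw [pow_succ]
            exact mul_le_mul_of_nonneg_right (pow_le_pow_left₀ hy0 hyθ m) (hθ0 _).le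
          have e1 : y ^ (m + 2) = y ^ 2 / θ (k + 1) * (y ^ m * θ (k + 1)) := by
            have := (hθ0 (k + 1)).ne'
            field_simp
            ring
          calc y ^ (m + 2) * |MvPolynomial.eval (cpt ΦA u) (pN (m + 2) (pN k Q))| ≤
                y ^ (m + 2) * α (k + (m + 2)) := mul_le_mul_of_nonneg_left h7 (by positivity)
            _ = y ^ 2 / θ (k + 1) * ((y ^ m * θ (k + 1)) * α (k + (m + 2))) := by
                rw [e1]
                ring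
            _ ≤ y ^ 2 / θ (k + 1) * (θ (k + 1) ^ (m + 1) * α (k + (m + 2))) :=
                mul_le_mul_of_nonneg_left (mul_le_mul_of_nonneg_right h9 (hα0 _)) hyy
            _ ≤ y ^ 2 / θ (k + 1) * α (k + 1) := by
                refine mul_le_mul_of_nonneg_left ?_ hyy
                rw [mul_comm]
                exact h8
        refine (Finset.sum_le_sum h6).trans (le_of_eq ?_)
        rw [Finset.sum_const, Finset.card_range, nsmul_eq_mul]
      have h6 : 0 ≤ y ^ 2 / θ (k + 1) * α (k + 1) := mul_nonneg hyy (hα0 _)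
      calc |MvPolynomial.eval u g * MvPolynomial.eval (cpt ΦA u) (pN (k + 1) Q)| ≤
            Z * KK * (D + 1) ^ 2 * θ k * α (k + 1) + θ k * α (k + 1) +
              D * (y ^ 2 / θ (k + 1) * α (k + 1)) := by linarith
        _ ≤ _ := by
            rw [hA]
            nlinarith
    have hm := hmul g R hgd hRd (ico K j ℓ) ℓ hℓ0
    have h1 : y * α (k + 1) ≤
        H * Cm * (A * θ k + (D + 1) * (y ^ 2 / θ (k + 1))) * α (k + 1) := by
      calc y * α (k + 1) ≤ y * (H * cs (ico K j ℓ) ℓ R) := mul_le_mul_of_nonneg_left hR0 hy0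
        _ = H * (y * cs (ico K j ℓ) ℓ R) := by ring
        _ ≤ H * (Cm * cs (ico K j ℓ) ℓ (g * R)) := mul_le_mul_of_nonneg_left hm (by linarith)
        _ ≤ H * (Cm * ((A * θ k + (D + 1) * (y ^ 2 / θ (k + 1))) * α (k + 1))) :=
            mul_le_mul_of_nonneg_left (mul_le_mul_of_nonneg_left hgR (by linarith)) (by linarith)
        _ = _ := by ring
    have h2 := le_of_mul_le_mul_right h1 hk0
    exact dich_num hy0 hH hCm (by linarith) (hθ0 _) h2 hy
  have hend : cs (ico K j 1) 1 g ≤ 2 * H * Cm * A * θ k := by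
    refine cube_chain (K := K) (j := j) hK (fun ℓ => cs (ico K j ℓ) ℓ g)
      (Yh := θ (k + 1) / (2 * H * Cm * (D + 1))) (B := B) ?_ (by linarith) ?_ ?_ hdich
    · rw [le_div_iff₀ (by positivity), hθ1, hΛ]
      refine le_of_eq ?_
      ring
    · rw [ico_small hK]
      refine hsmall.trans (hrθ.trans ?_)
      have h1 : 1 ≤ 2 * H * Cm * A := by nlinarith
      have := hθ0 k
      nlinarith
    · intro ℓ ℓ' h1 h2 h3 h4
      refine SML.cs_le _ (mul_nonneg (by linarith) (SML.cs_nonneg _ _ _)) ?_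
      intro y hy
      exact SML.enlarge k₀ K₁ hcen (ico K j ℓ) (lt_of_lt_of_le (by positivity) h1) g hgd'
        (fun i => ico_step hK hj h2 h3 hy i)
  rw [ico_one] at hend
  refine hend.trans ?_
  have hΛle : Λ ≤ C * H ^ 2 * Z * (C * κ * C₀ ^ (2 * d)) ^ (D + 1) := by
    have h4d : (0 : ℝ) ≤ (4 : ℝ) ^ d * C₁ := by positivity
    have h1 : KK ≤ (C * κ * C₀ ^ (2 * d)) ^ (D + 1) := by
      rw [hKK]
      refine pow_le_pow_left₀ (by positivity) ?_ _
      have e1 : C₁ * κ * (2 * C₀) ^ (2 * d) = (4 ^ d * C₁) * κ * C₀ ^ (2 * d) := by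
        rw [mul_pow, pow_mul]
        norm_num
        ring
      rw [e1]
      refine mul_le_mul_of_nonneg_right (mul_le_mul_of_nonneg_right ?_ (by linarith))
        (by positivity)
      rw [hC]
      linarith
    have h2 : A ≤ 2 * (Z * KK * (D + 1) ^ 2) := by
      have : 1 ≤ Z * KK * (D + 1) ^ 2 := by nlinarith
      rw [hA]
      linarith
    calc Λ = 4 * B * (H * Cm) ^ 2 * (D + 1) * A := by rw [hΛ]; ring
      _ ≤ 4 * B * (H * Cm) ^ 2 * (D + 1) * (2 * (Z * KK * (D + 1) ^ 2)) :=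
          mul_le_mul_of_nonneg_left h2 (by positivity)
      _ = c₂ * H ^ 2 * Z * KK := by rw [hc₂]; ring
      _ ≤ C * H ^ 2 * Z * KK := by
          refine mul_le_mul_of_nonneg_right (mul_le_mul_of_nonneg_right
            (mul_le_mul_of_nonneg_right ?_ (by positivity)) (by linarith)) (by linarith)
          rw [hC]
          linarith
      _ ≤ _ := mul_le_mul_of_nonneg_left h1 (by positivity)
  calc 2 * H * Cm * A * θ k = 2 * H * Cm * A * Λ ^ k * r := by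
        simp only [hθ]
        ring
    _ ≤ Λ * Λ ^ D * r := by
        refine mul_le_mul_of_nonneg_right ?_ hr0.le
        exact mul_le_mul hΛ0 (pow_le_pow_right₀ hΛ1 (by omega)) (by positivity) (by linarith)
    _ = Λ ^ (D + 1) * r := by rw [pow_succ]; ring
    _ ≤ _ := by
        refine mul_le_mul_of_nonneg_right ?_ hr0.le
        exact pow_le_pow_left₀ (by linarith) hΛle _

end Pool.IEN
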