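import Pool.Agent.H37.M3F.Tri

/-!
# Jets of a polynomial on a triangular chart

On a natural box the derivatives in all the directions are controlled by the derivatives in the
passive direction. `n` is the weighted sum of the suprema of the passive derivatives.
-/

set_option autoImplicit false

namespace Pool.IEN

open Finset Real
open Pool.Agent.H49.Ent Pool.Agent.H32.Dense Pool.STK Pool.KAF Pool.KAL Pool.KS3 Pool.M3F

/-- Derivatives commute. -/
lemma pd_comm {σ : Type} (i j : σ) (g : MvPolynomial σ ℝ) :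
    MvPolynomial.pderiv i (MvPolynomial.pderiv j g) =
      MvPolynomial.pderiv j (MvPolynomial.pderiv i g) := by
  classical
  induction g using MvPolynomial.induction_on with
  | C a => simp
  | add p q hp hq => rw [map_add, map_add, hp, hq, map_add, map_add]
  | mul_X p k hp =>
    simp only [Derivation.leibniz, map_add, smul_eq_mul, MvPolynomial.pderiv_X, hp]
    have h1 : ∀ a b : σ, MvPolynomial.pderiv a (Pi.single (M := fun _ => MvPolynomial σ ℝ) b 1 k) =
        0 := by
      intro a b
      by_cases h : k = b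
      · subst h
        rw [Pi.single_eq_same, MvPolynomial.pderiv_one]
      · rw [Pi.single_eq_of_ne h, map_zero]
    rw [h1, h1]
    ring

/-- One derivative in any direction. -/
theorem jst (d D k₀ : ℕ) : ∃ C₁ : ℝ, 1 ≤ C₁ ∧
    ∀ (C₀ : ℝ) (M : ℕ) (E : ℝ) (Ng : Fin d → ℕ) (G : Fin d → MvPolynomial (Fin d) ℝ) (w : Fin d → ℝ)
      (F : MvPolynomial (Fin d) ℝ), 1 ≤ C₀ → 1 ≤ M → 0 < E → Tri k₀ C₀ M Ng G w F →
      (∀ i, E ≤ Ng i) → ∀ Q : MvPolynomial (Option (Fin d)) ℝ, Q.totalDegree ≤ D → ∀ o,
      1 / M * csC (triC G w F) (MvPolynomial.pderiv o Q) ≤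
        C₁ * C₀ ^ (2 * d) * (csC (triC G w F) Q / E +
          1 / M * csC (triC G w F) (MvPolynomial.pderiv none Q)) := by
  classical
  set E₀ : ℕ := (k₀ + 1) * D with hE₀
  obtain ⟨K₁, hK₁, hcen⟩ := SML.psi_center_le d E₀
  set Cm : ℝ := 2 * E₀ * K₁ * (1 / 1) with hCm
  have hCm0 : 0 ≤ Cm := by positivity
  set b' : ℕ → ℝ := fun e => Nat.rec 0 (fun _ B => Cm + 1 + (d + 1) * B) e
    with hb'
  have hb'0 : ∀ e, 0 ≤ b' e := by
    intro e
    induction e with
    | zero => exact le_rfl
    | succ e ih =>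
      have e1 : b' (e + 1) = Cm + 1 + (d + 1) * b' e := rfl
      rw [e1]
      positivity
  have hb's : ∀ e, b' (e + 1) = Cm + 1 + (d + 1) * b' e := fun e => rfl
  have hd0 : (0 : ℝ) ≤ d := Nat.cast_nonneg d
  refine ⟨1 + b' d, by
    have := hb'0 d
    linarith, ?_⟩
  intro C₀ M E Ng G w F hC₀ hM hE hT hNg Q hQD
  have hC2 : (1 : ℝ) ≤ C₀ ^ 2 := one_le_pow₀ hC₀
  set b : ℕ → ℝ := fun e => b' e * C₀ ^ (2 * e) with hb
  have hb0 : ∀ e, 0 ≤ b e := by
    intro e
    have := hb'0 e
    simp only [hb]
    positivity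
  have hbs : ∀ e, C₀ * Cm + C₀ ^ 2 + (C₀ ^ 2 * d + 1) * b e ≤ b (e + 1) := by
    intro e
    have h0 := hb'0 e
    have h1 : (1 : ℝ) ≤ C₀ ^ (2 * e) := one_le_pow₀ hC₀
    have e1 : b (e + 1) = C₀ ^ 2 * C₀ ^ (2 * e) * (Cm + 1) +
        (d + 1) * C₀ ^ 2 * (b' e * C₀ ^ (2 * e)) := by
      simp only [hb]
      rw [hb's, show 2 * (e + 1) = 2 + 2 * e by ring, pow_add]
      ring
    rw [e1]
    have h2 : C₀ * Cm + C₀ ^ 2 ≤ C₀ ^ 2 * C₀ ^ (2 * e) * (Cm + 1) := by
      have h3 : C₀ ≤ C₀ ^ 2 := by nlinarith
      have h4 : C₀ * Cm ≤ C₀ ^ 2 * Cm := mul_le_mul_of_nonneg_right h3 hCm0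
      have h5 : C₀ ^ 2 * (Cm + 1) * 1 ≤ C₀ ^ 2 * (Cm + 1) * C₀ ^ (2 * e) :=
        mul_le_mul_of_nonneg_left h1 (by positivity)
      nlinarith
    have h3 : (C₀ ^ 2 * d + 1) * b e ≤ (d + 1) * C₀ ^ 2 * (b' e * C₀ ^ (2 * e)) := by
      have h4 : C₀ ^ 2 * d + 1 ≤ (d + 1) * C₀ ^ 2 := by nlinarith
      have h5 : b e = b' e * C₀ ^ (2 * e) := rfl
      rw [← h5]
      exact mul_le_mul_of_nonneg_right h4 (hb0 e)
    linarith
  set Φ := triC G w F with hΦ
  have hM0 : (0 : ℝ) < M := by exact_mod_cast hM
  have hN0 : ∀ i, (0 : ℝ) < Ng i := fun i => by exact_mod_cast hT.pos i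
  have hch := hT.chartOK hC₀ hM
  set S : ℝ := csC Φ Q with hS
  have hS0 : 0 ≤ S := csC_nonneg _ _
  set X : ℝ := S / E + 1 / M * csC Φ (MvPolynomial.pderiv none Q) with hX
  have hn0 : 0 ≤ 1 / M * csC Φ (MvPolynomial.pderiv none Q) :=
    mul_nonneg (by positivity) (csC_nonneg _ _)
  have hX0 : 0 ≤ X := by
    rw [hX]
    have : 0 ≤ S / E := by positivity
    linarith
  have hSX : S ≤ X * E := by
    rw [← div_le_iff₀ hE, hX]
    linarith
  -- the passive direction
  have hnone : 1 / M * csC Φ (MvPolynomial.pderiv none Q) ≤ X := by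
    rw [hX]
    have : 0 ≤ S / E := by positivity
    linarith
  -- the base directions
  have hstep : ∀ i : Fin d, ∀ β : ℝ, 0 ≤ β →
      (∀ i' : Fin d, i < i' → 1 / M * csC Φ (MvPolynomial.pderiv (some i') Q) ≤ β * X) →
      1 / M * csC Φ (MvPolynomial.pderiv (some i) Q) ≤
        (C₀ * Cm + C₀ ^ 2 + C₀ ^ 2 * d * β) * X := by
    intro i β hβ hi'
    have hSE : 0 ≤ X := hX0
    have hbd : 0 ≤ (M : ℝ) * ((C₀ * Cm + C₀ ^ 2 + C₀ ^ 2 * d * β) * X) := by positivity
    have h2 : csC Φ (MvPolynomial.pderiv (some i) Q) ≤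
        M * ((C₀ * Cm + C₀ ^ 2 + C₀ ^ 2 * d * β) * X) := by
      refine csC_le Φ _ hbd ?_
      intro u hu
      set a : Option (Fin d) → ℝ := fun o =>
        MvPolynomial.eval (cpt Φ u) (MvPolynomial.pderiv o Q) with ha
      have hle : ∀ o, |a o| ≤ csC Φ (MvPolynomial.pderiv o Q) := fun o => le_csC Φ _ hu
      -- the chain rule at the point
      have h3 := SML.markov E₀ K₁ hcen (fun _ => 0) zero_lt_one (MvPolynomial.bind₁ Φ Q)
        ((SML.totalDegree_bind_le Φ (k₀ + 1) hch.deg Q).trans (Nat.mul_le_mul_left _ hQD)) i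
        (mem_cube01 hu)
      rw [pderiv_bind] at h3
      rw [map_sum, Fintype.sum_option] at h3
      simp only [map_mul, eval_bind] at h3
      have e1 : ∀ i' : Fin d, MvPolynomial.eval u (MvPolynomial.pderiv i (Φ (some i'))) =
          (if i < i' then MvPolynomial.eval u (MvPolynomial.pderiv i (G i')) else 0) +
            (if i = i' then w i' else 0) := by
        intro i'
        have e2 : Φ (some i') = G i' + MvPolynomial.C (w i') * MvPolynomial.X i' := rfl
        rw [e2, map_add, Derivation.leibniz, MvPolynomial.pderiv_X, MvPolynomial.pderiv_C,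
          smul_eq_mul, smul_eq_mul, mul_zero, add_zero, map_add, map_mul, MvPolynomial.eval_C]
        by_cases hii : i < i'
        · rw [if_pos hii, if_neg hii.ne, Pi.single_eq_of_ne hii.ne', map_zero, mul_zero]
        · rw [if_neg hii, hT.tri i' i (not_lt.mp hii), map_zero]
          by_cases hi2 : i = i'
          · subst hi2
            rw [if_pos rfl, Pi.single_eq_same, map_one, mul_one]
          · rw [if_neg hi2, Pi.single_eq_of_ne (fun h => hi2 h.symm), map_zero, mul_zero]
      simp only [e1, mul_add, Finset.sum_add_distrib] at h3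
      have e3 : ∑ i' : Fin d, MvPolynomial.eval (cpt Φ u) (MvPolynomial.pderiv (some i') Q) *
          (if i = i' then w i' else 0) = a (some i) * w i := by
        rw [Finset.sum_eq_single i]
        · rw [if_pos rfl]
        · intro i' _ hi2
          rw [if_neg (fun h => hi2 h.symm), mul_zero]
        · intro h
          exact absurd (Finset.mem_univ i) h
      rw [e3] at h3
      have e4 : MvPolynomial.pderiv i (Φ none) = MvPolynomial.pderiv i F := rfl
      rw [e4] at h3
      have hcs : cs (fun _ : Fin d => (0 : ℝ)) 1 (MvPolynomial.bind₁ Φ Q) = S := rfl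
      rw [hcs] at h3
      change _ ≤ Cm * S at h3
      -- the bounds of the terms
      have t1 : |MvPolynomial.eval (cpt Φ u) (MvPolynomial.pderiv none Q) *
          MvPolynomial.eval u (MvPolynomial.pderiv i F)| ≤
          (M * X) * (C₀ * (Ng i / M)) := by
        rw [abs_mul]
        refine mul_le_mul ((hle none).trans ?_) (hT.slopeF u hu i) (abs_nonneg _) (by positivity)
        have := mul_le_mul_of_nonneg_left hnone hM0.le
        rw [← mul_assoc] at this
        have e5 : (M : ℝ) * (1 / M) = 1 := by field_simp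
        rw [e5, one_mul] at this
        exact this
      have t2 : |∑ i' : Fin d, MvPolynomial.eval (cpt Φ u) (MvPolynomial.pderiv (some i') Q) *
          (if i < i' then MvPolynomial.eval u (MvPolynomial.pderiv i (G i')) else 0)| ≤
          d * ((M * (β * X)) * (C₀ * (Ng i / M))) := by
        refine (Finset.abs_sum_le_sum_abs _ _).trans ?_
        calc ∑ i' : Fin d, |MvPolynomial.eval (cpt Φ u) (MvPolynomial.pderiv (some i') Q) *
            (if i < i' then MvPolynomial.eval u (MvPolynomial.pderiv i (G i')) else 0)| ≤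
            ∑ _i' : Fin d, (M * (β * X)) * (C₀ * (Ng i / M)) := by
              refine Finset.sum_le_sum fun i' _ => ?_
              have hN := hN0 i
              by_cases hii : i < i'
              · rw [if_pos hii, abs_mul]
                refine mul_le_mul ((hle (some i')).trans ?_) (hT.slope u hu i i')
                  (abs_nonneg _) (by positivity)
                have := mul_le_mul_of_nonneg_left (hi' i' hii) hM0.le
                rw [← mul_assoc] at this
                have e5 : (M : ℝ) * (1 / M) = 1 := by field_simp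
                rw [e5, one_mul] at this
                exact this
              · rw [if_neg hii, mul_zero, abs_zero]
                positivity
          _ = d * ((M * (β * X)) * (C₀ * (Ng i / M))) := by
              rw [Finset.sum_const, Finset.card_univ, Fintype.card_fin, nsmul_eq_mul]
      have hw := hT.w_pos i
      have t3 : |a (some i)| * w i ≤ Cm * S + (M * X) * (C₀ * (Ng i / M)) +
          d * ((M * (β * X)) * (C₀ * (Ng i / M))) := by
        have e6 : |a (some i)| * w i = |a (some i) * w i| := by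
          rw [abs_mul, abs_of_pos hw]
        rw [e6]
        set x₁ := MvPolynomial.eval (cpt Φ u) (MvPolynomial.pderiv none Q) *
          MvPolynomial.eval u (MvPolynomial.pderiv i F) with hx₁
        set x₂ := ∑ i' : Fin d, MvPolynomial.eval (cpt Φ u) (MvPolynomial.pderiv (some i') Q) *
          (if i < i' then MvPolynomial.eval u (MvPolynomial.pderiv i (G i')) else 0) with hx₂
        have e7 : a (some i) * w i = (x₁ + (x₂ + a (some i) * w i)) - (x₁ + x₂) := by ring
        rw [e7]
        refine (abs_sub _ _).trans ?_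
        have := abs_add_le x₁ x₂
        linarith
      -- dividing by the width
      have hNi := hN0 i
      have g1 : (Ng i : ℝ) ≤ C₀ * w i * M := by
        have := hT.le_w i
        rw [div_le_iff₀ hM0] at this
        exact this
      have g2 : Cm * S ≤ C₀ * w i * (M * (Cm * X)) := by
        have h5 : E ≤ C₀ * w i * M := (hNg i).trans g1
        calc Cm * S ≤ Cm * (X * E) := mul_le_mul_of_nonneg_left hSX hCm0
          _ = Cm * X * E := by ring
          _ ≤ Cm * X * (C₀ * w i * M) := mul_le_mul_of_nonneg_left h5 (by positivity)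
          _ = C₀ * w i * (M * (Cm * X)) := by ring
      have g3 : (Ng i : ℝ) / M ≤ C₀ * w i := hT.le_w i
      have g4 : (M * X) * (C₀ * (Ng i / M)) ≤ (M * X) * (C₀ * (C₀ * w i)) :=
        mul_le_mul_of_nonneg_left (mul_le_mul_of_nonneg_left g3 (by linarith)) (by positivity)
      have g5 : d * ((M * (β * X)) * (C₀ * (Ng i / M))) ≤
          d * ((M * (β * X)) * (C₀ * (C₀ * w i))) :=
        mul_le_mul_of_nonneg_left (mul_le_mul_of_nonneg_left
          (mul_le_mul_of_nonneg_left g3 (by linarith)) (by positivity)) (Nat.cast_nonneg d)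
      have g6 : |a (some i)| * w i ≤
          (M * ((C₀ * Cm + C₀ ^ 2 + C₀ ^ 2 * d * β) * X)) * w i := by
        refine (t3.trans (add_le_add (add_le_add g2 g4) g5)).trans (le_of_eq ?_)
        ring
      exact le_of_mul_le_mul_right g6 hw
    calc 1 / M * csC Φ (MvPolynomial.pderiv (some i) Q) ≤
          1 / M * (M * ((C₀ * Cm + C₀ ^ 2 + C₀ ^ 2 * d * β) * X)) :=
          mul_le_mul_of_nonneg_left h2 (by positivity)
      _ = (C₀ * Cm + C₀ ^ 2 + C₀ ^ 2 * d * β) * X := by field_simp
  have hall : ∀ e : ℕ, ∀ i : Fin d, d ≤ i.val + e →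
      1 / M * csC Φ (MvPolynomial.pderiv (some i) Q) ≤ b e * X := by
    intro e
    induction e with
    | zero =>
      intro i hi
      have := i.2
      omega
    | succ e ih =>
      intro i hi
      have hSE : 0 ≤ X := hX0
      have h5 := hstep i (b e) (hb0 e) (fun i' hii => ih i' (by
        have : i.val < i'.val := hii
        omega))
      refine h5.trans (mul_le_mul_of_nonneg_right ?_ hSE)
      refine le_trans ?_ (hbs e)
      have := hb0 e
      nlinarith
  intro o
  have h7 : (1 : ℝ) ≤ C₀ ^ (2 * d) := one_le_pow₀ hC₀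
  have h8 : b d = b' d * C₀ ^ (2 * d) := rfl
  have h9 := hb'0 d
  have h10 : 1 / M * csC Φ (MvPolynomial.pderiv o Q) ≤ (1 + b d) * X := by
    have hbd := hb0 d
    cases o with
    | none =>
      refine hnone.trans ?_
      nlinarith
    | some i =>
      refine (hall d i (by omega)).trans ?_
      nlinarith
  refine h10.trans (mul_le_mul_of_nonneg_right ?_ hX0)
  rw [h8]
  nlinarith

end Pool.IEN
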