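import Pool.Agent.H86.IE.Tim
import Pool.Agent.H86.KJ.Lre

/-!
# Polynomials along a line

`lq`: a polynomial restricted to a line. `lineW`: the jet size along a line over a long window.
`CLeaf.mono`: the constant of a leaf may be increased. `ms`: the mass of a set.
-/

set_option autoImplicit false

namespace Pool.IEN

open Finset Real
open Pool.Agent.H49.Ent Pool.Agent.H32.Dense Pool.STK Pool.KAF Pool.KAL Pool.KS3 Pool.M3F Pool.KJA

/-- A polynomial restricted to a line. -/
noncomputable def lq {σ : Type} (A B : σ → ℝ) (P : MvPolynomial σ ℝ) : Polynomial ℝ :=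
  MvPolynomial.aeval (fun o => Polynomial.C (A o) + Polynomial.X * Polynomial.C (B o)) P

lemma eval_lq {σ : Type} (A B : σ → ℝ) (P : MvPolynomial σ ℝ) (t : ℝ) :
    (lq A B P).eval t = MvPolynomial.eval (fun o => A o + t * B o) P := by
  unfold lq
  induction P using MvPolynomial.induction_on with
  | C a => simp
  | add p q hp hq => simp only [map_add, Polynomial.eval_add, hp, hq]
  | mul_X p k hp =>
    rw [map_mul, map_mul, Polynomial.eval_mul, hp]
    simp only [MvPolynomial.aeval_X, Polynomial.eval_add, Polynomial.eval_C, Polynomial.eval_mul,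
      Polynomial.eval_X, MvPolynomial.eval_X]

lemma deg_lq {σ : Type} (A B : σ → ℝ) {P : MvPolynomial σ ℝ} {D : ℕ} (h : P.totalDegree ≤ D) :
    (lq A B P).natDegree ≤ D := by
  have h1 := MvPolynomial.aeval_natDegree_le (m := D) (n := 1) P h
    (fun o => Polynomial.C (A o) + Polynomial.X * Polynomial.C (B o)) (fun o => by
      refine (Polynomial.natDegree_add_le _ _).trans ?_
      rw [Polynomial.natDegree_C]
      refine max_le (Nat.zero_le _) ?_
      refine (Polynomial.natDegree_mul_le).trans ?_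
      rw [Polynomial.natDegree_C, add_zero]
      exact Polynomial.natDegree_X_le)
  rwa [mul_one] at h1

lemma lq_zero {σ : Type} (A B : σ → ℝ) : lq A B (0 : MvPolynomial σ ℝ) = 0 := map_zero _

/-- The jet size along a line over a long window. -/
theorem lineW (σ : Type) [Fintype σ] (D : ℕ) :
    ∃ c₁ : ℝ, 0 ≤ c₁ ∧ ∀ (κ : ℝ) (M W : ℕ) (P : MvPolynomial σ ℝ) (A B : σ → ℝ), 1 ≤ κ →
    1 ≤ M → 1 ≤ W → P.totalDegree ≤ D → (∀ i, |B i| ≤ κ) →
    ∃ g : Polynomial ℝ, g.natDegree ≤ D ∧
      ∀ t ∈ Set.Icc (0 : ℝ) 1, ∀ z : σ → ℝ, (∀ i, |z i - (A i + t * (W * B i))| ≤ κ / M) →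
        |g.eval t| ≤ Real.exp c₁ * Psi P (κ / M) z ∧
        Psi P (κ / M) z ≤ Real.exp c₁ * sp g := by
  obtain ⟨c₁, hc₁, H⟩ := lineC σ D
  refine ⟨c₁, hc₁, ?_⟩
  intro κ M W P A B hκ hM hW hPD hB
  have hM0 : (0 : ℝ) < M := by exact_mod_cast hM
  have hW0 : (0 : ℝ) < W := by exact_mod_cast hW
  have hW1 : (1 : ℝ) ≤ W := by exact_mod_cast hW
  by_cases hP : P = 0
  · refine ⟨0, by simp, ?_⟩
    intro t _ z _
    have h1 : Psi P (κ / M) z = 0 := by
      rw [hP]
      have h2 := SML.Psi_le_pderiv (0 : MvPolynomial σ ℝ) (h := κ / M) (by positivity) z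
      have h3 := Psi_nonneg (0 : MvPolynomial σ ℝ) (κ / M) z
      have h4 : ∀ n : ℕ, Psi (0 : MvPolynomial σ ℝ) (κ / M) z = 0 := by
        intro n
        unfold Psi shf coefSum
        simp
      exact h4 0
    rw [h1, sp_zero]
    simp
  · have e1 : (W : ℝ) * κ / ((W * M : ℕ) : ℝ) = κ / M := by
      push_cast
      field_simp
    obtain ⟨m, q, hq, ⟨s, hs, hs'⟩, hz⟩ := H (W * κ) (W * M) P A (fun i => W * B i)
      (by nlinarith) (Nat.mul_pos hW hM) hP hPD (fun i => by
        rw [abs_mul, abs_of_pos hW0]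
        exact mul_le_mul_of_nonneg_left (hB i) hW0.le)
    refine ⟨q, hq, ?_⟩
    intro t ht z hzz
    rw [e1] at hz
    obtain ⟨h1, _, h3⟩ := hz t ht z hzz
    have hpos := Psi_pos P hP (κ / M) (by positivity) z
    refine ⟨?_, ?_⟩
    · rw [Real.exp_add, Real.exp_log hpos, mul_comm] at h1
      exact h1
    · have h4 := Real.exp_le_exp.mpr h3
      rw [Real.exp_log hpos, Real.exp_add, mul_comm] at h4
      exact h4.trans (mul_le_mul_of_nonneg_left (hs'.trans (le_sp q hs)) (Real.exp_pos _).le)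

/-- The constant of a leaf may be increased. -/
lemma cleaf_mono {σ Ω Λ Ξ Z : Type} [Fintype Ω] {d k₀ : ℕ} {C₀ C₀' : ℝ} {M : ℕ} {p : Ω → ℝ}
    {lam : Ω → Λ} {x : Ω → Ξ} {T : Ξ → ℕ} {z : Ξ → σ → ℝ} {A B : Λ → σ → ℝ} {zx : Ξ → Z}
    {zl : Λ → Z} {Yb : Ξ → Fin d → ℕ} {Ng : Z → Fin d → ℕ} {Φ : Z → σ → MvPolynomial (Fin d) ℝ}
    (h : CLeaf k₀ C₀ M p lam x T z A B zx zl Yb Ng Φ) (hC : C₀ ≤ C₀') :
    CLeaf k₀ C₀' M p lam x T z A B zx zl Yb Ng Φ := by
  have h1 : C₀ / M ≤ C₀' / M := div_le_div_of_nonneg_right hC (Nat.cast_nonneg _)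
  exact
    { inc :=
        { isLaw := h.inc.isLaw
          T_lt := h.inc.T_lt
          near := fun ω hω i => (h.inc.near ω hω i).trans h1
          B_le := fun ω hω i => (h.inc.B_le ω hω i).trans hC }
      lab := h.lab
      chart := fun ω hω =>
        { pos := (h.chart ω hω).pos
          deg := (h.chart ω hω).deg
          step := fun u hu u' hu' huu o => ((h.chart ω hω).step u hu u' hu' huu o).trans h1
          diam := fun u hu u' hu' o => ((h.chart ω hω).diam u hu u' hu' o).trans hC }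
      lt := h.lt
      near := fun ω hω o => (h.near ω hω o).trans h1 }

section

variable {V : Type} [Fintype V]

/-- The mass of a set. -/
noncomputable def ms (r : V → ℝ) (P : V → Prop) : ℝ :=
  ∑ v, (open Classical in if P v then r v else 0)

lemma ms_eq (r : V → ℝ) (P : V → Prop) (inst : ∀ v, Decidable (P v)) :
    ms r P = ∑ v, @ite ℝ (P v) (inst v) (r v) 0 := by
  unfold ms
  refine Finset.sum_congr rfl fun v _ => ?_
  by_cases h : P v
  · rw [if_pos h, if_pos h]
  · rw [if_neg h, if_neg h]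

lemma ms_nonneg {r : V → ℝ} (hr : ∀ v, 0 ≤ r v) (P : V → Prop) : 0 ≤ ms r P := by
  classical
  refine Finset.sum_nonneg fun v _ => ?_
  split_ifs
  · exact hr v
  · exact le_rfl

lemma ms_le {r : V → ℝ} (hr : ∀ v, 0 ≤ r v) {P P' : V → Prop}
    (h : ∀ v, 0 < r v → P v → P' v) : ms r P ≤ ms r P' := by
  classical
  refine Finset.sum_le_sum fun v _ => ?_
  by_cases hv : 0 < r v
  · by_cases h1 : P v
    · rw [if_pos h1, if_pos (h v hv h1)]
    · rw [if_neg h1]
      split_ifs
      · exact hr v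
      · exact le_rfl
  · have h0 : r v = 0 := le_antisymm (not_lt.mp hv) (hr v)
    rw [h0]
    simp

lemma ms_or {r : V → ℝ} (hr : ∀ v, 0 ≤ r v) (P P' : V → Prop) :
    ms r (fun v => P v ∨ P' v) ≤ ms r P + ms r P' := by
  classical
  unfold ms
  rw [← Finset.sum_add_distrib]
  refine Finset.sum_le_sum fun v _ => ?_
  have := hr v
  by_cases h1 : P v <;> by_cases h2 : P' v <;> simp [h1, h2, this]

lemma ms_ex {r : V → ℝ} (hr : ∀ v, 0 ≤ r v) {ι : Type} [Fintype ι] (P : ι → V → Prop) {b : ℝ}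
    (h : ∀ i, ms r (P i) ≤ b) : ms r (fun v => ∃ i, P i v) ≤ Fintype.card ι * b := by
  classical
  have h1 : ms r (fun v => ∃ i, P i v) ≤ ∑ i, ms r (P i) := by
    unfold ms
    rw [Finset.sum_comm]
    refine Finset.sum_le_sum fun v _ => ?_
    have hnn : ∀ i : ι, 0 ≤ if P i v then r v else 0 := by
      intro i
      split_ifs
      · exact hr v
      · exact le_rfl
    by_cases hb : ∃ i, P i v
    · rw [if_pos hb]
      obtain ⟨i, hi⟩ := hb
      have h2 := Finset.single_le_sum (f := fun i : ι => if P i v then r v else 0)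
        (fun i _ => hnn i) (Finset.mem_univ i)
      simp only [if_pos hi] at h2
      exact h2
    · rw [if_neg hb]
      exact Finset.sum_nonneg fun i _ => hnn i
  refine h1.trans ?_
  calc ∑ i, ms r (P i) ≤ ∑ _i : ι, b := Finset.sum_le_sum fun i _ => h i
    _ = _ := by rw [Finset.sum_const, Finset.card_univ, nsmul_eq_mul]

end

end Pool.IEN
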