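import Pool.Agent.H86.IE.Lnw

/-!
# The conclusions of the bridge

`BrC`: the list of the conclusions. `brc_of`: the deterministic part, on a line over a long window.
-/

set_option autoImplicit false

namespace Pool.IEN

open Finset Real
open Pool.Agent.H49.Ent Pool.Agent.H32.Dense Pool.STK Pool.KAF Pool.KAL Pool.KS3 Pool.M3F Pool.KJA

/-- The line over the window `[0, 1]`. -/
def ltW {σ : Type} (W : ℕ) (A B : σ → ℝ) (s : ℝ) : σ → ℝ := fun o => A o + s * (W * B o)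

/-- The suprema of the passive derivatives along the line. -/
noncomputable def aL {d : ℕ} (W : ℕ) (A B : Option (Fin d) → ℝ)
    (Q : MvPolynomial (Option (Fin d)) ℝ) (k : ℕ) : ℝ :=
  sp (lq A (fun o => W * B o) (pN k Q))

/-- The conclusions of the bridge for the equation `Q`, the second leaf `Φ₂`, the position `u₂` in
it and the line `lt` (over the window `[0, 1]`, time `s₂`). -/
structure BrC {d : ℕ} (D : ℕ) (C KK H L Λ E ρ : ℝ)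
    (Q : MvPolynomial (Option (Fin d)) ℝ) (Φ₂ : Option (Fin d) → MvPolynomial (Fin d) ℝ)
    (u₂ : Fin d → ℝ) (lt : ℝ → Option (Fin d) → ℝ) (s₂ : ℝ) (k : ℕ) : Prop where
  pos : 0 < |MvPolynomial.eval (lt s₂) (pN (k + 1) Q)|
  line : ∀ s ∈ Set.Icc (0 : ℝ) 1, |MvPolynomial.eval (lt s) (pN k Q)| ≤
    bth D KK H L Λ ρ k * (H * |MvPolynomial.eval (lt s₂) (pN (k + 1) Q)|)
  leaf : ∀ u ∈ bcube d, |MvPolynomial.eval (cpt Φ₂ u) (pN k Q)| ≤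
    C * (bE₂ D KK H L * bth D KK H L Λ ρ k * |MvPolynomial.eval (lt s₂) (pN (k + 1) Q)|)
  high : ∀ m, ∀ u ∈ bcube d, |MvPolynomial.eval (cpt Φ₂ u) (pN (k + 1 + m) Q)| *
    bth D KK H L Λ ρ (k + 1) ^ m ≤
      C * (bE₂ D KK H L * |MvPolynomial.eval (lt s₂) (pN (k + 1) Q)|)
  var : ∀ δ : ℝ, 0 ≤ δ → ∀ u ∈ bcube d, (∀ i, |u i - u₂ i| ≤ δ) →
    |MvPolynomial.eval (cpt Φ₂ u) (pN (k + 1) Q) - MvPolynomial.eval (lt s₂) (pN (k + 1) Q)| ≤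
      (C * δ + KK * (1 / E + D / Λ)) *
        (bE₂ D KK H L * |MvPolynomial.eval (lt s₂) (pN (k + 1) Q)|)
  win : ∀ s ∈ Set.Icc (0 : ℝ) 1,
    |MvPolynomial.eval (lt s) (pN (k + 1) Q) - MvPolynomial.eval (lt s₂) (pN (k + 1) Q)| ≤
      C * |s - s₂| * (H * |MvPolynomial.eval (lt s₂) (pN (k + 1) Q)|)

theorem brc_of {d D M W E₀ : ℕ} {Φ₁ Φ₂ : Option (Fin d) → MvPolynomial (Fin d) ℝ}
    {C E H L Λ KK κ ρ s₁ s₂ : ℝ} (hM : 1 ≤ M) (hE : 1 ≤ E) (hH : 1 ≤ H) (hL : 1 ≤ L)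
    (hΛ : 1 ≤ Λ) (hKK : 1 ≤ KK) (hκ : 1 ≤ κ) (hρ : 0 < ρ) (hMρ : 1 ≤ M * ρ)
    {Q : MvPolynomial (Option (Fin d)) ℝ} (hQ : Q.totalDegree ≤ D)
    {A B : Option (Fin d) → ℝ} (hs₁ : s₁ ∈ Set.Icc (0 : ℝ) 1) (hs₂ : s₂ ∈ Set.Icc (0 : ℝ) 1)
    {u₁ u₂ : Fin d → ℝ} {y₁ y₂ : Option (Fin d) → ℝ} (hu₁ : u₁ ∈ ucube d) (hu₂ : u₂ ∈ ucube d)
    -- constants
    (hC1 : ∀ (R : MvPolynomial (Fin d) ℝ), R.totalDegree ≤ E₀ → ∀ δ : ℝ, 0 ≤ δ → ∀ u ∈ bcube d,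
      ∀ u' ∈ bcube d, (∀ i, |u' i - u i| ≤ δ) →
      |MvPolynomial.eval u' R - MvPolynomial.eval u R| ≤ C * δ * cs (fun _ => 0) 1 R)
    (hC3 : ∀ (R : MvPolynomial (Fin d) ℝ), R.totalDegree ≤ E₀ → ∀ u ∈ bcube d,
      |MvPolynomial.eval u R| ≤ C * cs (fun _ => 0) 1 R)
    (hC2 : ∀ g : Polynomial ℝ, g.natDegree ≤ D →
      ∀ t ∈ Set.Icc (0 : ℝ) 1, ∀ t' ∈ Set.Icc (0 : ℝ) 1,
      |g.eval t' - g.eval t| ≤ C * |t' - t| * sp g)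
    (hC0 : 0 ≤ C)
    -- jets on the first leaf
    (hjet : ∀ R : MvPolynomial (Option (Fin d)) ℝ, R.totalDegree ≤ D →
      Psi R (κ / M) (cpt Φ₁ u₁) ≤ KK * nj D M Φ₁ 1 R)
    (hvar : ∀ R : MvPolynomial (Option (Fin d)) ℝ, R.totalDegree ≤ D →
      ∀ y : Option (Fin d) → ℝ, (∀ o, |y o - cpt Φ₁ u₁ o| ≤ κ / M) →
        |MvPolynomial.eval y R - MvPolynomial.eval (cpt Φ₁ u₁) R| ≤ KK * nj D M Φ₁ (1 / E) R)
    -- positions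
    (hy₁ : ∀ o, |y₁ o - cpt Φ₁ u₁ o| ≤ κ / M)
    (hl₁ : ∀ o, |ltW W A B s₁ o - cpt Φ₁ u₁ o| ≤ κ / M)
    -- the line
    (ha₀ : aL W A B Q 0 ≤ H * |MvPolynomial.eval (ltW W A B s₁) Q|)
    (ha₂ : ∀ k ≤ D, aL W A B Q k ≤ H * |MvPolynomial.eval (ltW W A B s₂) (pN k Q)|)
    -- the first point is typical in its leaf
    (htyp : ∀ k ≤ D, 0 < csC Φ₁ (pN k Q) → ∃ y : Option (Fin d) → ℝ,
      (∀ o, |y o - cpt Φ₁ u₁ o| ≤ κ / M) ∧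
        csC Φ₁ (pN k Q) ≤ H * |MvPolynomial.eval y (pN k Q)|)
    -- the second leaf
    (hE1 : ∀ m ≤ D, ∀ u ∈ ucube d,
      Psi (pN m Q) (κ / M) (cpt Φ₂ u) ≤ H * Psi (pN m Q) (κ / M) y₂)
    (hE2 : ∀ m ≤ D, Psi (pN m Q) (κ / M) y₂ ≤ H * Psi (pN m Q) (κ / M) y₁)
    (hdeg₂ : ∀ R : MvPolynomial (Option (Fin d)) ℝ, R.totalDegree ≤ D →
      (MvPolynomial.bind₁ Φ₂ R).totalDegree ≤ E₀)
    (hvar₂ : ∀ R : MvPolynomial (Option (Fin d)) ℝ, R.totalDegree ≤ D →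
      |MvPolynomial.eval (ltW W A B s₂) R - MvPolynomial.eval (cpt Φ₂ u₂) R| ≤
        KK * nj D M Φ₂ (1 / E) R)
    -- the equation of the first leaf
    (hS : 0 < csC Φ₁ (pN 1 Q)) (hQ0 : csC Φ₁ Q ≤ ρ * csC Φ₁ (pN 1 Q))
    (hQr : ∀ r, csC Φ₁ (pN (r + 1) Q) * ρ ^ r ≤ csC Φ₁ (pN 1 Q))
    (hKL : 4 * KK * (1 / E + D / L) * H ≤ 1) :
    (∃ k, Gap D (aL W A B Q) (bth D KK H L Λ ρ) k) ∧
      ∀ k, Gap D (aL W A B Q) (bth D KK H L Λ ρ) k →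
        BrC D C KK H L Λ E ρ Q Φ₂ u₂ (ltW W A B) s₂ k := by
  have hM0 : (0 : ℝ) < M := by exact_mod_cast hM
  have hval : ∀ s ∈ Set.Icc (0 : ℝ) 1, ∀ k,
      |MvPolynomial.eval (ltW W A B s) (pN k Q)| ≤ aL W A B Q k := by
    intro s hs k
    have h1 := le_sp (lq A (fun o => W * B o) (pN k Q)) hs
    rw [eval_lq] at h1
    exact h1
  obtain ⟨h1, h2⟩ := bridge (Φ₁ := Φ₁) (Φ₂ := Φ₂) (a := aL W A B Q) (lt := ltW W A B)
    (t₁ := s₁) (t₂ := s₂) hM hE hH hL hΛ hKK hκ hρ hMρ hS hQ hu₁ hjet hvar hy₁ hl₁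
    (fun k => sp_nonneg _)
    (fun k hk => by
      unfold aL
      rw [pN_eq_zero k D hQ hk, lq_zero, sp_zero])
    (fun k _ => hval s₁ hs₁ k) ha₀ ha₂ htyp hE1 hE2 rfl hQ0 hQr hKL
  refine ⟨h1, ?_⟩
  intro k hk
  obtain ⟨b1, b2, b3, b4⟩ := h2 k hk
  have hkD : k + 1 ≤ D := hk.1
  set q : ℝ := |MvPolynomial.eval (ltW W A B s₂) (pN (k + 1) Q)| with hq
  have hLD : (1 : ℝ) ≤ L ^ D := one_le_pow₀ hL
  have hD0 : (0 : ℝ) ≤ D := Nat.cast_nonneg D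
  have hEb1 : 1 ≤ bEb D H L := by
    unfold bEb
    have h3 : 1 ≤ L ^ D * H := by nlinarith
    nlinarith
  have hE₂0 : 0 ≤ bE₂ D KK H L := by
    unfold bE₂
    have : 0 ≤ bEb D H L := by linarith
    positivity
  have hE₀1 : 1 ≤ bE₀ D KK H L := by
    unfold bE₀
    have h3 : 1 ≤ H * KK := by nlinarith
    have h4 : 1 ≤ H * KK * bEb D H L := by nlinarith
    have e1 : 2 * (2 * H * KK * ((D : ℝ) + 1)) * bEb D H L * (D + 1) =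
        4 * (D + 1) ^ 2 * (H * KK * bEb D H L) := by ring
    rw [e1]
    have h5 : (1 : ℝ) ≤ (D + 1) ^ 2 := by nlinarith
    nlinarith
  have hθ : Λ / M ≤ bth D KK H L Λ ρ (k + 1) := by
    unfold bth
    have h3 : Λ ≤ Λ ^ (k + 1) := by
      calc Λ = Λ ^ 1 := (pow_one _).symm
        _ ≤ Λ ^ (k + 1) := pow_le_pow_right₀ hΛ (by omega)
    rw [div_le_iff₀ hM0]
    calc Λ ≤ Λ ^ (k + 1) := h3
      _ = 1 * 1 * Λ ^ (k + 1) := by ring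
      _ ≤ (M * ρ) * bE₀ D KK H L * Λ ^ (k + 1) := by
          refine mul_le_mul_of_nonneg_right ?_ (by positivity)
          exact mul_le_mul hMρ hE₀1 zero_le_one (by positivity)
      _ = ρ * bE₀ D KK H L * Λ ^ (k + 1) * M := by ring
  have hθ0 : 0 < bth D KK H L Λ ρ (k + 1) := lt_of_lt_of_le (by positivity) hθ
  refine ⟨b1, ?_, ?_, ?_, ?_, ?_⟩
  · intro s hs
    exact (hval s hs k).trans b2
  · intro u hu
    have h3 := hC3 (MvPolynomial.bind₁ Φ₂ (pN k Q)) (hdeg₂ _ (pN_deg k D hQ)) u hu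
    rw [eval_bind] at h3
    exact h3.trans (mul_le_mul_of_nonneg_left b3 hC0)
  · intro m u hu
    have h3 := hC3 (MvPolynomial.bind₁ Φ₂ (pN (k + 1 + m) Q)) (hdeg₂ _ (pN_deg (k + 1 + m) D hQ))
      u hu
    rw [eval_bind] at h3
    calc |MvPolynomial.eval (cpt Φ₂ u) (pN (k + 1 + m) Q)| * bth D KK H L Λ ρ (k + 1) ^ m ≤
          C * csC Φ₂ (pN (k + 1 + m) Q) * bth D KK H L Λ ρ (k + 1) ^ m :=
          mul_le_mul_of_nonneg_right h3 (by positivity)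
      _ = C * (csC Φ₂ (pN (k + 1 + m) Q) * bth D KK H L Λ ρ (k + 1) ^ m) := by ring
      _ ≤ _ := mul_le_mul_of_nonneg_left (b4 m) hC0
  · intro δ hδ u hu hδu
    have hRD : (pN (k + 1) Q).totalDegree ≤ D := pN_deg (k + 1) D hQ
    exact var_leaf (E₀ := E₀) hM hE hΛ (by linarith) (mul_nonneg hE₂0 b1.le) hC1 hC0 hδ
      (hdeg₂ _ hRD) hu₂ (hvar₂ _ hRD) hθ (fun m => by
        rw [pN_pN, add_comm m (k + 1)]
        exact b4 m) u hu hδu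
  · intro s hs
    have h3 := hC2 (lq A (fun o => W * B o) (pN (k + 1) Q))
      (deg_lq _ _ (pN_deg (k + 1) D hQ)) s₂ hs₂ s hs
    rw [eval_lq, eval_lq] at h3
    refine h3.trans ?_
    exact mul_le_mul_of_nonneg_left (ha₂ (k + 1) hkD) (by positivity)

end Pool.IEN
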