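import Pool.Agent.H86.IE.Brc

/-!
# The bridge, event form

`bridge_ev`: two points of one line over a long window, in two leaves. Outside a set of small
probability the equation of the first leaf satisfies the conclusions of `bridge` on the second
leaf.
-/

set_option autoImplicit false

namespace Pool.IEN

open Finset Real
open Pool.Agent.H49.Ent Pool.Agent.H32.Dense Pool.STK Pool.KAF Pool.KAL Pool.KS3 Pool.M3F Pool.KJA

/-- The deficit of the time is not negative. -/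
lemma tdef_nonneg {V Γ : Type} [Fintype V] {r : V → ℝ} (hr : IsLaw r) (c : V → Γ) (T : V → ℕ)
    (M : ℕ) (hT : ∀ v, 0 < r v → T v < M) : 0 ≤ Real.log M - CH r T c := by
  have h1 := CH_le_H hr T c
  have h2 := H_le_log_card hr.nonneg hr.sum_one T (Finset.range M) (fun v hv =>
    Finset.mem_range.mpr (hT v hv))
  rw [Finset.card_range] at h2
  linarith

/-- **The bridge, event form.** -/
theorem bridge_ev (d D k₀ : ℕ) : ∃ C : ℝ, 1 ≤ C ∧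
    ∀ (C₀ κ : ℝ) (Ω Λ Ξ Z V Lw : Type) [Fintype Ω] [Fintype V] (p : Ω → ℝ) (lam : Ω → Λ)
      (x : Ω → Ξ) (T : Ξ → ℕ) (z : Ξ → Option (Fin d) → ℝ) (A B : Λ → Option (Fin d) → ℝ)
      (zx : Ξ → Z) (zl : Λ → Z) (Yb : Ξ → Fin d → ℕ) (Ng : Z → Fin d → ℕ)
      (G : Z → Fin d → MvPolynomial (Fin d) ℝ) (w : Z → Fin d → ℝ)
      (F : Z → MvPolynomial (Fin d) ℝ) (M W N : ℕ) (μ e₁ h E : ℝ)
      (r : V → ℝ) (X₁ X₂ : V → Ξ) (lw : V → Lw) (A' B' : Lw → Option (Fin d) → ℝ)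
      (T₁ T₂ : V → ℕ) (Q : Z → MvPolynomial (Option (Fin d)) ℝ) (H KK L Λ' : ℝ) (ρ : Z → ℝ),
      1 ≤ C₀ → 1 ≤ κ → 1 ≤ M → 1 ≤ W → 1 ≤ E → 1 ≤ L → 1 ≤ Λ' →
      (∀ ω, 0 < p ω → Tri k₀ C₀ M (Ng (zx (x ω))) (G (zx (x ω))) (w (zx (x ω)))
        (F (zx (x ω)))) →
      (∀ ω, 0 < p ω → ∀ i, E ≤ Ng (zx (x ω)) i) →
      CLeaf (k₀ + 1) κ M p lam x T z A B zx zl Yb Ng (fun ζ => triC (G ζ) (w ζ) (F ζ)) →
      MxC N μ p lam x (fun ξ => ∑ i, Real.log (Ng (zx ξ) i)) Yb → 0 ≤ μ →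
      Real.log M - CH p (fun ω => T (x ω)) lam ≤ e₁ → 0 ≤ e₁ →
      IsLaw r → (∀ ξ, law r X₁ ξ = law p x ξ) → (∀ ξ, law r X₂ ξ = law p x ξ) →
      -- the long line
      (∀ v, 0 < r v → T₁ v < W * M) → (∀ v, 0 < r v → T₂ v < W * M) →
      (∀ v, 0 < r v → ∀ o, |z (X₁ v) o - (A' (lw v) o + (T₁ v : ℝ) / M * B' (lw v) o)| ≤ κ / M) →
      (∀ v, 0 < r v → ∀ o, |z (X₂ v) o - (A' (lw v) o + (T₂ v : ℝ) / M * B' (lw v) o)| ≤ κ / M) →
      (∀ v, 0 < r v → ∀ o, |B' (lw v) o| ≤ κ) →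
      -- the equations
      (∀ ω, 0 < p ω → (Q (zx (x ω))).totalDegree ≤ D) →
      (∀ ω, 0 < p ω → 0 < ρ (zx (x ω)) ∧ 1 ≤ M * ρ (zx (x ω))) →
      (∀ ω, 0 < p ω → ∀ Φ, Φ = triC (G (zx (x ω))) (w (zx (x ω))) (F (zx (x ω))) →
        0 < csC Φ (pN 1 (Q (zx (x ω)))) ∧
        csC Φ (Q (zx (x ω))) ≤ ρ (zx (x ω)) * csC Φ (pN 1 (Q (zx (x ω)))) ∧
        ∀ j, csC Φ (pN (j + 1) (Q (zx (x ω)))) * ρ (zx (x ω)) ^ j ≤
          csC Φ (pN 1 (Q (zx (x ω))))) →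
      -- the numbers
      0 < h → C * Real.exp h ≤ M → C * Real.exp h ≤ H →
      (C * κ * C₀ ^ (2 * d)) ^ (D + 1) ≤ KK → 4 * KK * (1 / E + D / L) * H ≤ 1 →
      ms r (fun v => ¬ ((∃ k, Gap D (aL W (A' (lw v)) (B' (lw v)) (Q (zx (X₁ v))))
          (bth D KK H L Λ' (ρ (zx (X₁ v)))) k) ∧
        ∀ k, Gap D (aL W (A' (lw v)) (B' (lw v)) (Q (zx (X₁ v))))
          (bth D KK H L Λ' (ρ (zx (X₁ v)))) k →
          BrC D C KK H L Λ' E (ρ (zx (X₁ v))) (Q (zx (X₁ v)))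
            (triC (G (zx (X₂ v))) (w (zx (X₂ v))) (F (zx (X₂ v))))
            (gpos (Ng (zx (X₂ v))) (Yb (X₂ v))) (ltW W (A' (lw v)) (B' (lw v)))
            ((T₂ v : ℝ) / ((W * M : ℕ) : ℝ)) k)) ≤
        C * ((CH r (fun v => zx (X₁ v)) (fun v => zx (X₂ v)) -
            CH r (fun v => zx (X₁ v)) X₂) + (N + 1) * (e₁ + 1) + μ +
          (Real.log ((W * M : ℕ) : ℝ) - CH r T₁ (fun v => (lw v, zx (X₁ v)))) +
          (Real.log ((W * M : ℕ) : ℝ) - CH r T₂ (fun v => (lw v, zx (X₁ v))))) / h := by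
  classical
  obtain ⟨C₁, hC₁, hjt⟩ := jet_tri d D k₀
  obtain ⟨C₂, hC₂, hlrc⟩ := lrc_ev (Option (Fin d)) d D (k₀ + 1)
  obtain ⟨C₃, hC₃, hrev⟩ := rev d ((k₀ + 1) * D)
  obtain ⟨C₄, hC₄, htim⟩ := tim_ev D
  obtain ⟨c₁, hc₁, hlin⟩ := lineW (Option (Fin d)) D
  obtain ⟨C₅, hC₅, hvc⟩ := big_cube d ((k₀ + 1) * D)
  obtain ⟨C₆, hC₆, hsv⟩ := sp_var D
  set K₁ : ℝ := ((D : ℝ) + 1) * (2 * D + C₂) with hK₁
  set K₂ : ℝ := ((D : ℝ) + 1) * (2 * (D + 1) * (1 + C₄)) with hK₂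
  set K₃ : ℝ := ((D : ℝ) + 1) * (2 * (((k₀ + 1) * D : ℕ) + 1) * (1 + C₃)) with hK₃
  set K₄ : ℝ := 2 * (D + 1) * (1 + C₄) with hK₄
  have hD0 : (0 : ℝ) ≤ D := Nat.cast_nonneg D
  have hE00 : (0 : ℝ) ≤ (((k₀ + 1) * D : ℕ) : ℝ) := Nat.cast_nonneg _
  have hK₁0 : 0 ≤ K₁ := by positivity
  have hK₂0 : 0 ≤ K₂ := by positivity
  have hK₃0 : 0 ≤ K₃ := by positivity
  have hK₄0 : 0 ≤ K₄ := by positivity
  have hexp1 : 1 ≤ Real.exp c₁ := Real.one_le_exp hc₁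
  set C : ℝ := 2 * C₁ + C₄ + C₅ + C₆ + 2 * Real.exp c₁ ^ 2 + K₁ + 2 * K₂ + K₃ + K₄ with hC
  have hC1 : 1 ≤ C := by
    have : 0 ≤ Real.exp c₁ ^ 2 := by positivity
    rw [hC]
    linarith
  refine ⟨C, hC1, ?_⟩
  intro C₀ κ Ω Λ Ξ Z V Lw _ _ p lam x T z A B zx zl Yb Ng G w F M W N μ e₁ h E r X₁ X₂ lw A' B'
    T₁ T₂ Q H KK L Λ' ρ hC₀ hκ hM hW hE hL hΛ hTri hEN hcl hmx hμ he₁ he₁0 hr hX₁ hX₂ hT₁ hT₂ hn₁
    hn₂ hB' hQD hρ hQj hh hhM hhH hKK hKL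
  have hr0 := hr.nonneg
  have hM0 : (0 : ℝ) < M := by exact_mod_cast hM
  have hW0 : (0 : ℝ) < W := by exact_mod_cast hW
  have hW1 : (1 : ℝ) ≤ W := by exact_mod_cast hW
  have hWM : (0 : ℝ) < ((W * M : ℕ) : ℝ) := by
    push_cast
    positivity
  have hWMM : (M : ℝ) ≤ ((W * M : ℕ) : ℝ) := by
    push_cast
    nlinarith
  have heh := Real.exp_pos h
  have heh1 : 1 ≤ Real.exp h := Real.one_le_exp hh.le
  have hκ2 : 1 ≤ 2 * κ := by linarith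
  have hκM : κ / M ≤ 2 * κ / M := div_le_div_of_nonneg_right (by linarith) hM0.le
  set Φ : Z → Option (Fin d) → MvPolynomial (Fin d) ℝ := fun ζ => triC (G ζ) (w ζ) (F ζ) with hΦ
  set I : ℝ := CH r (fun v => zx (X₁ v)) (fun v => zx (X₂ v)) - CH r (fun v => zx (X₁ v)) X₂
    with hI
  set δ₁ : ℝ := Real.log ((W * M : ℕ) : ℝ) - CH r T₁ (fun v => (lw v, zx (X₁ v))) with hδ₁
  set δ₂ : ℝ := Real.log ((W * M : ℕ) : ℝ) - CH r T₂ (fun v => (lw v, zx (X₁ v))) with hδ₂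
  have hI0 : 0 ≤ I := by
    have : CH r (fun v => zx (X₁ v)) X₂ ≤ CH r (fun v => zx (X₁ v)) (fun v => zx (X₂ v)) := by
      refine CH_mono_cond hr0 ?_
      intro v v' _ _ hv
      exact congrArg zx hv
    linarith
  have hδ₁0 : 0 ≤ δ₁ := tdef_nonneg hr _ _ _ hT₁
  have hδ₂0 : 0 ≤ δ₂ := tdef_nonneg hr _ _ _ hT₂
  have hN0 : (0 : ℝ) ≤ N := Nat.cast_nonneg N
  have hNe : 1 ≤ ((N : ℝ) + 1) * (e₁ + 1) := by nlinarith
  set X : ℝ := I + (N + 1) * (e₁ + 1) + μ + δ₁ + δ₂ with hXdef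
  have hX1 : 1 ≤ X := by
    rw [hXdef]
    linarith
  -- the support
  have hs₁ : ∀ v, 0 < r v → ∃ ω, 0 < p ω ∧ x ω = X₁ v := fun v hv => supp_of_law hX₁ hr0 hv
  have hs₂ : ∀ v, 0 < r v → ∃ ω, 0 < p ω ∧ x ω = X₂ v := fun v hv => supp_of_law hX₂ hr0 hv
  have hQ₁ : ∀ v, 0 < r v → (Q (zx (X₁ v))).totalDegree ≤ D := by
    intro v hv
    obtain ⟨ω, hω, e⟩ := hs₁ v hv
    rw [← e]
    exact hQD ω hω
  have hcl2 := cleaf_mono (C₀' := 2 * κ) hcl (by linarith)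
  have hYlt : ∀ v, 0 < r v → ∀ i, Yb (X₁ v) i < Ng (zx (X₁ v)) i := by
    intro v hv
    obtain ⟨ω, hω, e⟩ := hs₁ v hv
    rw [← e]
    exact hcl.lt ω hω
  have hYlt₂ : ∀ v, 0 < r v → ∀ i, Yb (X₂ v) i < Ng (zx (X₂ v)) i := by
    intro v hv
    obtain ⟨ω, hω, e⟩ := hs₂ v hv
    rw [← e]
    exact hcl.lt ω hω
  have hch : ∀ v, 0 < r v → ChartOK (k₀ + 1) κ M (Ng (zx (X₁ v))) (Φ (zx (X₁ v))) := by
    intro v hv
    obtain ⟨ω, hω, e⟩ := hs₁ v hv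
    rw [← e]
    exact hcl.chart ω hω
  have hch₂ : ∀ v, 0 < r v → ChartOK (k₀ + 1) κ M (Ng (zx (X₂ v))) (Φ (zx (X₂ v))) := by
    intro v hv
    obtain ⟨ω, hω, e⟩ := hs₂ v hv
    rw [← e]
    exact hcl.chart ω hω
  have hdegb : ∀ (Φ' : Option (Fin d) → MvPolynomial (Fin d) ℝ),
      (∀ o, (Φ' o).totalDegree ≤ k₀ + 1) → ∀ R : MvPolynomial (Option (Fin d)) ℝ,
      R.totalDegree ≤ D → (MvPolynomial.bind₁ Φ' R).totalDegree ≤ (k₀ + 1) * D := fun Φ' h1 R hR =>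
    (SML.totalDegree_bind_le Φ' (k₀ + 1) h1 R).trans (Nat.mul_le_mul_left _ hR)
  -- the jet size along the line
  have hg : ∀ (i : Fin (D + 1)) (γ : Lw × Z), ∃ g : Polynomial ℝ,
      (∀ o, |B' γ.1 o| ≤ 2 * κ) → (Q γ.2).totalDegree ≤ D → g.natDegree ≤ D ∧
      ∀ t ∈ Set.Icc (0 : ℝ) 1, ∀ y : Option (Fin d) → ℝ,
        (∀ o, |y o - (A' γ.1 o + t * (W * B' γ.1 o))| ≤ 2 * κ / M) →
        |g.eval t| ≤ Real.exp c₁ * Psi (pN i (Q γ.2)) (2 * κ / M) y ∧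
        Psi (pN i (Q γ.2)) (2 * κ / M) y ≤ Real.exp c₁ * sp g := by
    intro i γ
    by_cases hb : (∀ o, |B' γ.1 o| ≤ 2 * κ) ∧ (Q γ.2).totalDegree ≤ D
    · obtain ⟨g, hg1, hg2⟩ := hlin (2 * κ) M W (pN i (Q γ.2)) (A' γ.1) (B' γ.1) hκ2 hM hW
        (pN_deg i D hb.2) hb.1
      exact ⟨g, fun _ _ => ⟨hg1, hg2⟩⟩
    · exact ⟨0, fun h1 h2 => absurd ⟨h1, h2⟩ hb⟩
  choose g hg' using hg
  set c : V → Lw × Z := fun v => (lw v, zx (X₁ v)) with hc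
  have hB2' : ∀ v, 0 < r v → ∀ o, |B' (lw v) o| ≤ 2 * κ := fun v hv o =>
    (hB' v hv o).trans (by linarith)
  have hCM : C₄ * Real.exp h ≤ ((W * M : ℕ) : ℝ) := by
    have h1 : C₄ ≤ C := by
      have : 0 ≤ Real.exp c₁ ^ 2 := by positivity
      rw [hC]
      linarith
    exact (mul_le_mul_of_nonneg_right h1 heh.le).trans (hhM.trans hWMM)
  -- the exceptional sets
  set P1 : V → Prop := fun v => ∃ i : Fin (D + 1), ∃ u ∈ ucube d,
    Real.exp h * Psi (pN i (Q (zx (X₁ v)))) (2 * κ / M) (z (X₂ v)) <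
      Psi (pN i (Q (zx (X₁ v)))) (2 * κ / M) (cpt (Φ (zx (X₂ v))) u) with hP1
  set P2 : V → Prop := fun v => ∃ i : Fin (D + 1), 0 < sp (g i (c v)) ∧
    |(g i (c v)).eval ((T₁ v : ℝ) / ((W * M : ℕ) : ℝ))| ≤
      1 / 2 * (Real.exp (-h) * sp (g i (c v))) with hP2
  set P3 : V → Prop := fun v => ∃ i : Fin (D + 1),
    0 < cs (fun _ => 0) 1 (MvPolynomial.bind₁ (Φ (zx (X₁ v))) (pN i (Q (zx (X₁ v))))) ∧
    ∀ u ∈ gcell (Ng (zx (X₁ v))) (Yb (X₁ v)),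
      |MvPolynomial.eval u (MvPolynomial.bind₁ (Φ (zx (X₁ v))) (pN i (Q (zx (X₁ v)))))| ≤
      Real.exp (-h) * cs (fun _ => 0) 1
        (MvPolynomial.bind₁ (Φ (zx (X₁ v))) (pN i (Q (zx (X₁ v))))) with hP3
  set P4 : V → Prop := fun v =>
    0 < sp (lq (A' (c v).1) (fun o => W * B' (c v).1 o) (Q (c v).2)) ∧
    |(lq (A' (c v).1) (fun o => W * B' (c v).1 o) (Q (c v).2)).eval
      ((T₁ v : ℝ) / ((W * M : ℕ) : ℝ))| ≤ 1 / 2 * (Real.exp (-h) *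
        sp (lq (A' (c v).1) (fun o => W * B' (c v).1 o) (Q (c v).2))) with hP4
  set P5 : V → Prop := fun v => ∃ i : Fin (D + 1),
    0 < sp (lq (A' (c v).1) (fun o => W * B' (c v).1 o) (pN i (Q (c v).2))) ∧
    |(lq (A' (c v).1) (fun o => W * B' (c v).1 o) (pN i (Q (c v).2))).eval
      ((T₂ v : ℝ) / ((W * M : ℕ) : ℝ))| ≤ 1 / 2 * (Real.exp (-h) *
        sp (lq (A' (c v).1) (fun o => W * B' (c v).1 o) (pN i (Q (c v).2)))) with hP5
  have hcard : (Fintype.card (Fin (D + 1)) : ℝ) = D + 1 := by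
    rw [Fintype.card_fin]
    push_cast
    ring
  have b1 : ms r P1 ≤ K₁ * X / h := by
    have h1 := hlrc (2 * κ) Ω Λ Ξ Z V Z (Fin (D + 1)) p lam x T z A B zx zl Yb Ng Φ M N μ e₁ h r
      X₂ (fun v => zx (X₁ v)) (fun i ζ => pN i (Q ζ)) hκ2 hM hcl2 hmx hμ he₁ he₁0 hr hX₂ hh
      (fun i v hv => pN_deg i D (hQ₁ v hv))
    rw [hcard] at h1
    refine le_trans ((ms_eq r P1 _).le.trans h1) ?_
    rw [← mul_div_assoc]
    refine div_le_div_of_nonneg_right ?_ hh.le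
    rw [show K₁ * X = ((D : ℝ) + 1) * ((2 * D + C₂) * X) by rw [hK₁]; ring]
    refine mul_le_mul_of_nonneg_left ?_ (by positivity)
    have h2 : 2 * D * I ≤ 2 * D * X := mul_le_mul_of_nonneg_left (by
      rw [hXdef]
      linarith) (by positivity)
    have h3 : C₂ * ((N + 1) * (e₁ + 1) + μ) ≤ C₂ * X := mul_le_mul_of_nonneg_left (by
      rw [hXdef]
      linarith) (by linarith)
    linarith
  have htimb : ∀ (TT : V → ℕ) (δ : ℝ) (gg : Lw × Z → Polynomial ℝ),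
      (∀ v, 0 < r v → TT v < W * M) → (∀ v, 0 < r v → (gg (c v)).natDegree ≤ D) →
      Real.log ((W * M : ℕ) : ℝ) - CH r TT c ≤ X →
      ms r (fun v => 0 < sp (gg (c v)) ∧ |(gg (c v)).eval ((TT v : ℝ) / ((W * M : ℕ) : ℝ))| ≤
        1 / 2 * (Real.exp (-h) * sp (gg (c v)))) ≤ K₄ * X / h := by
    intro TT δ gg hTT hgg hδ
    have h1 := htim V (Lw × Z) r c TT (W * M) gg h hr hTT hgg hh hCM
    refine le_trans ((ms_eq r _ _).le.trans h1) ?_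
    refine div_le_div_of_nonneg_right ?_ hh.le
    rw [show K₄ * X = 2 * ((D : ℝ) + 1) * ((1 + C₄) * X) by rw [hK₄]; ring]
    refine mul_le_mul_of_nonneg_left ?_ (by positivity)
    nlinarith
  have b2 : ms r P2 ≤ K₂ * X / h := by
    have h1 := ms_ex hr0 (fun (i : Fin (D + 1)) v => 0 < sp (g i (c v)) ∧
      |(g i (c v)).eval ((T₁ v : ℝ) / ((W * M : ℕ) : ℝ))| ≤
        1 / 2 * (Real.exp (-h) * sp (g i (c v)))) (fun i => htimb T₁ δ₁ (g i) hT₁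
        (fun v hv => (hg' i (c v) (hB2' v hv) (hQ₁ v hv)).1) (by
          rw [hXdef]
          linarith))
    refine h1.trans (le_of_eq ?_)
    rw [hcard, hK₂, hK₄]
    ring
  have b4 : ms r P4 ≤ K₄ * X / h :=
    htimb T₁ δ₁ (fun γ => lq (A' γ.1) (fun o => W * B' γ.1 o) (Q γ.2)) hT₁
      (fun v hv => deg_lq _ _ (hQ₁ v hv)) (by
        rw [hXdef]
        linarith)
  have b5 : ms r P5 ≤ K₂ * X / h := by
    have h1 := ms_ex hr0 (fun (i : Fin (D + 1)) v =>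
      0 < sp (lq (A' (c v).1) (fun o => W * B' (c v).1 o) (pN i (Q (c v).2))) ∧
      |(lq (A' (c v).1) (fun o => W * B' (c v).1 o) (pN i (Q (c v).2))).eval
        ((T₂ v : ℝ) / ((W * M : ℕ) : ℝ))| ≤ 1 / 2 * (Real.exp (-h) *
          sp (lq (A' (c v).1) (fun o => W * B' (c v).1 o) (pN i (Q (c v).2)))))
      (fun i => htimb T₂ δ₂ (fun γ => lq (A' γ.1) (fun o => W * B' γ.1 o) (pN i (Q γ.2))) hT₂
        (fun v hv => deg_lq _ _ (pN_deg i D (hQ₁ v hv))) (by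
          rw [hXdef]
          linarith))
    refine h1.trans (le_of_eq ?_)
    rw [hcard, hK₂, hK₄]
    ring
  have b3 : ms r P3 ≤ K₃ * X / h := by
    have hmu : Ex r (fun v => ∑ i, Real.log (Ng (zx (X₁ v)) i)) -
        CH r (fun v => Yb (X₁ v)) (fun v => zx (X₁ v)) ≤ μ := by
      have h1 := MxC.ful hmx hcl.lab
      have h2 : Ex r (fun v => ∑ i, Real.log (Ng (zx (X₁ v)) i)) =
          Ex p (fun ω => ∑ i, Real.log (Ng (zx (x ω)) i)) :=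
        ex_of_law hX₁ (fun ξ => ∑ i, Real.log (Ng (zx ξ) i))
      have h3 : CH r (fun v => Yb (X₁ v)) (fun v => zx (X₁ v)) =
          CH p (fun ω => Yb (x ω)) (fun ω => zx (x ω)) := by
        unfold CH
        rw [H_eq_of_lawS3 (fun s => law_comp_eq hX₁ (fun ξ => (Yb ξ, zx ξ)) s),
          H_eq_of_lawS3 (fun s => law_comp_eq hX₁ (fun ξ => zx ξ) s)]
      rw [h2, h3]
      exact h1
    have h1 := ms_ex hr0 (fun (i : Fin (D + 1)) v =>
      0 < cs (fun _ => 0) 1 (MvPolynomial.bind₁ (Φ (zx (X₁ v))) (pN i (Q (zx (X₁ v))))) ∧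
      ∀ u ∈ gcell (Ng (zx (X₁ v))) (Yb (X₁ v)),
        |MvPolynomial.eval u (MvPolynomial.bind₁ (Φ (zx (X₁ v))) (pN i (Q (zx (X₁ v)))))| ≤
        Real.exp (-h) * cs (fun _ => 0) 1
          (MvPolynomial.bind₁ (Φ (zx (X₁ v))) (pN i (Q (zx (X₁ v))))))
      (b := 2 * (((k₀ + 1) * D : ℕ) + 1) * (1 + C₃) * X / h) (fun i => by
        have h2 := hrev V Z r (fun v => zx (X₁ v)) (fun v => Yb (X₁ v)) Ng
          (fun ζ => MvPolynomial.bind₁ (Φ ζ) (pN i (Q ζ))) h hr hYlt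
          (fun v hv => hdegb _ (hch v hv).deg _ (pN_deg i D (hQ₁ v hv))) hh
        refine le_trans ((ms_eq r _ _).le.trans h2) ?_
        refine div_le_div_of_nonneg_right ?_ hh.le
        rw [mul_assoc (2 * ((((k₀ + 1) * D : ℕ) : ℝ) + 1))]
        refine mul_le_mul_of_nonneg_left ?_ (by positivity)
        have h3 : μ ≤ X := by
          rw [hXdef]
          linarith
        nlinarith)
    refine h1.trans (le_of_eq ?_)
    rw [hcard, hK₃]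
    ring
  have hsub : ∀ v, 0 < r v → ¬ ((∃ k, Gap D (aL W (A' (lw v)) (B' (lw v)) (Q (zx (X₁ v))))
          (bth D KK H L Λ' (ρ (zx (X₁ v)))) k) ∧
        ∀ k, Gap D (aL W (A' (lw v)) (B' (lw v)) (Q (zx (X₁ v))))
          (bth D KK H L Λ' (ρ (zx (X₁ v)))) k →
          BrC D C KK H L Λ' E (ρ (zx (X₁ v))) (Q (zx (X₁ v)))
            (triC (G (zx (X₂ v))) (w (zx (X₂ v))) (F (zx (X₂ v))))
            (gpos (Ng (zx (X₂ v))) (Yb (X₂ v))) (ltW W (A' (lw v)) (B' (lw v)))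
            ((T₂ v : ℝ) / ((W * M : ℕ) : ℝ)) k) →
      P1 v ∨ P2 v ∨ P3 v ∨ P4 v ∨ P5 v := by
    intro v hv hbad
    by_contra hcon
    push Not at hcon
    obtain ⟨g1, g2, g3, g4, g5⟩ := hcon
    refine hbad ?_
    obtain ⟨ω₁, hω₁, ez₁⟩ := hs₁ v hv
    obtain ⟨ω₂, hω₂, ez₂⟩ := hs₂ v hv
    have hC₀0 : (0 : ℝ) < C₀ := by linarith
    have hexp0 : 0 ≤ Real.exp c₁ ^ 2 := by positivity
    have hC₀d : (1 : ℝ) ≤ C₀ ^ (2 * d) := one_le_pow₀ hC₀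
    have hkk : (C₁ * (2 * κ) * C₀ ^ (2 * d)) ^ (D + 1) ≤ KK := by
      refine le_trans (pow_le_pow_left₀ (by positivity) ?_ _) hKK
      refine mul_le_mul_of_nonneg_right ?_ (by positivity)
      have h1 : 2 * C₁ ≤ C := by
        rw [hC]
        linarith
      nlinarith
    have hKK1 : 1 ≤ KK := by
      refine le_trans (one_le_pow₀ ?_) hkk
      have h1 : 1 ≤ C₁ * (2 * κ) := by nlinarith
      nlinarith
    have hH2 : 2 * Real.exp c₁ ^ 2 * Real.exp h ≤ H := by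
      refine le_trans (mul_le_mul_of_nonneg_right ?_ heh.le) hhH
      rw [hC]
      linarith
    have hexp2 : 1 ≤ Real.exp c₁ ^ 2 := one_le_pow₀ hexp1
    have hH3 : 2 * Real.exp h ≤ H := by nlinarith
    have hH1 : 1 ≤ H := by linarith
    have hH0 : 0 < H := by linarith
    -- from `1 / 2 * (exp (-h) * a) < b` to `a ≤ H * b`
    have hconv : ∀ a b : ℝ, 0 ≤ a → 0 ≤ b → (0 < a → 1 / 2 * (Real.exp (-h) * a) < b) →
        a ≤ 2 * Real.exp h * b := by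
      intro a b ha hb hab
      rcases ha.eq_or_lt with h0 | h0
      · rw [← h0]
        positivity
      · have h1 := hab h0
        rw [Real.exp_neg] at h1
        have h2 : a = 2 * Real.exp h * (1 / 2 * ((Real.exp h)⁻¹ * a)) := by
          field_simp
        rw [h2]
        exact mul_le_mul_of_nonneg_left h1.le (by positivity)
    have hT1 : Tri k₀ C₀ M (Ng (zx (X₁ v))) (G (zx (X₁ v))) (w (zx (X₁ v))) (F (zx (X₁ v))) := by
      rw [← ez₁]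
      exact hTri ω₁ hω₁
    have hT2 : Tri k₀ C₀ M (Ng (zx (X₂ v))) (G (zx (X₂ v))) (w (zx (X₂ v))) (F (zx (X₂ v))) := by
      rw [← ez₂]
      exact hTri ω₂ hω₂
    have hEN1 : ∀ i, E ≤ Ng (zx (X₁ v)) i := by
      rw [← ez₁]
      exact hEN ω₁ hω₁
    have hEN2 : ∀ i, E ≤ Ng (zx (X₂ v)) i := by
      rw [← ez₂]
      exact hEN ω₂ hω₂
    have hnear₁ : ∀ o, |z (X₁ v) o - cpt (Φ (zx (X₁ v)))
        (gpos (Ng (zx (X₁ v))) (Yb (X₁ v))) o| ≤ κ / M := by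
      rw [← ez₁]
      exact hcl.near ω₁ hω₁
    have hnear₂ : ∀ o, |z (X₂ v) o - cpt (Φ (zx (X₂ v)))
        (gpos (Ng (zx (X₂ v))) (Yb (X₂ v))) o| ≤ κ / M := by
      rw [← ez₂]
      exact hcl.near ω₂ hω₂
    have hρ₁ : 0 < ρ (zx (X₁ v)) ∧ 1 ≤ M * ρ (zx (X₁ v)) := by
      rw [← ez₁]
      exact hρ ω₁ hω₁
    have hQj₁ : 0 < csC (Φ (zx (X₁ v))) (pN 1 (Q (zx (X₁ v)))) ∧
        csC (Φ (zx (X₁ v))) (Q (zx (X₁ v))) ≤
          ρ (zx (X₁ v)) * csC (Φ (zx (X₁ v))) (pN 1 (Q (zx (X₁ v)))) ∧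
        ∀ j, csC (Φ (zx (X₁ v))) (pN (j + 1) (Q (zx (X₁ v)))) * ρ (zx (X₁ v)) ^ j ≤
          csC (Φ (zx (X₁ v))) (pN 1 (Q (zx (X₁ v)))) := by
      rw [← ez₁]
      exact hQj ω₁ hω₁ _ rfl
    have hgp₁ := gpos_mem (hYlt v hv)
    have hgp₂ := gpos_mem (hYlt₂ v hv)
    have hltW : ∀ (TT : ℕ) (o : Option (Fin d)), ltW W (A' (lw v)) (B' (lw v))
        ((TT : ℝ) / ((W * M : ℕ) : ℝ)) o = A' (lw v) o + (TT : ℝ) / M * B' (lw v) o := by
      intro TT o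
      unfold ltW
      push_cast
      field_simp
    have hsm : ∀ TT : ℕ, TT < W * M → (TT : ℝ) / ((W * M : ℕ) : ℝ) ∈ Set.Icc (0 : ℝ) 1 := by
      intro TT hTT
      refine ⟨by positivity, ?_⟩
      rw [div_le_one hWM]
      exact_mod_cast hTT.le
    have hs₁m := hsm _ (hT₁ v hv)
    have hs₂m := hsm _ (hT₂ v hv)
    have hjt₁ := hjt C₀ (2 * κ) M E (Ng (zx (X₁ v))) (G (zx (X₁ v))) (w (zx (X₁ v)))
      (F (zx (X₁ v))) hC₀ hκ2 hM hE hT1 hEN1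
    have hjt₂ := hjt C₀ (2 * κ) M E (Ng (zx (X₂ v))) (G (zx (X₂ v))) (w (zx (X₂ v)))
      (F (zx (X₂ v))) hC₀ hκ2 hM hE hT2 hEN2
    have hsum : ∀ a b e : ℝ, |a - b| ≤ κ / M → |a - e| ≤ κ / M → |b - e| ≤ 2 * κ / M := by
      intro a b e h1 h2
      have h3 := abs_sub_le b a e
      rw [abs_sub_comm b a] at h3
      have h4 : 2 * κ / M = κ / M + κ / M := by ring
      linarith
    refine brc_of (E₀ := (k₀ + 1) * D) (κ := 2 * κ) (Φ₁ := Φ (zx (X₁ v)))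
      (s₁ := (T₁ v : ℝ) / ((W * M : ℕ) : ℝ)) (u₁ := gpos (Ng (zx (X₁ v))) (Yb (X₁ v)))
      (y₁ := z (X₁ v)) (y₂ := z (X₂ v)) hM hE hH1 hL hΛ hKK1 hκ2 hρ₁.1 hρ₁.2 (hQ₁ v hv) hs₁m hs₂m
      hgp₁ hgp₂ ?_ ?_ ?_ (by linarith) ?_ ?_ ?_ ?_ ?_ ?_ ?_ ?_ ?_ ?_ ?_ hQj₁.1 hQj₁.2.1 hQj₁.2.2 hKL
    · -- constants of the cube
      intro R hR δ hδ u hu u' hu' huu
      refine ((hvc R hR).2 δ hδ u hu u' hu' huu).trans ?_
      refine mul_le_mul_of_nonneg_right (mul_le_mul_of_nonneg_right ?_ hδ) (SML.cs_nonneg _ _ _)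
      rw [hC]
      linarith
    · intro R hR u hu
      refine ((hvc R hR).1 u hu).trans ?_
      refine mul_le_mul_of_nonneg_right ?_ (SML.cs_nonneg _ _ _)
      rw [hC]
      linarith
    · intro gg hgg t ht t' ht'
      refine (hsv gg hgg t ht t' ht').trans ?_
      refine mul_le_mul_of_nonneg_right (mul_le_mul_of_nonneg_right ?_ (abs_nonneg _))
        (sp_nonneg _)
      rw [hC]
      linarith
    · intro R hR
      exact ((hjt₁ R hR _ hgp₁).1).trans (mul_le_mul_of_nonneg_right hkk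
        (nj_nonneg D M _ zero_le_one R))
    · intro R hR y hy
      exact ((hjt₁ R hR _ hgp₁).2 y hy).trans (mul_le_mul_of_nonneg_right hkk
        (nj_nonneg D M _ (by positivity) R))
    · intro o
      exact (hnear₁ o).trans hκM
    · intro o
      rw [hltW]
      exact hsum (z (X₁ v) o) _ _ (hn₁ v hv o) (hnear₁ o)
    · -- the values along the line
      have h1 := hconv (aL W (A' (lw v)) (B' (lw v)) (Q (zx (X₁ v))) 0)
        |MvPolynomial.eval (ltW W (A' (lw v)) (B' (lw v)) ((T₁ v : ℝ) / ((W * M : ℕ) : ℝ)))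
          (Q (zx (X₁ v)))| (sp_nonneg _) (abs_nonneg _) (by
          intro h0
          by_contra hcon
          refine g4 ⟨h0, ?_⟩
          rw [eval_lq]
          exact not_lt.mp hcon)
      refine h1.trans (mul_le_mul_of_nonneg_right hH3 (abs_nonneg _))
    · intro k hk
      have h1 := hconv (aL W (A' (lw v)) (B' (lw v)) (Q (zx (X₁ v))) k)
        |MvPolynomial.eval (ltW W (A' (lw v)) (B' (lw v)) ((T₂ v : ℝ) / ((W * M : ℕ) : ℝ)))
          (pN k (Q (zx (X₁ v))))| (sp_nonneg _) (abs_nonneg _) (by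
          intro h0
          by_contra hcon
          refine g5 ⟨⟨k, by omega⟩, h0, ?_⟩
          rw [eval_lq]
          exact not_lt.mp hcon)
      refine h1.trans (mul_le_mul_of_nonneg_right hH3 (abs_nonneg _))
    · -- the first point is typical
      intro k hk hpos
      have h1 : ¬ ∀ u ∈ gcell (Ng (zx (X₁ v))) (Yb (X₁ v)),
          |MvPolynomial.eval u (MvPolynomial.bind₁ (Φ (zx (X₁ v))) (pN k (Q (zx (X₁ v)))))| ≤
          Real.exp (-h) * cs (fun _ => 0) 1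
            (MvPolynomial.bind₁ (Φ (zx (X₁ v))) (pN k (Q (zx (X₁ v))))) := fun h2 =>
        g3 ⟨⟨k, by omega⟩, hpos, h2⟩
      push Not at h1
      obtain ⟨u, hu, hu2⟩ := h1
      have hu' := gcell_sub (hYlt v hv) hu
      refine ⟨cpt (Φ (zx (X₁ v))) u, ?_, ?_⟩
      · intro o
        refine ((hch v hv).step u hu' _ hgp₁ ?_ o).trans hκM
        intro i
        obtain ⟨h3, h4⟩ := hu i
        have h5 : ((Yb (X₁ v) i : ℝ) + 1) / Ng (zx (X₁ v)) i =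
            (Yb (X₁ v) i : ℝ) / Ng (zx (X₁ v)) i + 1 / Ng (zx (X₁ v)) i := by ring
        have h6 : gpos (Ng (zx (X₁ v))) (Yb (X₁ v)) i =
            (Yb (X₁ v) i : ℝ) / Ng (zx (X₁ v)) i := rfl
        rw [h6, abs_of_nonneg (by linarith)]
        linarith
      · rw [eval_bind] at hu2
        have h3 : csC (Φ (zx (X₁ v))) (pN k (Q (zx (X₁ v)))) ≤
            Real.exp h * |MvPolynomial.eval (cpt (Φ (zx (X₁ v))) u) (pN k (Q (zx (X₁ v))))| := by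
          have h4 : csC (Φ (zx (X₁ v))) (pN k (Q (zx (X₁ v)))) = Real.exp h *
              (Real.exp (-h) * csC (Φ (zx (X₁ v))) (pN k (Q (zx (X₁ v))))) := by
            rw [← mul_assoc, ← Real.exp_add, add_neg_cancel, Real.exp_zero, one_mul]
          rw [h4]
          exact mul_le_mul_of_nonneg_left hu2.le heh.le
        refine h3.trans (mul_le_mul_of_nonneg_right ?_ (abs_nonneg _))
        linarith
    · -- the second leaf
      intro m hm u hu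
      have h1 : Psi (pN m (Q (zx (X₁ v)))) (2 * κ / M) (cpt (Φ (zx (X₂ v))) u) ≤
          Real.exp h * Psi (pN m (Q (zx (X₁ v)))) (2 * κ / M) (z (X₂ v)) :=
        not_lt.mp (fun hlt => g1 (Exists.intro (⟨m, by omega⟩ : Fin (D + 1)) ⟨u, hu, hlt⟩))
      have h2 : Real.exp h ≤ H := by linarith
      exact h1.trans (mul_le_mul_of_nonneg_right h2 (Psi_nonneg _ _ _))
    · intro m hm
      obtain ⟨hgd, hgv⟩ := hg' ⟨m, by omega⟩ (c v) (hB2' v hv) (hQ₁ v hv)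
      have h1 := (hgv _ hs₁m (z (X₁ v)) (fun o => by
        have := hltW (T₁ v) o
        unfold ltW at this
        change |z (X₁ v) o - (A' (lw v) o + (T₁ v : ℝ) / ((W * M : ℕ) : ℝ) *
          (W * B' (lw v) o))| ≤ _
        rw [this]
        exact (hn₁ v hv o).trans hκM)).1
      have h2 := (hgv _ hs₂m (z (X₂ v)) (fun o => by
        have := hltW (T₂ v) o
        unfold ltW at this
        change |z (X₂ v) o - (A' (lw v) o + (T₂ v : ℝ) / ((W * M : ℕ) : ℝ) *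
          (W * B' (lw v) o))| ≤ _
        rw [this]
        exact (hn₂ v hv o).trans hκM)).2
      have h3 := hconv (sp (g ⟨m, by omega⟩ (c v)))
        |(g ⟨m, by omega⟩ (c v)).eval ((T₁ v : ℝ) / ((W * M : ℕ) : ℝ))|
        (sp_nonneg _) (abs_nonneg _) (by
          intro h0
          by_contra hcon
          exact g2 ⟨⟨m, by omega⟩, h0, not_lt.mp hcon⟩)
      have hec := Real.exp_pos c₁
      have hΨ := Psi_nonneg (pN m (Q (zx (X₁ v)))) (2 * κ / M) (z (X₁ v))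
      calc Psi (pN m (Q (zx (X₁ v)))) (2 * κ / M) (z (X₂ v)) ≤
            Real.exp c₁ * sp (g ⟨m, by omega⟩ (c v)) := h2
        _ ≤ Real.exp c₁ * (2 * Real.exp h *
            |(g ⟨m, by omega⟩ (c v)).eval ((T₁ v : ℝ) / ((W * M : ℕ) : ℝ))|) :=
            mul_le_mul_of_nonneg_left h3 hec.le
        _ ≤ Real.exp c₁ * (2 * Real.exp h * (Real.exp c₁ *
            Psi (pN m (Q (zx (X₁ v)))) (2 * κ / M) (z (X₁ v)))) :=
            mul_le_mul_of_nonneg_left (mul_le_mul_of_nonneg_left h1 (by positivity)) hec.le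
        _ = 2 * Real.exp c₁ ^ 2 * Real.exp h *
            Psi (pN m (Q (zx (X₁ v)))) (2 * κ / M) (z (X₁ v)) := by ring
        _ ≤ _ := mul_le_mul_of_nonneg_right hH2 hΨ
    · intro R hR
      exact hdegb _ (hch₂ v hv).deg R hR
    · intro R hR
      refine ((hjt₂ R hR _ hgp₂).2 _ ?_).trans (mul_le_mul_of_nonneg_right hkk
        (nj_nonneg D M _ (by positivity) R))
      intro o
      rw [hltW]
      exact hsum (z (X₂ v) o) _ _ (hn₂ v hv o) (hnear₂ o)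
  have hfin : ms r (fun v => P1 v ∨ P2 v ∨ P3 v ∨ P4 v ∨ P5 v) ≤
      K₁ * X / h + (K₂ * X / h + (K₃ * X / h + (K₄ * X / h + K₂ * X / h))) := by
    refine (ms_or hr0 _ _).trans (add_le_add b1 ?_)
    refine (ms_or hr0 _ _).trans (add_le_add b2 ?_)
    refine (ms_or hr0 _ _).trans (add_le_add b3 ?_)
    exact (ms_or hr0 _ _).trans (add_le_add b4 b5)
  refine (ms_le hr0 hsub).trans (hfin.trans ?_)
  have e1 : K₁ * X / h + (K₂ * X / h + (K₃ * X / h + (K₄ * X / h + K₂ * X / h))) =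
      (K₁ + 2 * K₂ + K₃ + K₄) * X / h := by ring
  rw [e1]
  refine div_le_div_of_nonneg_right ?_ hh.le
  refine mul_le_mul_of_nonneg_right ?_ (by linarith)
  have : 0 ≤ Real.exp c₁ ^ 2 := by positivity
  rw [hC]
  linarith

end Pool.IEN
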