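import Pool.Agent.H86.IE.Bri

/-!
# Variation on the second leaf

`var_cube`: a polynomial of bounded degree on the unit cube is Lipschitz. `var_leaf`: under the
conclusion of `bridge`, the derivative is almost constant on a small box of the second leaf.
-/

set_option autoImplicit false

namespace Pool.IEN

open Finset Real
open Pool.Agent.H49.Ent Pool.Agent.H32.Dense Pool.STK Pool.KAF Pool.KAL Pool.KS3 Pool.M3F

/-- A polynomial of bounded degree on the unit cube is Lipschitz. -/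
theorem var_cube (d E₀ : ℕ) : ∃ C : ℝ, 1 ≤ C ∧ ∀ (R : MvPolynomial (Fin d) ℝ),
    R.totalDegree ≤ E₀ → ∀ δ : ℝ, 0 ≤ δ → ∀ u ∈ ucube d, ∀ u' ∈ ucube d,
      (∀ i, |u' i - u i| ≤ δ) →
      |MvPolynomial.eval u' R - MvPolynomial.eval u R| ≤ C * δ * cs (fun _ => 0) 1 R := by
  classical
  obtain ⟨K₁, hK₁, hcen⟩ := SML.psi_center_le d E₀
  have hK0 : 0 ≤ K₁ := by linarith
  refine ⟨1 + d * (2 * E₀ * K₁), ?_, ?_⟩
  · have : 0 ≤ (d : ℝ) * (2 * E₀ * K₁) := by positivity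
    linarith
  intro R hR δ hδ0 u hu u' hu' hδ
  have hcs := SML.cs_nonneg (fun _ : Fin d => (0 : ℝ)) 1 R
  have h1 := mean_dir R (fun _ => 2 * E₀ * K₁ * (1 / 1) * cs (fun _ => 0) 1 R) (fun v hv i =>
    SML.markov E₀ K₁ hcen (fun _ => 0) zero_lt_one R hR i (mem_cube01 hv)) hu hu'
  refine h1.trans ?_
  have h2 : ∀ i ∈ (univ : Finset (Fin d)), 2 * E₀ * K₁ * (1 / 1) * cs (fun _ => 0) 1 R *
      |u' i - u i| ≤ 2 * E₀ * K₁ * cs (fun _ => 0) 1 R * δ := by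
    intro i _
    rw [div_one, mul_one]
    exact mul_le_mul_of_nonneg_left (hδ i) (by positivity)
  refine (Finset.sum_le_sum h2).trans ?_
  rw [Finset.sum_const, Finset.card_univ, Fintype.card_fin, nsmul_eq_mul]
  have h3 : 0 ≤ δ * cs (fun _ => 0) 1 R := by positivity
  nlinarith

/-- The cube of side three. -/
def bcube (d : ℕ) : Set (Fin d → ℝ) := {u | ∀ i, -1 ≤ u i ∧ u i ≤ 2}

lemma ucube_sub (d : ℕ) : ucube d ⊆ bcube d := fun u hu i =>
  ⟨by linarith [(hu i).1], by linarith [(hu i).2]⟩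

/-- A polynomial of bounded degree on the cube of side three. -/
theorem big_cube (d E₀ : ℕ) : ∃ C : ℝ, 1 ≤ C ∧ ∀ (R : MvPolynomial (Fin d) ℝ),
    R.totalDegree ≤ E₀ → (∀ u ∈ bcube d, |MvPolynomial.eval u R| ≤ C * cs (fun _ => 0) 1 R) ∧
      ∀ δ : ℝ, 0 ≤ δ → ∀ u ∈ bcube d, ∀ u' ∈ bcube d, (∀ i, |u' i - u i| ≤ δ) →
        |MvPolynomial.eval u' R - MvPolynomial.eval u R| ≤ C * δ * cs (fun _ => 0) 1 R := by
  classical
  obtain ⟨K₁, hK₁, hcen⟩ := SML.psi_center_le d E₀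
  obtain ⟨C₁, hC₁, hv⟩ := var_cube d E₀
  set B : ℝ := 3 ^ E₀ * K₁ with hB
  have h3E : (1 : ℝ) ≤ 3 ^ E₀ := one_le_pow₀ (by norm_num)
  have hB1 : 1 ≤ B := by
    rw [hB]
    nlinarith
  have hsup : ∀ R : MvPolynomial (Fin d) ℝ, R.totalDegree ≤ E₀ → ∀ u ∈ bcube d,
      |MvPolynomial.eval u R| ≤ B * cs (fun _ => 0) 1 R := by
    intro R hR u hu
    exact SML.enlarge E₀ K₁ hcen (fun _ => 0) zero_lt_one R hR (fun i =>
      ⟨by linarith [(hu i).1], by linarith [(hu i).2]⟩)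
  refine ⟨C₁ * B, by nlinarith, ?_⟩
  intro R hR
  refine ⟨?_, ?_⟩
  · intro u hu
    have h1 := hsup R hR u hu
    refine h1.trans (mul_le_mul_of_nonneg_right ?_ (SML.cs_nonneg _ _ _))
    nlinarith
  · intro δ hδ u hu u' hu' huu
    set ψ : Fin d → MvPolynomial (Fin d) ℝ :=
      fun i => MvPolynomial.C 3 * MvPolynomial.X i - MvPolynomial.C 1 with hψ
    have hψe : ∀ v : Fin d → ℝ, cpt ψ v = fun i => 3 * v i - 1 := by
      intro v
      funext i
      simp only [cpt, hψ, map_sub, map_mul, MvPolynomial.eval_C, MvPolynomial.eval_X]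
    have hψd : ∀ i, (ψ i).totalDegree ≤ 1 := by
      intro i
      refine (MvPolynomial.totalDegree_sub _ _).trans (max_le ?_ ?_)
      · refine (MvPolynomial.totalDegree_mul _ _).trans ?_
        rw [MvPolynomial.totalDegree_C, MvPolynomial.totalDegree_X]
      · rw [MvPolynomial.totalDegree_C]
        exact Nat.zero_le _
    have hd3 : (MvPolynomial.bind₁ ψ R).totalDegree ≤ E₀ :=
      (SML.totalDegree_bind_le ψ 1 hψd R).trans (by rwa [one_mul])
    have hcs3 : cs (fun _ => 0) 1 (MvPolynomial.bind₁ ψ R) ≤ B * cs (fun _ => 0) 1 R := by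
      refine SML.cs_le _ (mul_nonneg (by linarith) (SML.cs_nonneg _ _ _)) fun y hy => ?_
      rw [eval_bind, hψe]
      refine hsup R hR _ fun i => ?_
      have h1 := (hy i).1
      have h2 := (hy i).2
      constructor <;> linarith
    have hmem : ∀ v ∈ bcube d, (fun i => (v i + 1) / 3) ∈ ucube d := by
      intro v hv i
      obtain ⟨h1, h2⟩ := hv i
      constructor
      · simp only
        linarith
      · simp only
        linarith
    have hback : ∀ v : Fin d → ℝ, cpt ψ (fun i => (v i + 1) / 3) = v := by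
      intro v
      rw [hψe]
      funext i
      ring
    have h1 := hv (MvPolynomial.bind₁ ψ R) hd3 δ hδ _ (hmem u hu) _ (hmem u' hu') (fun i => by
      have h2 := huu i
      have h3 : (u' i + 1) / 3 - (u i + 1) / 3 = (u' i - u i) / 3 := by ring
      rw [h3, abs_div, abs_of_pos (by norm_num : (0 : ℝ) < 3)]
      linarith)
    rw [eval_bind, eval_bind, hback, hback] at h1
    calc |MvPolynomial.eval u' R - MvPolynomial.eval u R| ≤
          C₁ * δ * cs (fun _ => 0) 1 (MvPolynomial.bind₁ ψ R) := h1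
      _ ≤ C₁ * δ * (B * cs (fun _ => 0) 1 R) := mul_le_mul_of_nonneg_left hcs3 (by positivity)
      _ = _ := by ring

/-- Variation of the derivative on a small box of the second leaf. -/
theorem var_leaf {d D M : ℕ} {Φ₂ : Option (Fin d) → MvPolynomial (Fin d) ℝ}
    {E Λ KK E₂ q θ C δ : ℝ} {E₀ : ℕ} (hM : 1 ≤ M) (hE : 1 ≤ E) (hΛ : 1 ≤ Λ) (hKK : 0 ≤ KK)
    (hq : 0 ≤ E₂ * q)
    (hC : ∀ (R : MvPolynomial (Fin d) ℝ), R.totalDegree ≤ E₀ → ∀ δ : ℝ, 0 ≤ δ → ∀ u ∈ bcube d,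
      ∀ u' ∈ bcube d, (∀ i, |u' i - u i| ≤ δ) →
      |MvPolynomial.eval u' R - MvPolynomial.eval u R| ≤ C * δ * cs (fun _ => 0) 1 R)
    (hC0 : 0 ≤ C) (hδ : 0 ≤ δ) {R : MvPolynomial (Option (Fin d)) ℝ}
    (hdeg : (MvPolynomial.bind₁ Φ₂ R).totalDegree ≤ E₀) {u₂ : Fin d → ℝ} (hu₂ : u₂ ∈ ucube d)
    {y₂ : Option (Fin d) → ℝ}
    (hvar : |MvPolynomial.eval y₂ R - MvPolynomial.eval (cpt Φ₂ u₂) R| ≤
      KK * nj D M Φ₂ (1 / E) R)
    (hθ : Λ / M ≤ θ) (hf : ∀ m, csC Φ₂ (pN m R) * θ ^ m ≤ E₂ * q) :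
    ∀ u ∈ bcube d, (∀ i, |u i - u₂ i| ≤ δ) →
      |MvPolynomial.eval (cpt Φ₂ u) R - MvPolynomial.eval y₂ R| ≤
        (C * δ + KK * (1 / E + D / Λ)) * (E₂ * q) := by
  intro u hu hδu
  have hM0 : (0 : ℝ) < M := by exact_mod_cast hM
  have hΛ0 : 0 < Λ := by linarith
  have hθ0 : 0 < θ := lt_of_lt_of_le (by positivity) hθ
  have h0 := hf 0
  rw [pow_zero, mul_one, pN_zero] at h0
  have h1 := hC _ hdeg δ hδ u₂ (ucube_sub d hu₂) u hu hδu
  rw [eval_bind, eval_bind] at h1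
  have h2 : cs (fun _ => 0) 1 (MvPolynomial.bind₁ Φ₂ R) = csC Φ₂ R := rfl
  rw [h2] at h1
  have h3 : C * δ * csC Φ₂ R ≤ C * δ * (E₂ * q) := mul_le_mul_of_nonneg_left h0 (by positivity)
  have h4 : nj D M Φ₂ (1 / E) R ≤ (1 / E + D / Λ) * (E₂ * q) := by
    unfold nj
    have h5 : ∀ r ∈ range D, (1 / M : ℝ) ^ (r + 1) * csC Φ₂ (pN (r + 1) R) ≤
        1 / Λ * (E₂ * q) := by
      intro r _
      have h6 := hf (r + 1)
      have h7 : (1 / M : ℝ) ≤ θ / Λ := by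
        rw [le_div_iff₀ hΛ0]
        calc 1 / (M : ℝ) * Λ = Λ / M := by ring
          _ ≤ θ := hθ
      have h8 : (1 / M : ℝ) ^ (r + 1) ≤ (θ / Λ) ^ (r + 1) :=
        pow_le_pow_left₀ (by positivity) h7 _
      have h9 : (1 / Λ) ^ (r + 1) ≤ 1 / Λ := by
        have : 1 / Λ ≤ 1 := by
          rw [div_le_one hΛ0]
          exact hΛ
        calc (1 / Λ) ^ (r + 1) = (1 / Λ) ^ r * (1 / Λ) := pow_succ _ _
          _ ≤ 1 * (1 / Λ) := mul_le_mul_of_nonneg_right (pow_le_one₀ (by positivity) this)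
              (by positivity)
          _ = 1 / Λ := one_mul _
      calc (1 / M : ℝ) ^ (r + 1) * csC Φ₂ (pN (r + 1) R) ≤
            (θ / Λ) ^ (r + 1) * csC Φ₂ (pN (r + 1) R) :=
            mul_le_mul_of_nonneg_right h8 (csC_nonneg _ _)
        _ = (1 / Λ) ^ (r + 1) * (csC Φ₂ (pN (r + 1) R) * θ ^ (r + 1)) := by
            rw [show θ / Λ = 1 / Λ * θ by ring, mul_pow]
            ring
        _ ≤ (1 / Λ) ^ (r + 1) * (E₂ * q) := mul_le_mul_of_nonneg_left h6 (by positivity)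
        _ ≤ 1 / Λ * (E₂ * q) := mul_le_mul_of_nonneg_right h9 hq
    have h10 := Finset.sum_le_sum h5
    rw [Finset.sum_const, Finset.card_range, nsmul_eq_mul] at h10
    have h11 : 1 / E * csC Φ₂ R ≤ 1 / E * (E₂ * q) :=
      mul_le_mul_of_nonneg_left h0 (by positivity)
    calc 1 / E * csC Φ₂ R + ∑ r ∈ range D, (1 / M : ℝ) ^ (r + 1) * csC Φ₂ (pN (r + 1) R) ≤
          1 / E * (E₂ * q) + D * (1 / Λ * (E₂ * q)) := add_le_add h11 h10
      _ = _ := by ring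
  have h5 : |MvPolynomial.eval y₂ R - MvPolynomial.eval (cpt Φ₂ u₂) R| ≤
      KK * ((1 / E + D / Λ) * (E₂ * q)) := hvar.trans (mul_le_mul_of_nonneg_left h4 hKK)
  have h6 : |MvPolynomial.eval (cpt Φ₂ u) R - MvPolynomial.eval y₂ R| ≤
      |MvPolynomial.eval (cpt Φ₂ u) R - MvPolynomial.eval (cpt Φ₂ u₂) R| +
        |MvPolynomial.eval y₂ R - MvPolynomial.eval (cpt Φ₂ u₂) R| := by
    have := abs_sub_le (MvPolynomial.eval (cpt Φ₂ u) R) (MvPolynomial.eval (cpt Φ₂ u₂) R)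
      (MvPolynomial.eval y₂ R)
    rwa [abs_sub_comm (MvPolynomial.eval (cpt Φ₂ u₂) R) (MvPolynomial.eval y₂ R)] at this
  calc |MvPolynomial.eval (cpt Φ₂ u) R - MvPolynomial.eval y₂ R| ≤
        C * δ * (E₂ * q) + KK * ((1 / E + D / Λ) * (E₂ * q)) := by linarith [h1.trans h3]
    _ = _ := by ring

end Pool.IEN
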