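import Pool.Agent.H86.IE.Rev
import Pool.Agent.H86.IE.Var

/-!
# Typical times on a line

`sp g`: the supremum of `|g|` on `[0, 1]`. `tim_ev`: a polynomial in the time which is a function of
the label `c`; outside a set of small probability its value at the time is not much smaller than
the supremum. `sp_var`: a polynomial near a typical time.
-/

set_option autoImplicit false

namespace Pool.IEN

open Finset Real
open Pool.Agent.H49.Ent Pool.Agent.H32.Dense Pool.STK Pool.KAF Pool.KAL Pool.KS3 Pool.M3F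

/-- A polynomial in one variable as a polynomial on the cube of dimension one. -/
noncomputable def emb (f : Polynomial ℝ) : MvPolynomial (Fin 1) ℝ :=
  Polynomial.aeval (MvPolynomial.X 0) f

lemma eval_emb (f : Polynomial ℝ) (b : Fin 1 → ℝ) :
    MvPolynomial.eval b (emb f) = f.eval (b 0) := by
  unfold emb
  rw [Polynomial.aeval_eq_sum_range, map_sum, Polynomial.eval_eq_sum_range]
  refine Finset.sum_congr rfl fun k _ => ?_
  rw [MvPolynomial.smul_eval, map_pow, MvPolynomial.eval_X]

lemma deg_emb {f : Polynomial ℝ} {K : ℕ} (h : f.natDegree ≤ K) : (emb f).totalDegree ≤ K := by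
  unfold emb
  rw [Polynomial.aeval_eq_sum_range]
  refine MvPolynomial.totalDegree_finsetSum_le fun k hk => ?_
  refine (MvPolynomial.totalDegree_smul_le _ _).trans ?_
  rw [MvPolynomial.totalDegree_X_pow]
  have := mem_range.1 hk
  omega

/-- The supremum on `[0, 1]`. -/
noncomputable def sp (g : Polynomial ℝ) : ℝ := cs (fun _ => 0) 1 (emb g)

lemma sp_nonneg (g : Polynomial ℝ) : 0 ≤ sp g := SML.cs_nonneg _ _ _

lemma le_sp (g : Polynomial ℝ) {t : ℝ} (ht : t ∈ Set.Icc (0 : ℝ) 1) : |g.eval t| ≤ sp g := by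
  have h1 := SML.le_cs (a := fun _ : Fin 1 => (0 : ℝ)) zero_le_one (emb g) (y := fun _ => t)
    (fun i => by
      rw [zero_add]
      exact ⟨ht.1, ht.2⟩)
  rwa [eval_emb] at h1

lemma sp_le (g : Polynomial ℝ) {B : ℝ} (hB : 0 ≤ B)
    (h : ∀ t ∈ Set.Icc (0 : ℝ) 1, |g.eval t| ≤ B) : sp g ≤ B := by
  refine SML.cs_le _ hB fun y hy => ?_
  rw [eval_emb]
  refine h _ ⟨(hy 0).1, ?_⟩
  have := (hy 0).2
  linarith

lemma sp_zero : sp 0 = 0 := le_antisymm (sp_le 0 le_rfl fun t _ => by simp) (sp_nonneg _)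

/-- A polynomial near a typical time. -/
theorem sp_var (D : ℕ) : ∃ C : ℝ, 1 ≤ C ∧ ∀ g : Polynomial ℝ, g.natDegree ≤ D →
    ∀ t ∈ Set.Icc (0 : ℝ) 1, ∀ t' ∈ Set.Icc (0 : ℝ) 1,
      |g.eval t' - g.eval t| ≤ C * |t' - t| * sp g := by
  obtain ⟨C, hC, H⟩ := var_cube 1 D
  refine ⟨C, hC, ?_⟩
  intro g hg t ht t' ht'
  have h1 := H (emb g) (deg_emb hg) |t' - t| (abs_nonneg _) (fun _ => t) (fun _ => ht)
    (fun _ => t') (fun _ => ht') (fun _ => le_rfl)
  rwa [eval_emb, eval_emb] at h1

/-- **Typical times.** -/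
theorem tim_ev (D : ℕ) : ∃ C : ℝ, 1 ≤ C ∧
    ∀ (V Γ : Type) [Fintype V] (r : V → ℝ) (c : V → Γ) (T : V → ℕ) (M : ℕ)
      (g : Γ → Polynomial ℝ) (h : ℝ),
      IsLaw r → (∀ v, 0 < r v → T v < M) → (∀ v, 0 < r v → (g (c v)).natDegree ≤ D) → 0 < h →
      C * Real.exp h ≤ M →
      (∑ v, (open Classical in
        if 0 < sp (g (c v)) ∧ |(g (c v)).eval ((T v : ℝ) / M)| ≤
          1 / 2 * (Real.exp (-h) * sp (g (c v))) then r v else 0)) ≤
        2 * (D + 1) * ((Real.log M - CH r T c) + C) / h := by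
  classical
  obtain ⟨C₁, hC₁, H⟩ := rev 1 D
  obtain ⟨C₂, hC₂, Hv⟩ := sp_var D
  refine ⟨C₁ + 2 * C₂, by linarith, ?_⟩
  intro V Γ _ r c T M g h hr hT hg hh hM
  have hr0 := hr.nonneg
  have hexp := Real.exp_pos h
  have hM0 : (0 : ℝ) < M := lt_of_lt_of_le (by positivity) hM
  have h1 := H V Γ r c (fun v _ => T v) (fun _ _ => M) (fun γ => emb (g γ)) h hr
    (fun v hv _ => hT v hv) (fun v hv => deg_emb (hg v hv)) hh
  have e1 : CH r (fun v (_ : Fin 1) => T v) c = CH r T c := by
    refine CH_congr hr0 ?_ ?_ (fun _ _ _ _ hh => hh) (fun _ _ _ _ hh => hh)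
    · intro ω ω' _ _ hh
      exact congrFun (Prod.ext_iff.mp hh).1 0
    · intro ω ω' _ _ hh
      exact funext fun _ => (Prod.ext_iff.mp hh).1
  have e2 : Ex r (fun _ => ∑ _i : Fin 1, Real.log (M : ℝ)) = Real.log M := by
    rw [Ex_const hr.sum_one]
    simp
  rw [e1, e2] at h1
  have h2 : (∑ v, (open Classical in
        if 0 < sp (g (c v)) ∧ |(g (c v)).eval ((T v : ℝ) / M)| ≤
          1 / 2 * (Real.exp (-h) * sp (g (c v))) then r v else 0)) ≤
      (∑ v, (open Classical in
        if 0 < cs (fun _ => 0) 1 (emb (g (c v))) ∧ ∀ u ∈ gcell (fun _ : Fin 1 => M) (fun _ => T v),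
          |MvPolynomial.eval u (emb (g (c v)))| ≤
            Real.exp (-h) * cs (fun _ => 0) 1 (emb (g (c v)))
        then r v else 0)) := by
    refine Finset.sum_le_sum fun v _ => ?_
    by_cases hv : 0 < r v
    · split_ifs with ha hb hb
      · exact le_rfl
      · exfalso
        refine hb ⟨ha.1, ?_⟩
        intro u hu
        have hu1 : u 0 ∈ Set.Icc (0 : ℝ) 1 := gcell_sub (fun _ => hT v hv) hu 0
        have ht : (T v : ℝ) / M ∈ Set.Icc (0 : ℝ) 1 := by
          refine ⟨by positivity, ?_⟩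
          rw [div_le_one hM0]
          exact_mod_cast (hT v hv).le
        rw [eval_emb]
        have h3 := Hv (g (c v)) (hg v hv) _ ht _ hu1
        have h4 : |u 0 - (T v : ℝ) / M| ≤ 1 / M := by
          obtain ⟨h5, h6⟩ := hu 0
          rw [abs_of_nonneg (by linarith)]
          have : ((T v : ℝ) + 1) / M = (T v : ℝ) / M + 1 / M := by ring
          linarith
        have h5 : C₂ * |u 0 - (T v : ℝ) / M| * sp (g (c v)) ≤
            1 / 2 * (Real.exp (-h) * sp (g (c v))) := by
          have h6 : C₂ * |u 0 - (T v : ℝ) / M| ≤ 1 / 2 * Real.exp (-h) := by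
            refine (mul_le_mul_of_nonneg_left h4 (by linarith)).trans ?_
            rw [Real.exp_neg, ← one_div, mul_one_div, div_le_iff₀ hM0]
            rw [show 1 / 2 * (1 / Real.exp h) * (M : ℝ) = M / (2 * Real.exp h) by
              field_simp, le_div_iff₀ (by positivity)]
            nlinarith
          calc C₂ * |u 0 - (T v : ℝ) / M| * sp (g (c v)) ≤
                1 / 2 * Real.exp (-h) * sp (g (c v)) :=
                mul_le_mul_of_nonneg_right h6 ha.1.le
            _ = _ := by ring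
        have h6 : |(g (c v)).eval (u 0)| ≤ |(g (c v)).eval ((T v : ℝ) / M)| +
            |(g (c v)).eval (u 0) - (g (c v)).eval ((T v : ℝ) / M)| := by
          have := abs_add_le ((g (c v)).eval ((T v : ℝ) / M))
            ((g (c v)).eval (u 0) - (g (c v)).eval ((T v : ℝ) / M))
          rwa [add_sub_cancel] at this
        have h7 := ha.2
        change _ ≤ Real.exp (-h) * sp (g (c v))
        linarith
      · exact hr0 v
      · exact le_rfl
    · have h0 : r v = 0 := le_antisymm (not_lt.mp hv) (hr0 v)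
      split_ifs <;> simp [h0]
  refine h2.trans (h1.trans ?_)
  refine div_le_div_of_nonneg_right ?_ hh.le
  refine mul_le_mul_of_nonneg_left ?_ (by positivity)
  linarith

end Pool.IEN
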