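import Mathlib

/-!
# Numbers of the bridge

`a k` = size of the `k`-th passive derivative along the line, `θ k` = increasing thresholds.
-/

set_option autoImplicit false

namespace Pool.IEN

open Finset

/-- **Gap**, multiplicative form. -/
theorem gapm {D : ℕ} {a θ : ℕ → ℝ} (ha : ∀ k, 0 ≤ a k) (hD : ∀ k, D < k → a k = 0)
    (hθ0 : ∀ k, 0 < θ k) (hθ : Monotone θ)
    (h0 : ∃ k, 0 < a (k + 1) ∧ a k ≤ θ k * a (k + 1)) :
    ∃ k, k + 1 ≤ D ∧ 0 < a (k + 1) ∧ a k ≤ θ k * a (k + 1) ∧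
      ∀ m, a (k + 1 + m) * θ (k + 1) ^ m ≤ a (k + 1) := by
  classical
  set S : Finset ℕ := (Finset.range (D + 1)).filter
    (fun k => 0 < a (k + 1) ∧ a k ≤ θ k * a (k + 1)) with hS
  have hSn : S.Nonempty := by
    obtain ⟨k, hk⟩ := h0
    refine ⟨k, ?_⟩
    rw [hS, Finset.mem_filter, Finset.mem_range]
    refine ⟨?_, hk⟩
    by_contra hcon
    have := hD (k + 1) (by omega)
    linarith [hk.1]
  set k := S.max' hSn with hk
  have hkS : k ∈ S := Finset.max'_mem _ _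
  have hk1 := (Finset.mem_filter.mp hkS).2
  have hkD : k + 1 ≤ D := by
    by_contra hcon
    have := hD (k + 1) (by omega)
    linarith [hk1.1]
  refine ⟨k, hkD, hk1.1, hk1.2, ?_⟩
  have hr : ∀ j, k < j → a (j + 1) * θ (k + 1) ≤ a j := by
    intro j hj
    have h2 : a (j + 1) * θ j ≤ a j := by
      by_cases hj1 : 0 < a (j + 1)
      · have hjS : j ∉ S := by
          intro hmem
          have := Finset.le_max' S j hmem
          rw [← hk] at this
          omega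
        have h3 : ¬ a j ≤ θ j * a (j + 1) := by
          intro h4
          refine hjS ?_
          rw [hS, Finset.mem_filter, Finset.mem_range]
          refine ⟨?_, hj1, h4⟩
          by_contra hcon
          have := hD (j + 1) (by omega)
          linarith
        push Not at h3
        linarith
      · have h3 : a (j + 1) = 0 := le_antisymm (not_lt.mp hj1) (ha _)
        rw [h3, zero_mul]
        exact ha _
    refine le_trans (mul_le_mul_of_nonneg_left ?_ (ha _)) h2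
    exact hθ (show k + 1 ≤ j by omega)
  intro m
  induction m with
  | zero => simp
  | succ m ih =>
    have h2 := hr (k + 1 + m) (by omega)
    calc a (k + 1 + (m + 1)) * θ (k + 1) ^ (m + 1) =
          a (k + 1 + m + 1) * θ (k + 1) * θ (k + 1) ^ m := by
          rw [pow_succ]
          ring_nf
      _ ≤ a (k + 1 + m) * θ (k + 1) ^ m :=
          mul_le_mul_of_nonneg_right h2 (pow_nonneg (hθ0 _).le _)
      _ ≤ a (k + 1) := ih

/-- **Start.** -/
theorem gap_start {D : ℕ} {a : ℕ → ℝ} {ρ M Ea Eb S : ℝ} (ha : ∀ k, 0 ≤ a k) (hρ : 0 < ρ)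
    (hM : 0 < M) (hMρ : 1 ≤ M * ρ) (hEa : 1 ≤ Ea) (hEb : 1 ≤ Eb) (hS : 0 < S)
    (h0 : a 0 ≤ ρ * Ea * S)
    (h1 : S ≤ Eb * ∑ r ∈ range (D + 1), (1 / M) ^ r * a (1 + r)) :
    ∃ k, 0 < a (k + 1) ∧ a k ≤ ρ * (2 * Ea * Eb * (D + 1)) * a (k + 1) := by
  by_contra hcon
  push Not at hcon
  set E₀ : ℝ := 2 * Ea * Eb * (D + 1) with hE₀
  have hD : (0 : ℝ) ≤ D := Nat.cast_nonneg D
  have hEE : 1 ≤ Ea * Eb := by nlinarith
  have hE₀1 : 1 ≤ E₀ := by
    rw [hE₀]
    nlinarith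
  have hc : 0 < ρ * E₀ := by positivity
  have hr : ∀ k, a (k + 1) * (ρ * E₀) ≤ a k := by
    intro k
    by_cases hk : 0 < a (k + 1)
    · have := hcon k hk
      linarith
    · have h3 : a (k + 1) = 0 := le_antisymm (not_lt.mp hk) (ha _)
      rw [h3, zero_mul]
      exact ha _
  have hr2 : ∀ k, a k * (ρ * E₀) ^ k ≤ a 0 := by
    intro k
    induction k with
    | zero => simp
    | succ k ih =>
      calc a (k + 1) * (ρ * E₀) ^ (k + 1) = a (k + 1) * (ρ * E₀) * (ρ * E₀) ^ k := by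
            rw [pow_succ]
            ring
        _ ≤ a k * (ρ * E₀) ^ k := mul_le_mul_of_nonneg_right (hr k) (by positivity)
        _ ≤ a 0 := ih
  have h2 : ∀ r ∈ range (D + 1), (1 / M) ^ r * a (1 + r) ≤ a 0 / (ρ * E₀) := by
    intro r _
    rw [le_div_iff₀ hc]
    have h3 := hr2 (1 + r)
    have h4 : (1 / M) ^ r ≤ (ρ * E₀) ^ r := by
      refine pow_le_pow_left₀ (by positivity) ?_ r
      rw [div_le_iff₀ hM]
      have : ρ * E₀ * M = M * ρ * E₀ := by ring
      rw [this]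
      nlinarith
    have h5 := ha (1 + r)
    calc (1 / M) ^ r * a (1 + r) * (ρ * E₀) ≤ (ρ * E₀) ^ r * a (1 + r) * (ρ * E₀) :=
          mul_le_mul_of_nonneg_right (mul_le_mul_of_nonneg_right h4 h5) hc.le
      _ = a (1 + r) * (ρ * E₀) ^ (1 + r) := by
          rw [pow_add, pow_one]
          ring
      _ ≤ a 0 := h3
  have h3 := Finset.sum_le_sum h2
  rw [Finset.sum_const, Finset.card_range, nsmul_eq_mul] at h3
  push_cast at h3
  have h4 : S ≤ Eb * ((D + 1) * (a 0 / (ρ * E₀))) :=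
    h1.trans (mul_le_mul_of_nonneg_left h3 (by linarith))
  have h5 : a 0 / (ρ * E₀) ≤ Ea * S / E₀ := by
    rw [div_le_div_iff₀ hc (by linarith)]
    calc a 0 * E₀ ≤ ρ * Ea * S * E₀ := mul_le_mul_of_nonneg_right h0 (by linarith)
      _ = Ea * S * (ρ * E₀) := by ring
  have h6 : Eb * ((D + 1) * (Ea * S / E₀)) = S / 2 := by
    rw [hE₀]
    field_simp
  have h7 : Eb * (((D : ℝ) + 1) * (a 0 / (ρ * E₀))) ≤ Eb * ((D + 1) * (Ea * S / E₀)) :=
    mul_le_mul_of_nonneg_left (mul_le_mul_of_nonneg_left h5 (by linarith)) (by linarith)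
  linarith

/-- **The numbers of the bridge.** `s m` = suprema on the second leaf. -/
theorem bridge_num {D k : ℕ} {a s : ℕ → ℝ} {M E₁ θ₀ θ₁ : ℝ} (hM : 1 ≤ M)
    (ha : ∀ k, 0 ≤ a k) (hE₁ : 1 ≤ E₁) (hθ₀ : 1 / M ≤ θ₀) (hθ₁ : 1 / M ≤ θ₁)
    (hs : ∀ m, s m ≤ E₁ * ∑ r ∈ range (D + 1), (1 / M) ^ r * a (m + r))
    (hk0 : 0 < a (k + 1)) (hk : a k ≤ θ₀ * a (k + 1))
    (hk2 : ∀ m, a (k + 1 + m) * θ₁ ^ m ≤ a (k + 1)) :
    s k ≤ E₁ * (D + 1) * θ₀ * a (k + 1) ∧
      ∀ m, s (k + 1 + m) * θ₁ ^ m ≤ E₁ * (D + 1) * a (k + 1) := by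
  have hM0 : 0 < M := by linarith
  have hθ₀0 : 0 < θ₀ := lt_of_lt_of_le (by positivity) hθ₀
  have hθ₁0 : 0 < θ₁ := lt_of_lt_of_le (by positivity) hθ₁
  refine ⟨?_, ?_⟩
  · refine (hs k).trans ?_
    have h1 : ∀ r ∈ range (D + 1), (1 / M) ^ r * a (k + r) ≤ θ₀ * a (k + 1) := by
      intro r _
      rcases Nat.eq_zero_or_pos r with rfl | hr
      · rw [pow_zero, one_mul, add_zero]
        exact hk
      · obtain ⟨j, rfl⟩ : ∃ j, r = j + 1 := ⟨r - 1, by omega⟩
        have h2 := hk2 j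
        have h3 : (1 / M) ^ j * a (k + 1 + j) ≤ a (k + 1) := by
          refine le_trans ?_ h2
          rw [mul_comm]
          exact mul_le_mul_of_nonneg_left (pow_le_pow_left₀ (by positivity) hθ₁ j) (ha _)
        rw [show k + (j + 1) = k + 1 + j by ring, pow_succ]
        calc (1 / M) ^ j * (1 / M) * a (k + 1 + j) = 1 / M * ((1 / M) ^ j * a (k + 1 + j)) := by
              ring
          _ ≤ 1 / M * a (k + 1) := mul_le_mul_of_nonneg_left h3 (by positivity)
          _ ≤ θ₀ * a (k + 1) := mul_le_mul_of_nonneg_right hθ₀ hk0.le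
    have h2 := Finset.sum_le_sum h1
    rw [Finset.sum_const, Finset.card_range, nsmul_eq_mul] at h2
    push_cast at h2
    calc E₁ * ∑ r ∈ range (D + 1), (1 / M) ^ r * a (k + r) ≤
          E₁ * ((D + 1) * (θ₀ * a (k + 1))) := mul_le_mul_of_nonneg_left h2 (by linarith)
      _ = _ := by ring
  · intro m
    have h1 : ∀ r ∈ range (D + 1), (1 / M) ^ r * a (k + 1 + m + r) * θ₁ ^ m ≤ a (k + 1) := by
      intro r _
      have h2 := hk2 (m + r)
      have h3 : (1 / M) ^ r ≤ θ₁ ^ r := pow_le_pow_left₀ (by positivity) hθ₁ r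
      calc (1 / M) ^ r * a (k + 1 + m + r) * θ₁ ^ m ≤ θ₁ ^ r * a (k + 1 + m + r) * θ₁ ^ m :=
            mul_le_mul_of_nonneg_right (mul_le_mul_of_nonneg_right h3 (ha _)) (by positivity)
        _ = a (k + 1 + (m + r)) * θ₁ ^ (m + r) := by
            rw [pow_add, ← add_assoc]
            ring
        _ ≤ a (k + 1) := h2
    have h2 := Finset.sum_le_sum h1
    rw [Finset.sum_const, Finset.card_range, nsmul_eq_mul, ← Finset.sum_mul] at h2
    push_cast at h2
    calc s (k + 1 + m) * θ₁ ^ m ≤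
          E₁ * (∑ r ∈ range (D + 1), (1 / M) ^ r * a (k + 1 + m + r)) * θ₁ ^ m :=
          mul_le_mul_of_nonneg_right (hs _) (by positivity)
      _ = E₁ * ((∑ r ∈ range (D + 1), (1 / M) ^ r * a (k + 1 + m + r)) * θ₁ ^ m) := by ring
      _ ≤ E₁ * ((D + 1) * a (k + 1)) := mul_le_mul_of_nonneg_left h2 (by linarith)
      _ = _ := by ring

end Pool.IEN
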