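import Pool.Agent.H86.IE.Nval
import Pool.Agent.H86.IE.Num

/-!
# The bridge: from the jets on two leaves of one line to the numbers of `ie`

`bridge`: `Q` is the equation of the leaf `Φ₁` of the first time of a line, `Φ₂` is the leaf of the
second time. If the jets of all the passive derivatives of `Q` on the second leaf are not much
larger than at its point, if the points are typical and the times are typical, then some passive
derivative of `Q` is small on the second leaf, its derivative is about the value at the line, and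
the higher derivatives are controlled with a gap.
-/

set_option autoImplicit false

namespace Pool.IEN

open Finset Real
open Pool.Agent.H49.Ent Pool.Agent.H32.Dense Pool.STK Pool.KAF Pool.KAL Pool.KS3 Pool.M3F

/-- Constants of the bridge. -/
def bEb (D : ℕ) (H L : ℝ) : ℝ := 2 * (D + 1) * L ^ D * H
/-- Constants of the bridge. -/
def bE₀ (D : ℕ) (KK H L : ℝ) : ℝ := 2 * (2 * H * KK * (D + 1)) * bEb D H L * (D + 1)
/-- Constants of the bridge. -/
def bE₂ (D : ℕ) (KK H L : ℝ) : ℝ := H ^ 3 * 2 ^ D * KK * bEb D H L * (D + 1)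
/-- The scales of the bridge. -/
def bth (D : ℕ) (KK H L Λ ρ : ℝ) (k : ℕ) : ℝ := ρ * bE₀ D KK H L * Λ ^ k

/-- The gap: the derivative of order `k` is small compared with the one of order `k + 1`, and the
higher derivatives are controlled with a larger scale. -/
def Gap (D : ℕ) (a θ : ℕ → ℝ) (k : ℕ) : Prop :=
  k + 1 ≤ D ∧ 0 < a (k + 1) ∧ a k ≤ θ k * a (k + 1) ∧ ∀ m, a (k + 1 + m) * θ (k + 1) ^ m ≤ a (k + 1)

/-- **The bridge.** -/
theorem bridge {d D M : ℕ} {Φ₁ Φ₂ : Option (Fin d) → MvPolynomial (Fin d) ℝ}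
    {E H L Λ KK κ ρ S t₁ t₂ : ℝ} (hM : 1 ≤ M) (hE : 1 ≤ E) (hH : 1 ≤ H) (hL : 1 ≤ L) (hΛ : 1 ≤ Λ)
    (hKK : 1 ≤ KK) (hκ : 1 ≤ κ) (hρ : 0 < ρ) (hMρ : 1 ≤ M * ρ) (hS : 0 < S)
    {Q : MvPolynomial (Option (Fin d)) ℝ} (hQ : Q.totalDegree ≤ D)
    {a : ℕ → ℝ} {lt : ℝ → Option (Fin d) → ℝ} {u₁ : Fin d → ℝ} {y₁ y₂ : Option (Fin d) → ℝ}
    (hu₁ : u₁ ∈ ucube d)
    -- jets on the first leaf
    (hjet : ∀ R : MvPolynomial (Option (Fin d)) ℝ, R.totalDegree ≤ D →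
      Psi R (κ / M) (cpt Φ₁ u₁) ≤ KK * nj D M Φ₁ 1 R)
    (hvar : ∀ R : MvPolynomial (Option (Fin d)) ℝ, R.totalDegree ≤ D →
      ∀ y : Option (Fin d) → ℝ, (∀ o, |y o - cpt Φ₁ u₁ o| ≤ κ / M) →
        |MvPolynomial.eval y R - MvPolynomial.eval (cpt Φ₁ u₁) R| ≤ KK * nj D M Φ₁ (1 / E) R)
    -- positions
    (hy₁ : ∀ o, |y₁ o - cpt Φ₁ u₁ o| ≤ κ / M) (hl₁ : ∀ o, |lt t₁ o - cpt Φ₁ u₁ o| ≤ κ / M)
    -- the line
    (ha : ∀ k, 0 ≤ a k) (haD : ∀ k, D < k → a k = 0)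
    (ha₁ : ∀ k ≤ D, |MvPolynomial.eval (lt t₁) (pN k Q)| ≤ a k)
    (ha₀ : a 0 ≤ H * |MvPolynomial.eval (lt t₁) Q|)
    (ha₂ : ∀ k ≤ D, a k ≤ H * |MvPolynomial.eval (lt t₂) (pN k Q)|)
    -- the first point is typical in its leaf
    (htyp : ∀ k ≤ D, 0 < csC Φ₁ (pN k Q) → ∃ y : Option (Fin d) → ℝ,
      (∀ o, |y o - cpt Φ₁ u₁ o| ≤ κ / M) ∧
        csC Φ₁ (pN k Q) ≤ H * |MvPolynomial.eval y (pN k Q)|)
    -- the second leaf
    (hE1 : ∀ m ≤ D, ∀ u ∈ ucube d,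
      Psi (pN m Q) (κ / M) (cpt Φ₂ u) ≤ H * Psi (pN m Q) (κ / M) y₂)
    (hE2 : ∀ m ≤ D, Psi (pN m Q) (κ / M) y₂ ≤ H * Psi (pN m Q) (κ / M) y₁)
    -- the equation of the first leaf
    (hQ1 : csC Φ₁ (pN 1 Q) = S) (hQ0 : csC Φ₁ Q ≤ ρ * S)
    (hQr : ∀ r, csC Φ₁ (pN (r + 1) Q) * ρ ^ r ≤ S)
    (hKL : 4 * KK * (1 / E + D / L) * H ≤ 1) :
    (∃ k, Gap D a (bth D KK H L Λ ρ) k) ∧ ∀ k, Gap D a (bth D KK H L Λ ρ) k →
      0 < |MvPolynomial.eval (lt t₂) (pN (k + 1) Q)| ∧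
      a k ≤ bth D KK H L Λ ρ k * (H * |MvPolynomial.eval (lt t₂) (pN (k + 1) Q)|) ∧
      csC Φ₂ (pN k Q) ≤ bE₂ D KK H L * bth D KK H L Λ ρ k *
        |MvPolynomial.eval (lt t₂) (pN (k + 1) Q)| ∧
      ∀ m, csC Φ₂ (pN (k + 1 + m) Q) * bth D KK H L Λ ρ (k + 1) ^ m ≤
        bE₂ D KK H L * |MvPolynomial.eval (lt t₂) (pN (k + 1) Q)| := by
  classical
  have hM0 : (0 : ℝ) < M := by exact_mod_cast hM
  have hM1 : (1 : ℝ) ≤ M := by exact_mod_cast hM
  have hD0 : (0 : ℝ) ≤ D := Nat.cast_nonneg D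
  have hLD : (1 : ℝ) ≤ L ^ D := one_le_pow₀ hL
  set Eb : ℝ := bEb D H L with hEb
  have hEb1 : 1 ≤ Eb := by
    rw [hEb]
    unfold bEb
    have h1 : 1 ≤ L ^ D * H := by nlinarith
    nlinarith
  set Ea : ℝ := 2 * H * KK * (D + 1) with hEa
  have hEa1 : 1 ≤ Ea := by
    rw [hEa]
    have h1 : 1 ≤ H * KK := by nlinarith
    nlinarith
  have hE₀ : bE₀ D KK H L = 2 * Ea * Eb * (D + 1) := rfl
  set E₀ : ℝ := bE₀ D KK H L with hE₀'
  have hE₀1 : 1 ≤ E₀ := by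
    rw [hE₀]
    have h1 : 1 ≤ Ea * Eb := by nlinarith
    nlinarith
  have hMρ' : 1 / (M : ℝ) ≤ ρ := by
    rw [div_le_iff₀ hM0]
    linarith
  -- the values at the first point bound the suprema over the first leaf
  have hnv := nval D M (Φ := Φ₁) hM hE hH hL (by linarith : 0 ≤ KK) hQ (x := cpt Φ₁ u₁) hvar htyp
    hKL hl₁
  have hS1 : ∀ m, ∑ r ∈ range (D + 1), (1 / M : ℝ) ^ r * csC Φ₁ (pN (m + r) Q) ≤
      Eb * ∑ r ∈ range (D + 1), (1 / M : ℝ) ^ r * a (m + r) := by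
    intro m
    refine (hnv m).trans ?_
    have e1 : 2 * ((D : ℝ) + 1) * L ^ D * H = Eb := rfl
    rw [e1]
    refine mul_le_mul_of_nonneg_left ?_ (by linarith)
    refine Finset.sum_le_sum fun r _ => ?_
    refine mul_le_mul_of_nonneg_left ?_ (by positivity)
    by_cases hk : m + r ≤ D
    · exact ha₁ _ hk
    · rw [pN_eq_zero (m + r) D hQ (by omega), map_zero, abs_zero]
      exact ha _
  -- the equation along the line
  have hstart : a 0 ≤ ρ * Ea * S := by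
    have h1 := hvar Q hQ (lt t₁) hl₁
    have h2 : |MvPolynomial.eval (cpt Φ₁ u₁) Q| ≤ nj D M Φ₁ 1 Q :=
      (le_csC Φ₁ Q hu₁).trans (csC_le_nj D M Φ₁ Q)
    have h3 : nj D M Φ₁ (1 / E) Q ≤ nj D M Φ₁ 1 Q := nj_mono D M Φ₁ (by
      rw [div_le_one (by linarith)]
      exact hE) Q
    have h4 : |MvPolynomial.eval (lt t₁) Q| ≤ 2 * KK * nj D M Φ₁ 1 Q := by
      have h5 : |MvPolynomial.eval (lt t₁) Q| ≤ |MvPolynomial.eval (cpt Φ₁ u₁) Q| +
          |MvPolynomial.eval (lt t₁) Q - MvPolynomial.eval (cpt Φ₁ u₁) Q| := by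
        have := abs_add_le (MvPolynomial.eval (cpt Φ₁ u₁) Q)
          (MvPolynomial.eval (lt t₁) Q - MvPolynomial.eval (cpt Φ₁ u₁) Q)
        rwa [add_sub_cancel] at this
      have h6 := mul_le_mul_of_nonneg_left h3 (by linarith : (0 : ℝ) ≤ KK)
      have h7 := nj_nonneg D M Φ₁ zero_le_one Q
      nlinarith
    have h5 : nj D M Φ₁ 1 Q ≤ (D + 1) * (ρ * S) := by
      rw [nj_one]
      have h6 : ∀ r ∈ range (D + 1), (1 / M : ℝ) ^ r * csC Φ₁ (pN r Q) ≤ ρ * S := by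
        intro r _
        rcases Nat.eq_zero_or_pos r with rfl | hr
        · rw [pow_zero, one_mul, pN_zero]
          exact hQ0
        · obtain ⟨j, rfl⟩ : ∃ j, r = j + 1 := ⟨r - 1, by omega⟩
          have h7 := hQr j
          have h8 : (1 / M : ℝ) ^ j * csC Φ₁ (pN (j + 1) Q) ≤ S := by
            refine le_trans ?_ h7
            rw [mul_comm]
            exact mul_le_mul_of_nonneg_left (pow_le_pow_left₀ (by positivity) hMρ' j)
              (csC_nonneg _ _)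
          calc (1 / M : ℝ) ^ (j + 1) * csC Φ₁ (pN (j + 1) Q) =
                1 / M * ((1 / M : ℝ) ^ j * csC Φ₁ (pN (j + 1) Q)) := by
                rw [pow_succ]
                ring
            _ ≤ 1 / M * S := mul_le_mul_of_nonneg_left h8 (by positivity)
            _ ≤ ρ * S := mul_le_mul_of_nonneg_right hMρ' hS.le
      refine (Finset.sum_le_sum h6).trans (le_of_eq ?_)
      rw [Finset.sum_const, Finset.card_range, nsmul_eq_mul]
      push_cast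
      ring
    calc a 0 ≤ H * |MvPolynomial.eval (lt t₁) Q| := ha₀
      _ ≤ H * (2 * KK * ((D + 1) * (ρ * S))) :=
          mul_le_mul_of_nonneg_left (h4.trans (mul_le_mul_of_nonneg_left h5 (by linarith)))
            (by linarith)
      _ = _ := by rw [hEa]; ring
  have hSb : S ≤ Eb * ∑ r ∈ range (D + 1), (1 / M : ℝ) ^ r * a (1 + r) := by
    refine le_trans ?_ (hS1 1)
    rw [← hQ1]
    have h1 := Finset.single_le_sum (f := fun r => (1 / M : ℝ) ^ r * csC Φ₁ (pN (1 + r) Q))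
      (fun r _ => mul_nonneg (by positivity) (csC_nonneg _ _))
      (Finset.mem_range.mpr (Nat.succ_pos D))
    simp only [pow_zero, one_mul, add_zero] at h1
    exact h1
  obtain ⟨k₁, hk₁, hk₁'⟩ := gap_start (D := D) ha hρ hM0 hMρ hEa1 hEb1 hS hstart hSb
  -- the gap
  set θ : ℕ → ℝ := bth D KK H L Λ ρ with hθ'
  have hθ : θ = fun k => ρ * E₀ * Λ ^ k := rfl
  have hρE : 0 < ρ * E₀ := by positivity
  have hθ0 : ∀ k, 0 < θ k := fun k => by
    rw [hθ]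
    positivity
  have hθm : Monotone θ := fun i j hij =>
    mul_le_mul_of_nonneg_left (pow_le_pow_right₀ hΛ hij) hρE.le
  have hθM : ∀ k, 1 / (M : ℝ) ≤ θ k := by
    intro k
    have h1 : (1 : ℝ) ≤ E₀ * Λ ^ k := by
      have : (1 : ℝ) ≤ Λ ^ k := one_le_pow₀ hΛ
      nlinarith
    calc 1 / (M : ℝ) ≤ ρ := hMρ'
      _ ≤ ρ * (E₀ * Λ ^ k) := by nlinarith
      _ = θ k := by rw [hθ]; ring
  refine ⟨gapm ha haD hθ0 hθm ⟨k₁, hk₁, by
    refine hk₁'.trans (mul_le_mul_of_nonneg_right ?_ (ha _))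
    rw [← hE₀]
    have : (1 : ℝ) ≤ Λ ^ k₁ := one_le_pow₀ hΛ
    simp only [hθ]
    nlinarith⟩, ?_⟩
  rintro k ⟨hkD, hk0, hk1, hk2⟩
  -- the second leaf
  set E₁ : ℝ := H ^ 2 * 2 ^ D * KK * Eb with hE₁
  have hE₁1 : 1 ≤ E₁ := by
    have h1 : (1 : ℝ) ≤ H ^ 2 := one_le_pow₀ hH
    have h2 : (1 : ℝ) ≤ 2 ^ D := one_le_pow₀ (by norm_num)
    have h3 : (1 : ℝ) ≤ H ^ 2 * 2 ^ D := by nlinarith
    have h4 : (1 : ℝ) ≤ H ^ 2 * 2 ^ D * KK := by nlinarith
    rw [hE₁]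
    nlinarith
  have hs2 : ∀ m, csC Φ₂ (pN m Q) ≤
      E₁ * ∑ r ∈ range (D + 1), (1 / M : ℝ) ^ r * a (m + r) := by
    intro m
    have hsum0 : 0 ≤ ∑ r ∈ range (D + 1), (1 / M : ℝ) ^ r * a (m + r) :=
      Finset.sum_nonneg fun r _ => mul_nonneg (by positivity) (ha _)
    by_cases hm : m ≤ D
    · have hRD : (pN m Q).totalDegree ≤ D := pN_deg m D hQ
      have hκM : (0 : ℝ) ≤ κ / M := by positivity
      have h1 : csC Φ₂ (pN m Q) ≤ H * Psi (pN m Q) (κ / M) y₂ := by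
        refine csC_le Φ₂ _ (mul_nonneg (by linarith) (Psi_nonneg _ _ _)) ?_
        intro u hu
        exact (abs_eval_le_Psi_of_near _ (κ / M) hκM _ _ (fun o => by
          rw [sub_self, abs_zero]
          exact hκM)).trans (hE1 m hm u hu)
      have h2 := mul_le_mul_of_nonneg_left (hE2 m hm) (by linarith : (0 : ℝ) ≤ H)
      have h3 : Psi (pN m Q) (κ / M) y₁ ≤ 2 ^ D * Psi (pN m Q) (κ / M) (cpt Φ₁ u₁) :=
        (Psi_le_of_near _ (κ / M) hκM _ _ hy₁).trans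
          (mul_le_mul_of_nonneg_right (FIL.two_pow_mono hRD) (Psi_nonneg _ _ _))
      have h4 := hjet (pN m Q) hRD
      have h5 : nj D M Φ₁ 1 (pN m Q) ≤ Eb * ∑ r ∈ range (D + 1), (1 / M : ℝ) ^ r * a (m + r) := by
        rw [nj_one]
        refine le_trans (le_of_eq ?_) (hS1 m)
        refine Finset.sum_congr rfl fun r _ => ?_
        rw [pN_pN, add_comm r m]
      calc csC Φ₂ (pN m Q) ≤ H * Psi (pN m Q) (κ / M) y₂ := h1
        _ ≤ H * (H * Psi (pN m Q) (κ / M) y₁) := h2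
        _ ≤ H * (H * (2 ^ D * (KK * (Eb *
              ∑ r ∈ range (D + 1), (1 / M : ℝ) ^ r * a (m + r))))) := by
            refine mul_le_mul_of_nonneg_left (mul_le_mul_of_nonneg_left ?_ (by linarith))
              (by linarith)
            refine h3.trans (mul_le_mul_of_nonneg_left ?_ (by positivity))
            exact h4.trans (mul_le_mul_of_nonneg_left h5 (by linarith))
        _ = _ := by rw [hE₁]; ring
    · have h1 : csC Φ₂ (pN m Q) = 0 := by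
        rw [pN_eq_zero m D hQ (by omega)]
        exact le_antisymm (csC_le Φ₂ _ le_rfl fun u _ => by simp) (csC_nonneg _ _)
      rw [h1]
      exact mul_nonneg (by linarith) hsum0
  obtain ⟨hf1, hf2⟩ := bridge_num (D := D) (k := k) (s := fun m => csC Φ₂ (pN m Q)) hM1 ha hE₁1
    (hθM k) (hθM (k + 1)) hs2 hk0 hk1 hk2
  have hq := ha₂ (k + 1) hkD
  set q : ℝ := |MvPolynomial.eval (lt t₂) (pN (k + 1) Q)| with hqdef
  have hq0 : 0 < q := by
    by_contra hcon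
    have h1 : q = 0 := le_antisymm (not_lt.mp hcon) (abs_nonneg _)
    rw [h1, mul_zero] at hq
    linarith
  have hE₂ : bE₂ D KK H L = E₁ * (D + 1) * H := by
    rw [hE₁]
    unfold bE₂
    rw [← hEb]
    ring
  refine ⟨hq0, ?_, ?_, ?_⟩
  · exact hk1.trans (mul_le_mul_of_nonneg_left hq (hθ0 k).le)
  · rw [hE₂]
    refine hf1.trans ?_
    have h1 := hθ0 k
    calc E₁ * (D + 1) * θ k * a (k + 1) ≤ E₁ * (D + 1) * θ k * (H * q) :=
          mul_le_mul_of_nonneg_left hq (by positivity)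
      _ = _ := by ring
  · intro m
    rw [hE₂]
    refine (hf2 m).trans ?_
    calc E₁ * (D + 1) * a (k + 1) ≤ E₁ * (D + 1) * (H * q) :=
          mul_le_mul_of_nonneg_left hq (by positivity)
      _ = _ := by ring

end Pool.IEN
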