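import Pool.Agent.H86.IE.Lnw

/-!
# The supremum norm of polynomials of bounded degree on a cube is almost multiplicative
-/

set_option autoImplicit false

namespace Pool.IEN

open Finset Real
open Pool.Agent.H49.Ent Pool.Agent.H32.Dense Pool.STK Pool.KAF Pool.KAL Pool.KS3 Pool.M3F Pool.KJA

/-- A polynomial in one variable is small at few points of a grid. -/
lemma few_small (E n : ℕ) (hn : 1 ≤ n) (p : Polynomial ℝ) (hp : p.natDegree ≤ E) {S : ℝ}
    (hS : 0 < S) (hex : ∃ t ∈ Set.Icc (0 : ℝ) 1, S ≤ |p.eval t|) :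
    ((Finset.range (n + 1)).filter
      (fun i : ℕ => |p.eval ((i : ℝ) / n)| < S / (2 * ((E + 1) * (n : ℝ) ^ E)))).card ≤ E := by
  classical
  by_contra hcon
  push Not at hcon
  obtain ⟨s, hs, hsc⟩ := Finset.exists_subset_card_eq (Nat.succ_le_of_lt hcon)
  have hn0 : (0 : ℝ) < n := by exact_mod_cast hn
  obtain ⟨t, ht, hSt⟩ := hex
  set v : ℕ → ℝ := fun i => (i : ℝ) / n with hv
  have hinj : Set.InjOn v s := by
    intro i _ j _ h
    simp only [hv] at h
    rw [div_left_inj' hn0.ne'] at h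
    exact_mod_cast h
  have hdeg : p.degree < (s.card : WithBot ℕ) := by
    rw [hsc]
    refine lt_of_le_of_lt Polynomial.degree_le_natDegree ?_
    exact_mod_cast Nat.lt_succ_of_le hp
  have h1 := Lagrange.eq_interpolate hinj hdeg
  have hmem : ∀ i ∈ s, v i ∈ Set.Icc (0 : ℝ) 1 := by
    intro i hi
    have h2 := Finset.mem_range.mp (Finset.mem_filter.mp (hs hi)).1
    refine ⟨by positivity, ?_⟩
    simp only [hv]
    rw [div_le_one hn0]
    exact_mod_cast Nat.lt_succ_iff.mp h2
  have h2 : ∀ i ∈ s, |(Lagrange.basis s v i).eval t| ≤ (n : ℝ) ^ E := by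
    intro i hi
    unfold Lagrange.basis
    rw [Polynomial.eval_prod, Finset.abs_prod]
    have h3 : ∀ j ∈ s.erase i, |(Lagrange.basisDivisor (v i) (v j)).eval t| ≤ (n : ℝ) := by
      intro j hj
      obtain ⟨hji, hjs⟩ := Finset.mem_erase.mp hj
      unfold Lagrange.basisDivisor
      rw [Polynomial.eval_mul, Polynomial.eval_C, Polynomial.eval_sub, Polynomial.eval_X,
        Polynomial.eval_C, abs_mul, abs_inv]
      have h4 : 1 / (n : ℝ) ≤ |v i - v j| := by
        have e1 : v i - v j = ((i : ℤ) - (j : ℤ) : ℤ) / (n : ℝ) := by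
          simp only [hv]
          push_cast
          ring
        rw [e1, abs_div, abs_of_pos hn0]
        refine div_le_div_of_nonneg_right ?_ hn0.le
        have h5 : (1 : ℤ) ≤ |(i : ℤ) - (j : ℤ)| := by
          refine Int.one_le_abs ?_
          intro h6
          exact hji (by omega)
        calc (1 : ℝ) = ((1 : ℤ) : ℝ) := by norm_num
          _ ≤ ((|(i : ℤ) - (j : ℤ)| : ℤ) : ℝ) := by exact_mod_cast h5
          _ = |(((i : ℤ) - (j : ℤ) : ℤ) : ℝ)| := by
              rw [Int.cast_abs]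
      have h5 : |v i - v j|⁻¹ ≤ n := by
        rw [inv_le_comm₀ (lt_of_lt_of_le (by positivity) h4) hn0]
        rwa [one_div] at h4
      have h6 : |t - v j| ≤ 1 := by
        have a1 := hmem j hjs
        rw [abs_le]
        constructor <;> linarith [ht.1, ht.2, a1.1, a1.2]
      calc |v i - v j|⁻¹ * |t - v j| ≤ n * 1 :=
            mul_le_mul h5 h6 (abs_nonneg _) hn0.le
        _ = n := mul_one _
    refine (Finset.prod_le_prod (fun _ _ => abs_nonneg _) h3).trans ?_
    rw [Finset.prod_const, Finset.card_erase_of_mem hi, hsc]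
    simp
  have h3 : |p.eval t| ≤ S / 2 := by
    rw [h1, Lagrange.interpolate_apply, Polynomial.eval_finsetSum]
    refine (Finset.abs_sum_le_sum_abs _ _).trans ?_
    have h4 : ∀ i ∈ s, |(Polynomial.C (p.eval (v i)) * Lagrange.basis s v i).eval t| ≤
        S / (2 * ((E + 1) * (n : ℝ) ^ E)) * (n : ℝ) ^ E := by
      intro i hi
      rw [Polynomial.eval_mul, Polynomial.eval_C, abs_mul]
      exact mul_le_mul (Finset.mem_filter.mp (hs hi)).2.le (h2 i hi) (abs_nonneg _)
        (by positivity)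
    refine (Finset.sum_le_sum h4).trans (le_of_eq ?_)
    rw [Finset.sum_const, hsc, nsmul_eq_mul]
    push_cast
    field_simp
  linarith

/-- The section of a polynomial. -/
noncomputable def sec {d : ℕ} (t : ℝ) (P : MvPolynomial (Fin (d + 1)) ℝ) :
    MvPolynomial (Fin d) ℝ :=
  MvPolynomial.bind₁ (Fin.cons (MvPolynomial.C t) MvPolynomial.X) P

lemma eval_sec {d : ℕ} (t : ℝ) (P : MvPolynomial (Fin (d + 1)) ℝ) (u : Fin d → ℝ) :
    MvPolynomial.eval u (sec t P) = MvPolynomial.eval (Fin.cons t u) P := by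
  unfold sec
  rw [eval_bind]
  congr 2
  funext i
  refine Fin.cases ?_ (fun j => ?_) i
  · simp [cpt]
  · simp [cpt]

lemma sec_deg {d : ℕ} (t : ℝ) {P : MvPolynomial (Fin (d + 1)) ℝ} {E : ℕ}
    (h : P.totalDegree ≤ E) : (sec t P).totalDegree ≤ E := by
  refine (SML.totalDegree_bind_le _ 1 ?_ P).trans (by rwa [one_mul])
  intro i
  refine Fin.cases ?_ (fun j => ?_) i
  · rw [Fin.cons_zero, MvPolynomial.totalDegree_C]
    exact Nat.zero_le _
  · rw [Fin.cons_succ, MvPolynomial.totalDegree_X]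

lemma sec_mul {d : ℕ} (t : ℝ) (P Q : MvPolynomial (Fin (d + 1)) ℝ) :
    sec t (P * Q) = sec t P * sec t Q := map_mul _ _ _

lemma cs_sec_le {d : ℕ} {t : ℝ} (ht : t ∈ Set.Icc (0 : ℝ) 1)
    (P : MvPolynomial (Fin (d + 1)) ℝ) :
    cs (fun _ => 0) 1 (sec t P) ≤ cs (fun _ => 0) 1 P := by
  refine SML.cs_le _ (SML.cs_nonneg _ _ _) fun y hy => ?_
  rw [eval_sec]
  refine SML.le_cs zero_le_one _ fun i => ?_
  refine Fin.cases ?_ (fun j => ?_) i
  · rw [Fin.cons_zero, zero_add]
    exact ht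
  · rw [Fin.cons_succ]
    exact hy j

/-- **The supremum norm on the unit cube is almost multiplicative.** -/
theorem cs_mul01 (d E : ℕ) : ∃ C : ℝ, 1 ≤ C ∧ ∀ P Q : MvPolynomial (Fin d) ℝ,
    P.totalDegree ≤ E → Q.totalDegree ≤ E →
    cs (fun _ => 0) 1 P * cs (fun _ => 0) 1 Q ≤ C * cs (fun _ => 0) 1 (P * Q) := by
  classical
  induction d with
  | zero =>
    refine ⟨1, le_rfl, ?_⟩
    intro P Q _ _
    obtain ⟨y, hy, hy2⟩ := Pool.KS3.cs_attained (fun _ : Fin 0 => (0 : ℝ)) 1 zero_le_one P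
    obtain ⟨y', hy', hy2'⟩ := Pool.KS3.cs_attained (fun _ : Fin 0 => (0 : ℝ)) 1 zero_le_one Q
    have e1 : y = y' := by
      funext i
      exact i.elim0
    have h1 := SML.le_cs (a := fun _ : Fin 0 => (0 : ℝ)) zero_le_one (P * Q) hy
    rw [map_mul, abs_mul] at h1
    rw [one_mul, ← hy2, ← hy2', ← e1]
    exact h1
  | succ d ih =>
    obtain ⟨C, hC, ih⟩ := ih
    set n : ℕ := 2 * E + 1 with hn
    set κ : ℝ := 2 * ((E + 1) * (n : ℝ) ^ E) with hκ
    have hn1 : (1 : ℝ) ≤ n := by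
      rw [hn]
      push_cast
      have : (0 : ℝ) ≤ E := Nat.cast_nonneg E
      linarith
    have hκ1 : 1 ≤ κ := by
      have h1 : (1 : ℝ) ≤ (n : ℝ) ^ E := one_le_pow₀ hn1
      have h2 : (0 : ℝ) ≤ E := Nat.cast_nonneg E
      rw [hκ]
      nlinarith
    refine ⟨C * κ ^ 2, by nlinarith, ?_⟩
    intro P Q hP hQ
    have hP0 := SML.cs_nonneg (fun _ : Fin (d + 1) => (0 : ℝ)) 1 P
    have hQ0 := SML.cs_nonneg (fun _ : Fin (d + 1) => (0 : ℝ)) 1 Q
    have hPQ0 := SML.cs_nonneg (fun _ : Fin (d + 1) => (0 : ℝ)) 1 (P * Q)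
    rcases hP0.eq_or_lt with h0 | hP1
    · rw [← h0, zero_mul]
      positivity
    rcases hQ0.eq_or_lt with h0 | hQ1
    · rw [← h0, mul_zero]
      positivity
    have key : ∀ R : MvPolynomial (Fin (d + 1)) ℝ, R.totalDegree ≤ E →
        0 < cs (fun _ => 0) 1 R → ∃ B : Finset ℕ, B.card ≤ E ∧ ∀ i ∈ Finset.range (n + 1), i ∉ B →
          cs (fun _ => 0) 1 R ≤ κ * cs (fun _ => 0) 1 (sec ((i : ℝ) / n) R) := by
      intro R hR hR1
      obtain ⟨y, hy, hy2⟩ := Pool.KS3.cs_attained (fun _ : Fin (d + 1) => (0 : ℝ)) 1 zero_le_one R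
      set A : Fin (d + 1) → ℝ := Fin.cons 0 (Fin.tail y) with hA
      set B : Fin (d + 1) → ℝ := Fin.cons 1 (fun _ => 0) with hB
      have hAB : ∀ t : ℝ, (fun o => A o + t * B o) = Fin.cons t (Fin.tail y) := by
        intro t
        funext i
        refine Fin.cases ?_ (fun j => ?_) i
        · simp [hA, hB]
        · simp [hA, hB]
      refine ⟨_, few_small E n (by omega) (lq A B R) (deg_lq A B hR) hR1 ⟨y 0, ?_, ?_⟩, ?_⟩
      · have := hy 0
        rw [zero_add] at this
        exact this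
      · rw [eval_lq, hAB, Fin.cons_self_tail]
        exact le_of_eq hy2.symm
      · intro i hi hiB
        rw [Finset.mem_filter, not_and, not_lt] at hiB
        have h3 := hiB hi
        rw [eval_lq, hAB, ← hκ, ← eval_sec] at h3
        have h4 := SML.le_cs (a := fun _ : Fin d => (0 : ℝ)) zero_le_one
          (sec ((i : ℝ) / n) R) (y := Fin.tail y) (fun j => hy j.succ)
        rw [div_le_iff₀ (by linarith)] at h3
        nlinarith
    obtain ⟨B₁, hB₁, k₁⟩ := key P hP hP1
    obtain ⟨B₂, hB₂, k₂⟩ := key Q hQ hQ1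
    obtain ⟨i, hi, hi'⟩ : ∃ i ∈ Finset.range (n + 1), i ∉ B₁ ∪ B₂ := by
      by_contra hcon
      push Not at hcon
      have h1 : Finset.range (n + 1) ⊆ B₁ ∪ B₂ := fun i hi => hcon i hi
      have h2 := Finset.card_le_card h1
      have h3 := Finset.card_union_le B₁ B₂
      rw [Finset.card_range] at h2
      omega
    rw [Finset.mem_union, not_or] at hi'
    have ht : (i : ℝ) / n ∈ Set.Icc (0 : ℝ) 1 := by
      refine ⟨by positivity, ?_⟩
      rw [div_le_one (by linarith)]
      exact_mod_cast Nat.lt_succ_iff.mp (Finset.mem_range.mp hi)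
    have g1 := k₁ i hi hi'.1
    have g2 := k₂ i hi hi'.2
    have g3 := ih (sec ((i : ℝ) / n) P) (sec ((i : ℝ) / n) Q) (sec_deg _ hP) (sec_deg _ hQ)
    rw [← sec_mul] at g3
    have g4 := cs_sec_le ht (P * Q)
    have s1 := SML.cs_nonneg (fun _ : Fin d => (0 : ℝ)) 1 (sec ((i : ℝ) / n) P)
    have s2 := SML.cs_nonneg (fun _ : Fin d => (0 : ℝ)) 1 (sec ((i : ℝ) / n) Q)
    calc cs (fun _ => 0) 1 P * cs (fun _ => 0) 1 Q ≤
          (κ * cs (fun _ => 0) 1 (sec ((i : ℝ) / n) P)) *
            (κ * cs (fun _ => 0) 1 (sec ((i : ℝ) / n) Q)) :=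
          mul_le_mul g1 g2 hQ0 (by positivity)
      _ = κ ^ 2 * (cs (fun _ => 0) 1 (sec ((i : ℝ) / n) P) *
            cs (fun _ => 0) 1 (sec ((i : ℝ) / n) Q)) := by ring
      _ ≤ κ ^ 2 * (C * cs (fun _ => 0) 1 (P * Q)) := by
          refine mul_le_mul_of_nonneg_left (g3.trans ?_) (by positivity)
          exact mul_le_mul_of_nonneg_left g4 (by linarith)
      _ = _ := by ring

/-- The affine map onto a cube. -/
noncomputable def afm {d : ℕ} (a : Fin d → ℝ) (s : ℝ) : Fin d → MvPolynomial (Fin d) ℝ :=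
  fun i => MvPolynomial.C (a i) + MvPolynomial.C s * MvPolynomial.X i

lemma cpt_afm {d : ℕ} (a : Fin d → ℝ) (s : ℝ) (u : Fin d → ℝ) :
    cpt (afm a s) u = fun i => a i + s * u i := by
  funext i
  simp [cpt, afm]

lemma afm_deg {d : ℕ} (a : Fin d → ℝ) (s : ℝ) {P : MvPolynomial (Fin d) ℝ} {E : ℕ}
    (h : P.totalDegree ≤ E) : (MvPolynomial.bind₁ (afm a s) P).totalDegree ≤ E := by
  refine (SML.totalDegree_bind_le _ 1 ?_ P).trans (by rwa [one_mul])
  intro i
  refine (MvPolynomial.totalDegree_add _ _).trans (max_le ?_ ?_)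
  · rw [MvPolynomial.totalDegree_C]
    exact Nat.zero_le _
  · refine (MvPolynomial.totalDegree_mul _ _).trans ?_
    rw [MvPolynomial.totalDegree_C, MvPolynomial.totalDegree_X]

/-- The supremum over a cube. -/
lemma cs_afm {d : ℕ} (a : Fin d → ℝ) {s : ℝ} (hs : 0 ≤ s) (P : MvPolynomial (Fin d) ℝ) :
    cs a s P = cs (fun _ => 0) 1 (MvPolynomial.bind₁ (afm a s) P) := by
  refine le_antisymm ?_ ?_
  · refine SML.cs_le _ (SML.cs_nonneg _ _ _) fun y hy => ?_
    rcases hs.eq_or_lt with h0 | h0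
    · have h1 := SML.le_cs (a := fun _ : Fin d => (0 : ℝ)) zero_le_one
        (MvPolynomial.bind₁ (afm a s) P) (y := fun _ => 0) (fun i => by simp)
      rw [eval_bind, cpt_afm] at h1
      have e1 : (fun i => a i + s * (0 : ℝ)) = y := by
        funext i
        have := hy i
        rw [← h0, add_zero] at this
        rw [mul_zero, add_zero]
        exact le_antisymm this.1 this.2
      rwa [e1] at h1
    · have h1 := SML.le_cs (a := fun _ : Fin d => (0 : ℝ)) zero_le_one
        (MvPolynomial.bind₁ (afm a s) P) (y := fun i => (y i - a i) / s) (fun i => by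
          have := hy i
          constructor
          · exact div_nonneg (by linarith [this.1]) hs
          · rw [zero_add, div_le_one h0]
            linarith [this.2])
      rw [eval_bind, cpt_afm] at h1
      have e1 : (fun i => a i + s * ((y i - a i) / s)) = y := by
        funext i
        field_simp
        ring
      rwa [e1] at h1
  · refine SML.cs_le _ (SML.cs_nonneg _ _ _) fun y hy => ?_
    rw [eval_bind, cpt_afm]
    refine SML.le_cs hs _ fun i => ?_
    have := hy i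
    rw [zero_add] at this
    constructor
    · nlinarith [this.1]
    · nlinarith [this.2]

/-- **The supremum norm on a cube is almost multiplicative.** -/
theorem cs_mul (d E : ℕ) : ∃ C : ℝ, 1 ≤ C ∧ ∀ P Q : MvPolynomial (Fin d) ℝ,
    P.totalDegree ≤ E → Q.totalDegree ≤ E → ∀ (a : Fin d → ℝ) (s : ℝ), 0 ≤ s →
    cs a s P * cs a s Q ≤ C * cs a s (P * Q) := by
  obtain ⟨C, hC, H⟩ := cs_mul01 d E
  refine ⟨C, hC, ?_⟩
  intro P Q hP hQ a s hs
  rw [cs_afm a hs P, cs_afm a hs Q, cs_afm a hs (P * Q), map_mul]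
  exact H _ _ (afm_deg a s hP) (afm_deg a s hQ)

end Pool.IEN
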