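import Mathlib

/-!
# The gap lemma

`a k` is the size of the `k`-th derivative in the passive direction of an equation which is small
on a leaf. Some derivative of the equation is small, its derivative is not, and the higher
derivatives are controlled.
-/

set_option autoImplicit false

namespace Pool.IEN

/-- **Gap.** If `a 0 ≤ 2 ^ (-P + lam 0) a 1` then for some `k`: `a k ≤ 2 ^ (-P + lam k) a (k + 1)`
and `a (k + m) ≤ 2 ^ ((m - 1) (P - lam (k + 1))) a (k + 1)` for all `m ≥ 1`. -/
theorem gap {D : ℕ} {a : ℕ → ℝ} {P : ℝ} {lam : ℕ → ℝ} (ha : ∀ k, 0 ≤ a k)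
    (hD : ∀ k, D < k → a k = 0) (hlam : Monotone lam) (h1 : 0 < a 1)
    (h0 : a 0 ≤ (2 : ℝ) ^ (-P + lam 0) * a 1) :
    ∃ k, k + 1 ≤ D ∧ 0 < a (k + 1) ∧ a k ≤ (2 : ℝ) ^ (-P + lam k) * a (k + 1) ∧
      ∀ m, a (k + 1 + m) ≤ (2 : ℝ) ^ (m * (P - lam (k + 1))) * a (k + 1) := by
  classical
  have hne : ∃ k, k ≤ D ∧ (0 < a (k + 1) ∧ a k ≤ (2 : ℝ) ^ (-P + lam k) * a (k + 1)) :=
    ⟨0, Nat.zero_le _, h1, h0⟩
  set S : Finset ℕ := (Finset.range (D + 1)).filter
    (fun k => 0 < a (k + 1) ∧ a k ≤ (2 : ℝ) ^ (-P + lam k) * a (k + 1)) with hS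
  have hSn : S.Nonempty := by
    refine ⟨0, ?_⟩
    rw [hS, Finset.mem_filter, Finset.mem_range]
    exact ⟨Nat.succ_pos _, h1, h0⟩
  set k := S.max' hSn with hk
  have hkS : k ∈ S := Finset.max'_mem _ _
  have hk1 := (Finset.mem_filter.mp hkS).2
  have hkD : k + 1 ≤ D := by
    by_contra hcon
    have := hD (k + 1) (by omega)
    linarith [hk1.1]
  refine ⟨k, hkD, hk1.1, hk1.2, ?_⟩
  -- the ratios above `k`
  have hr : ∀ j, k < j → a (j + 1) ≤ (2 : ℝ) ^ (P - lam (k + 1)) * a j := by
    intro j hj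
    have h2 : a (j + 1) ≤ (2 : ℝ) ^ (P - lam j) * a j := by
      by_cases hj1 : 0 < a (j + 1)
      · have hjD : j ≤ D := by
          by_contra hcon
          have := hD (j + 1) (by omega)
          linarith
        have hjS : j ∉ S := by
          intro hmem
          have := Finset.le_max' S j hmem
          rw [← hk] at this
          omega
        have h3 : ¬ a j ≤ (2 : ℝ) ^ (-P + lam j) * a (j + 1) := by
          intro h4
          exact hjS (by
            rw [hS, Finset.mem_filter, Finset.mem_range]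
            exact ⟨by omega, hj1, h4⟩)
        push Not at h3
        have h5 : (2 : ℝ) ^ (P - lam j) * (2 : ℝ) ^ (-P + lam j) = 1 := by
          rw [← Real.rpow_add (by norm_num)]
          have : P - lam j + (-P + lam j) = 0 := by ring
          rw [this, Real.rpow_zero]
        have h6 : 0 < (2 : ℝ) ^ (P - lam j) := Real.rpow_pos_of_pos (by norm_num) _
        calc a (j + 1) = (2 : ℝ) ^ (P - lam j) * ((2 : ℝ) ^ (-P + lam j) * a (j + 1)) := by
              rw [← mul_assoc, h5, one_mul]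
          _ ≤ (2 : ℝ) ^ (P - lam j) * a j := mul_le_mul_of_nonneg_left h3.le h6.le
      · have h3 : a (j + 1) = 0 := le_antisymm (not_lt.mp hj1) (ha _)
        rw [h3]
        exact mul_nonneg (Real.rpow_nonneg (by norm_num) _) (ha _)
    refine h2.trans (mul_le_mul_of_nonneg_right ?_ (ha _))
    refine Real.rpow_le_rpow_of_exponent_le (by norm_num) ?_
    have := hlam (show k + 1 ≤ j by omega)
    linarith
  intro m
  induction m with
  | zero => simp
  | succ m ih =>
    have h2 := hr (k + 1 + m) (by omega)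
    have h3 : 0 ≤ (2 : ℝ) ^ (P - lam (k + 1)) := Real.rpow_nonneg (by norm_num) _
    calc a (k + 1 + (m + 1)) ≤ (2 : ℝ) ^ (P - lam (k + 1)) * a (k + 1 + m) := h2
      _ ≤ (2 : ℝ) ^ (P - lam (k + 1)) * ((2 : ℝ) ^ (m * (P - lam (k + 1))) * a (k + 1)) :=
          mul_le_mul_of_nonneg_left ih h3
      _ = (2 : ℝ) ^ (((m + 1 : ℕ) : ℝ) * (P - lam (k + 1))) * a (k + 1) := by
          rw [← mul_assoc, ← Real.rpow_add (by norm_num)]
          congr 2
          push_cast
          ring

end Pool.IEN
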