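import Mathlib

/-!
# Neumann polynomial of `1 / q`

`wn δ p = ∑ |p.coeff k| δ ^ k` is the weighted norm of a univariate polynomial. If a polynomial `q`
of degree at most `D` is on `[-T, T]` at most `Λ |q 0|` then on the interval of half length `δ` the
inverse of `q` is given up to `ε ^ (K + 1)` by a polynomial of degree `D K`, with
`ε = C Λ δ / T`.
-/

set_option autoImplicit false

namespace Pool.IEN

open Polynomial Finset

/-- The weighted norm. -/
noncomputable def wn (δ : ℝ) (p : ℝ[X]) : ℝ := ∑ k ∈ p.support, |p.coeff k| * δ ^ k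

lemma wn_nonneg {δ : ℝ} (hδ : 0 ≤ δ) (p : ℝ[X]) : 0 ≤ wn δ p :=
  Finset.sum_nonneg fun _ _ => mul_nonneg (abs_nonneg _) (pow_nonneg hδ _)

lemma wn_eq_of_subset (δ : ℝ) (p : ℝ[X]) {s : Finset ℕ} (h : p.support ⊆ s) :
    wn δ p = ∑ k ∈ s, |p.coeff k| * δ ^ k := by
  unfold wn
  refine Finset.sum_subset h fun k _ hk => ?_
  rw [notMem_support_iff] at hk
  rw [hk, abs_zero, zero_mul]

lemma wn_zero (δ : ℝ) : wn δ 0 = 0 := by simp [wn]

lemma wn_monomial (δ : ℝ) (n : ℕ) (a : ℝ) : wn δ (monomial n a) = |a| * δ ^ n := by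
  classical
  rw [wn_eq_of_subset δ (monomial n a) (s := {n}) (support_monomial' n a)]
  simp

lemma wn_C (δ a : ℝ) : wn δ (C a) = |a| := by
  have := wn_monomial δ 0 a
  rwa [pow_zero, mul_one] at this

lemma wn_one (δ : ℝ) : wn δ 1 = 1 := by
  rw [← C_1, wn_C, abs_one]

lemma wn_add_le {δ : ℝ} (hδ : 0 ≤ δ) (p q : ℝ[X]) : wn δ (p + q) ≤ wn δ p + wn δ q := by
  classical
  rw [wn_eq_of_subset δ (p + q) (s := p.support ∪ q.support) support_add,
    wn_eq_of_subset δ p (s := p.support ∪ q.support) subset_union_left,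
    wn_eq_of_subset δ q (s := p.support ∪ q.support) subset_union_right, ← sum_add_distrib]
  refine sum_le_sum fun k _ => ?_
  rw [coeff_add, ← add_mul]
  exact mul_le_mul_of_nonneg_right (abs_add_le _ _) (pow_nonneg hδ _)

lemma wn_neg (δ : ℝ) (p : ℝ[X]) : wn δ (-p) = wn δ p := by
  unfold wn
  rw [support_neg]
  refine sum_congr rfl fun k _ => ?_
  rw [coeff_neg, abs_neg]

lemma wn_sum_le {δ : ℝ} (hδ : 0 ≤ δ) {ι : Type*} (s : Finset ι) (f : ι → ℝ[X]) :
    wn δ (∑ i ∈ s, f i) ≤ ∑ i ∈ s, wn δ (f i) := by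
  classical
  induction s using Finset.induction_on with
  | empty => simp [wn_zero]
  | insert a s ha ih =>
    rw [sum_insert ha, sum_insert ha]
    exact (wn_add_le hδ _ _).trans (add_le_add le_rfl ih)

lemma wn_mul_le {δ : ℝ} (hδ : 0 ≤ δ) (p q : ℝ[X]) : wn δ (p * q) ≤ wn δ p * wn δ q := by
  classical
  have h1 : p * q = ∑ i ∈ p.support, ∑ j ∈ q.support,
      monomial (i + j) (p.coeff i * q.coeff j) := by
    conv_lhs => rw [p.as_sum_support, q.as_sum_support]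
    rw [sum_mul_sum]
    refine sum_congr rfl fun i _ => sum_congr rfl fun j _ => ?_
    rw [monomial_mul_monomial]
  rw [h1]
  refine (wn_sum_le hδ _ _).trans ?_
  calc ∑ i ∈ p.support, wn δ (∑ j ∈ q.support, monomial (i + j) (p.coeff i * q.coeff j))
      ≤ ∑ i ∈ p.support, ∑ j ∈ q.support, (|p.coeff i| * δ ^ i) * (|q.coeff j| * δ ^ j) := by
        refine sum_le_sum fun i _ => (wn_sum_le hδ _ _).trans (sum_le_sum fun j _ => ?_)
        rw [wn_monomial, abs_mul, pow_add]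
        exact le_of_eq (by ring)
    _ = wn δ p * wn δ q := by
        rw [wn, wn, sum_mul_sum]

lemma wn_pow_le {δ : ℝ} (hδ : 0 ≤ δ) (p : ℝ[X]) (k : ℕ) : wn δ (p ^ k) ≤ wn δ p ^ k := by
  induction k with
  | zero => rw [pow_zero, pow_zero, wn_one]
  | succ k ih =>
    rw [pow_succ, pow_succ]
    exact (wn_mul_le hδ _ _).trans (mul_le_mul_of_nonneg_right ih (wn_nonneg hδ _))

lemma abs_eval_le {δ : ℝ} {t : ℝ} (ht : |t| ≤ δ) (p : ℝ[X]) : |p.eval t| ≤ wn δ p := by
  rw [eval_eq_sum, sum_def]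
  refine (abs_sum_le_sum_abs _ _).trans (sum_le_sum fun k _ => ?_)
  rw [abs_mul, abs_pow]
  exact mul_le_mul_of_nonneg_left (pow_le_pow_left₀ (abs_nonneg _) ht _) (abs_nonneg _)

/-- A polynomial without constant term is small on small intervals. -/
lemma wn_small {δ T : ℝ} (hδ : 0 ≤ δ) (hT : 0 < T) (hδT : δ ≤ T) (p : ℝ[X])
    (h0 : p.coeff 0 = 0) : wn δ p ≤ δ / T * wn T p := by
  unfold wn
  rw [mul_sum]
  refine sum_le_sum fun k hk => ?_
  have hk0 : k ≠ 0 := by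
    rintro rfl
    rw [mem_support_iff] at hk
    exact hk h0
  obtain ⟨j, rfl⟩ : ∃ j, k = j + 1 := ⟨k - 1, by omega⟩
  have h1 : δ ^ (j + 1) ≤ δ / T * T ^ (j + 1) := by
    rw [pow_succ', pow_succ' T, ← mul_assoc, div_mul_cancel₀ _ hT.ne']
    exact mul_le_mul_of_nonneg_left (pow_le_pow_left₀ hδ hδT _) hδ
  calc |p.coeff (j + 1)| * δ ^ (j + 1) ≤ |p.coeff (j + 1)| * (δ / T * T ^ (j + 1)) :=
        mul_le_mul_of_nonneg_left h1 (abs_nonneg _)
    _ = _ := by ring

lemma wn_comp (T : ℝ) (hT : 0 < T) (p : ℝ[X]) : wn 1 (p.comp (Polynomial.C T * X)) = wn T p := by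
  have h1 : (p.comp (Polynomial.C T * X)).support ⊆ p.support := by
    intro k hk
    rw [mem_support_iff, comp_C_mul_X_coeff] at hk
    rw [mem_support_iff]
    exact left_ne_zero_of_mul hk
  rw [wn_eq_of_subset 1 _ h1, wn]
  refine sum_congr rfl fun k _ => ?_
  rw [comp_C_mul_X_coeff, one_pow, mul_one, abs_mul, abs_pow, abs_of_pos hT]

/-- The coefficients are bounded by the values. -/
lemma wn_le_sup (D : ℕ) : ∃ C : ℝ, 1 ≤ C ∧ ∀ (p : ℝ[X]) (T A : ℝ), 0 < T → p.natDegree ≤ D →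
    (∀ t, |t| ≤ T → |p.eval t| ≤ A) → wn T p ≤ C * A := by
  classical
  set v : ℕ → ℝ := fun i => (i : ℝ) / (D + 1) with hv
  set s : Finset ℕ := Finset.range (D + 1) with hs
  have hD : (0 : ℝ) < (D : ℝ) + 1 := by positivity
  have hinj : Set.InjOn v s := by
    intro a _ b _ h
    simp only [hv] at h
    rw [div_left_inj' hD.ne'] at h
    exact_mod_cast h
  set Cs : ℝ := ∑ i ∈ s, wn 1 (Lagrange.basis s v i) with hCs
  have hCs0 : 0 ≤ Cs := sum_nonneg fun _ _ => wn_nonneg zero_le_one _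
  refine ⟨1 + Cs, by linarith, ?_⟩
  intro p T A hT hp hA
  have hA0 : 0 ≤ A := (abs_nonneg _).trans (hA 0 (by rw [abs_zero]; exact hT.le))
  rw [← wn_comp T hT p]
  set g : ℝ[X] := p.comp (Polynomial.C T * X) with hg
  have hgd : g.degree < s.card := by
    have h1 : g.natDegree ≤ D := by
      refine natDegree_comp_le.trans ?_
      have h2 : (Polynomial.C T * X : ℝ[X]).natDegree ≤ 1 := (natDegree_C_mul_le _ _).trans natDegree_X_le
      calc p.natDegree * (Polynomial.C T * X : ℝ[X]).natDegree ≤ p.natDegree * 1 :=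
            Nat.mul_le_mul_left _ h2
        _ ≤ D := by omega
    rw [hs, card_range]
    refine lt_of_le_of_lt degree_le_natDegree ?_
    exact_mod_cast Nat.lt_succ_of_le h1
  have h1 := Lagrange.eq_interpolate hinj hgd
  have h2 : ∀ i ∈ s, |g.eval (v i)| ≤ A := by
    intro i hi
    rw [hg, eval_comp]
    refine hA _ ?_
    rw [eval_mul, eval_C, eval_X, abs_mul, abs_of_pos hT]
    have h3 : (i : ℝ) ≤ D := by
      have := Finset.mem_range.mp hi
      exact_mod_cast Nat.lt_succ_iff.mp this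
    have h4 : |v i| ≤ 1 := by
      simp only [hv]
      rw [abs_of_nonneg (by positivity), div_le_one hD]
      linarith
    nlinarith
  rw [h1, Lagrange.interpolate_apply]
  refine (wn_sum_le zero_le_one _ _).trans ?_
  calc ∑ i ∈ s, wn 1 (Polynomial.C (g.eval (v i)) * Lagrange.basis s v i)
      ≤ ∑ i ∈ s, A * wn 1 (Lagrange.basis s v i) := by
        refine sum_le_sum fun i hi => ?_
        refine (wn_mul_le zero_le_one _ _).trans ?_
        rw [wn_C]
        exact mul_le_mul_of_nonneg_right (h2 i hi) (wn_nonneg zero_le_one _)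
    _ = Cs * A := by rw [← mul_sum, mul_comm]
    _ ≤ (1 + Cs) * A := by nlinarith

/-- **The Neumann polynomial.** -/
theorem neumann (D : ℕ) : ∃ C : ℝ, 1 ≤ C ∧ ∀ (q : ℝ[X]) (T Λ δ : ℝ) (K : ℕ), 0 < T →
    q.natDegree ≤ D → q.eval 0 ≠ 0 → (∀ t, |t| ≤ T → |q.eval t| ≤ Λ * |q.eval 0|) →
    0 ≤ δ → δ ≤ T → ∃ ψ : ℝ[X], ψ.natDegree ≤ D * K ∧
      wn δ (1 - q * ψ) ≤ (C * Λ * (δ / T)) ^ (K + 1) ∧
      (2 * (C * Λ * (δ / T)) ≤ 1 → wn δ ψ ≤ 2 / |q.eval 0|) := by
  obtain ⟨C, hC, H⟩ := wn_le_sup D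
  refine ⟨C * 2, by linarith, ?_⟩
  intro q T Λ δ K hT hq hq0 hΛ hδ hδT
  set a : ℝ := q.eval 0 with ha
  have ha0 : 0 < |a| := abs_pos.mpr hq0
  have hΛ1 : 1 ≤ Λ := by
    have := hΛ 0 (by rw [abs_zero]; exact hT.le)
    rw [← ha] at this
    nlinarith
  set e : ℝ[X] := 1 - Polynomial.C (a⁻¹) * q with he
  have he0 : e.coeff 0 = 0 := by
    rw [coeff_zero_eq_eval_zero, he, eval_sub, eval_one, eval_mul, eval_C, ← ha,
      inv_mul_cancel₀ hq0, sub_self]
  have hed : e.natDegree ≤ D := by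
    rw [he]
    refine (natDegree_sub_le _ _).trans (max_le (by rw [natDegree_one]; exact Nat.zero_le _) ?_)
    exact (natDegree_C_mul_le _ _).trans hq
  have heT : wn T e ≤ C * (2 * Λ) := by
    refine H e T (2 * Λ) hT hed ?_
    intro t ht
    rw [he, eval_sub, eval_one, eval_mul, eval_C]
    have h1 := hΛ t ht
    have h2 : |a⁻¹ * q.eval t| ≤ Λ := by
      rw [abs_mul, abs_inv, inv_mul_eq_div, div_le_iff₀ ha0]
      exact h1
    calc |1 - a⁻¹ * q.eval t| ≤ |(1 : ℝ)| + |a⁻¹ * q.eval t| := abs_sub _ _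
      _ ≤ 1 + Λ := by rw [abs_one]; linarith
      _ ≤ 2 * Λ := by linarith
  set ε : ℝ := C * 2 * Λ * (δ / T) with hε
  have heδ : wn δ e ≤ ε := by
    have h1 := wn_small hδ hT hδT e he0
    have h2 : 0 ≤ δ / T := by positivity
    calc wn δ e ≤ δ / T * wn T e := h1
      _ ≤ δ / T * (C * (2 * Λ)) := mul_le_mul_of_nonneg_left heT h2
      _ = ε := by rw [hε]; ring
  have hε0 : 0 ≤ ε := (wn_nonneg hδ _).trans heδ
  set ψ : ℝ[X] := Polynomial.C (a⁻¹) * ∑ k ∈ range (K + 1), e ^ k with hψ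
  refine ⟨ψ, ?_, ?_, ?_⟩
  · rw [hψ]
    refine (natDegree_C_mul_le _ _).trans ?_
    refine natDegree_sum_le_of_forall_le _ _ fun k hk => ?_
    refine natDegree_pow_le.trans ?_
    rw [mul_comm D K]
    exact Nat.mul_le_mul (Nat.lt_succ_iff.mp (mem_range.mp hk)) hed
  · have h1 : 1 - q * ψ = e ^ (K + 1) := by
      have h2 : Polynomial.C (a⁻¹) * q = 1 - e := by rw [he]; ring
      have h3 : q * ψ = (1 - e) * ∑ k ∈ range (K + 1), e ^ k := by
        rw [hψ, ← h2]
        ring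
      rw [h3, mul_neg_geom_sum]
      ring
    rw [h1]
    exact (wn_pow_le hδ _ _).trans (pow_le_pow_left₀ (wn_nonneg hδ _) heδ _)
  · intro hsm
    rw [hψ]
    refine (wn_mul_le hδ _ _).trans ?_
    rw [wn_C, abs_inv, div_eq_mul_inv, mul_comm]
    refine mul_le_mul_of_nonneg_right ?_ (by positivity)
    have hε2 : ε ≤ 1 / 2 := by linarith
    calc wn δ (∑ k ∈ range (K + 1), e ^ k) ≤ ∑ k ∈ range (K + 1), wn δ (e ^ k) :=
          wn_sum_le hδ _ _
      _ ≤ ∑ k ∈ range (K + 1), (1 / 2 : ℝ) ^ k := by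
          refine sum_le_sum fun k _ => (wn_pow_le hδ _ _).trans ?_
          exact pow_le_pow_left₀ (wn_nonneg hδ _) (heδ.trans hε2) _
      _ ≤ 2 := by
          have h1 := mul_neg_geom_sum (1 / 2 : ℝ) (K + 1)
          have h2 : 0 ≤ (1 / 2 : ℝ) ^ (K + 1) := by positivity
          linarith

end Pool.IEN
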