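import Pool.Agent.H37.M3F.Cor

/-!
# Remez inequality for values, event form, conditional

`rev`: a polynomial on the unit cube which depends on a label `c`; the position `Y` of the point on
the grid is almost full given the label. Outside a set of small probability the polynomial is on
the grid cell of the point not much smaller than on the whole cube.
-/

set_option autoImplicit false

namespace Pool.IEN

open Finset Real
open Pool.Agent.H49.Ent Pool.Agent.H32.Dense Pool.STK Pool.KAF Pool.KAL Pool.KS3 Pool.M3F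

/-- Remez inequality in the mean, conditional. -/
theorem ric (d D : ℕ) : ∃ C : ℝ, 1 ≤ C ∧
    ∀ (V Γ : Type) [Fintype V] (r : V → ℝ) (c : V → Γ) (Y : V → Fin d → ℕ)
      (Ng : Γ → Fin d → ℕ) (N : Γ → ℕ) (P : Γ → MvPolynomial (Fin d) ℝ) (S : Γ → ℝ) (f : V → ℝ),
      IsLaw r → (∀ v, 0 < r v → ∀ i, Ng (c v) i ∣ N (c v)) → (∀ v, 0 < r v → 1 ≤ N (c v)) →
      (∀ v, 0 < r v → ∀ i, Y v i < Ng (c v) i) →
      (∀ v, 0 < r v → (P (c v)).totalDegree ≤ D) → (∀ v, 0 < r v → 0 < S (c v)) →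
      (∀ v, 0 < r v → ∃ s : Fin d → ℝ, (∀ i, s i ∈ Set.Icc (0 : ℝ) 1) ∧
        S (c v) ≤ |MvPolynomial.eval s (P (c v))|) →
      (∀ v, 0 < r v → ∀ u : Fin d → ℝ, (∀ i, (Y v i : ℝ) / Ng (c v) i ≤ u i ∧
        u i ≤ ((Y v i : ℝ) + 1) / Ng (c v) i) → |MvPolynomial.eval u (P (c v))| ≤ f v) →
      (∀ v, 0 < r v → S (c v) / (N (c v) : ℝ) ^ (2 * D) ≤ f v) →
      Ex r (fun v => Real.log (S (c v))) ≤ Ex r (fun v => Real.log (f v)) +
        2 * D * ((Ex r (fun v => ∑ i, Real.log (Ng (c v) i)) - CH r Y c) + C) := by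
  classical
  obtain ⟨C, hC, hR⟩ := ria (rik_thm rmg_thm gvi_thm) d D (2 * D) le_rfl
  refine ⟨C + 1, by linarith, ?_⟩
  intro V Γ _ r c Y Ng N P S f hr hdvd hN hY hP hS hex hf hfl
  have hr0 := hr.nonneg
  have key : ∀ γ ∈ univ.image c, law r c γ * (Ex (cond r c γ) (fun v => Real.log (S (c v))) -
      (2 * D : ℕ) * ((Ex (cond r c γ) (fun v => ∑ i, Real.log (Ng (c v) i)) -
        H (cond r c γ) Y) + (C + 1))) ≤
      law r c γ * Ex (cond r c γ) (fun v => Real.log (f v)) := by
    intro γ _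
    rcases (law_nonneg hr0 c γ).eq_or_lt with h0 | h0
    · rw [← h0]
      simp
    refine mul_le_mul_of_nonneg_left ?_ h0.le
    obtain ⟨v₀, hv₀, rfl⟩ : ∃ v, 0 < r v ∧ c v = γ := by
      by_contra hcon
      push Not at hcon
      have : law r c γ = 0 := by
        unfold law
        refine Finset.sum_eq_zero fun v _ => ?_
        split_ifs with h
        · exact le_antisymm (not_lt.mp fun h' => hcon v h' h) (hr0 v)
        · rfl
      rw [this] at h0
      exact lt_irrefl _ h0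
    set q : V → ℝ := cond r c (c v₀) with hq
    have hqlaw : IsLaw q := ⟨fun v => cond_nonneg hr0 c _ v, sum_cond r c h0.ne'⟩
    have hqpos : ∀ v, 0 < q v → 0 < r v ∧ c v = c v₀ := fun v hv =>
      (cond_pos_iff hr0 c (c v₀) v).mp hv
    have hconst : ∀ g : Γ → ℝ, Ex q (fun v => g (c v)) = g (c v₀) := by
      intro g
      have h3 : Ex q (fun v => g (c v)) = Ex q (fun _ => g (c v₀)) := by
        unfold Ex
        refine Finset.sum_congr rfl fun v _ => ?_
        by_cases hv : 0 < q v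
        · simp only [(hqpos v hv).2]
        · have : q v = 0 := le_antisymm (not_lt.mp hv) (hqlaw.nonneg v)
          rw [this]
          ring
      rw [h3, Ex_const hqlaw.sum_one]
    have h1 := hR V q (Ng (c v₀)) (N (c v₀)) Y (P (c v₀)) (S (c v₀)) f hqlaw (hdvd v₀ hv₀)
      (hN v₀ hv₀)
      (by
        intro v hv i
        have := hY v (hqpos v hv).1 i
        rwa [(hqpos v hv).2] at this)
      (hP v₀ hv₀) (hS v₀ hv₀) (hex v₀ hv₀)
      (by
        intro v hv u hu
        have := hf v (hqpos v hv).1 u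
        rw [(hqpos v hv).2] at this
        exact this hu)
      (by
        intro v hv
        have := hfl v (hqpos v hv).1
        rwa [(hqpos v hv).2] at this)
    rw [hconst (fun γ => Real.log (S γ)), hconst (fun γ => ∑ i, Real.log (Ng γ i))]
    have h2 : (0 : ℝ) ≤ ((2 * D : ℕ) : ℝ) := Nat.cast_nonneg _
    nlinarith [h1, h2]
  have hsum := Finset.sum_le_sum key
  rw [← rix_ex r hr0 c (fun v => Real.log (f v))] at hsum
  have e1 : ∀ γ ∈ univ.image c, law r c γ * (Ex (cond r c γ) (fun v => Real.log (S (c v))) -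
      (2 * D : ℕ) * ((Ex (cond r c γ) (fun v => ∑ i, Real.log (Ng (c v) i)) -
        H (cond r c γ) Y) + (C + 1))) =
      law r c γ * Ex (cond r c γ) (fun v => Real.log (S (c v))) -
        (2 * D : ℕ) * (law r c γ * Ex (cond r c γ) (fun v => ∑ i, Real.log (Ng (c v) i)) -
          law r c γ * H (cond r c γ) Y + (C + 1) * law r c γ) := by
    intro γ _
    ring
  rw [Finset.sum_congr rfl e1, Finset.sum_sub_distrib, ← Finset.mul_sum,
    Finset.sum_add_distrib, Finset.sum_sub_distrib, ← Finset.mul_sum, sum_law, hr.sum_one,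
    ← CH_eq_sum hr0, ← rix_ex r hr0 c, ← rix_ex r hr0 c] at hsum
  push_cast at hsum
  linarith

/-- The grid cell. -/
def gcell {d : ℕ} (Ng Y : Fin d → ℕ) : Set (Fin d → ℝ) :=
  {u | ∀ i, (Y i : ℝ) / Ng i ≤ u i ∧ u i ≤ ((Y i : ℝ) + 1) / Ng i}

lemma gcell_sub {d : ℕ} {Ng Y : Fin d → ℕ} (h : ∀ i, Y i < Ng i) {u : Fin d → ℝ}
    (hu : u ∈ gcell Ng Y) : u ∈ ucube d := by
  intro i
  have h1 : 0 < Ng i := lt_of_le_of_lt (Nat.zero_le _) (h i)
  have h2 : (0 : ℝ) < Ng i := by exact_mod_cast h1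
  obtain ⟨h3, h4⟩ := hu i
  refine ⟨le_trans (by positivity) h3, h4.trans ?_⟩
  rw [div_le_one h2]
  exact_mod_cast h i

/-- **Remez inequality for values, event form.** -/
theorem rev (d D : ℕ) : ∃ C : ℝ, 1 ≤ C ∧
    ∀ (V Γ : Type) [Fintype V] (r : V → ℝ) (c : V → Γ) (Y : V → Fin d → ℕ)
      (Ng : Γ → Fin d → ℕ) (P : Γ → MvPolynomial (Fin d) ℝ) (h : ℝ),
      IsLaw r → (∀ v, 0 < r v → ∀ i, Y v i < Ng (c v) i) →
      (∀ v, 0 < r v → (P (c v)).totalDegree ≤ D) → 0 < h →
      (∑ v, (open Classical in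
        if 0 < cs (fun _ => 0) 1 (P (c v)) ∧ ∀ u ∈ gcell (Ng (c v)) (Y v),
          |MvPolynomial.eval u (P (c v))| ≤ Real.exp (-h) * cs (fun _ => 0) 1 (P (c v))
        then r v else 0)) ≤
        2 * (D + 1) * ((Ex r (fun v => ∑ i, Real.log (Ng (c v) i)) - CH r Y c) + C) / h := by
  classical
  obtain ⟨C, hC, H⟩ := ric d (D + 1)
  refine ⟨C, hC, ?_⟩
  intro V Γ _ r c Y Ng P h hr hY hP hh
  have hr0 := hr.nonneg
  set P' : Γ → MvPolynomial (Fin d) ℝ := fun γ => if cs (fun _ => 0) 1 (P γ) = 0 then 1 else P γ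
    with hP'
  have hcs0 : ∀ R : MvPolynomial (Fin d) ℝ, 0 ≤ cs (fun _ => 0) 1 R := fun R => SML.cs_nonneg _ _ _
  have hcs1 : cs (fun _ => (0 : ℝ)) 1 (1 : MvPolynomial (Fin d) ℝ) = 1 := by
    refine le_antisymm (SML.cs_le _ zero_le_one fun y _ => by simp) ?_
    have := SML.le_cs (a := fun _ : Fin d => (0 : ℝ)) zero_le_one (1 : MvPolynomial (Fin d) ℝ)
      (y := fun _ => 0) (fun i => by simp)
    simpa using this
  set S : Γ → ℝ := fun γ => cs (fun _ => 0) 1 (P' γ) with hS
  have hS0 : ∀ γ, 0 < S γ := by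
    intro γ
    simp only [hS, hP']
    split_ifs with h
    · rw [hcs1]
      exact zero_lt_one
    · exact lt_of_le_of_ne (hcs0 _) (Ne.symm h)
  set bad : V → Prop := fun v => 0 < cs (fun _ => 0) 1 (P (c v)) ∧
    ∀ u ∈ gcell (Ng (c v)) (Y v),
      |MvPolynomial.eval u (P (c v))| ≤ Real.exp (-h) * cs (fun _ => 0) 1 (P (c v)) with hbad
  set f : V → ℝ := fun v => if bad v then Real.exp (-h) * S (c v) else S (c v) with hf
  set N : Γ → ℕ := fun γ => (∏ i, Ng γ i) * (⌈Real.exp h⌉₊) with hN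
  have hNg : ∀ v, 0 < r v → ∀ i, 0 < Ng (c v) i := fun v hv i =>
    lt_of_le_of_lt (Nat.zero_le _) (hY v hv i)
  have hceil : 1 ≤ ⌈Real.exp h⌉₊ := Nat.one_le_ceil_iff.mpr (Real.exp_pos h)
  have hNe : ∀ v, 0 < r v → Real.exp h ≤ (N (c v) : ℝ) := by
    intro v hv
    have h1 : 1 ≤ ∏ i, Ng (c v) i := Finset.prod_pos fun i _ => hNg v hv i
    have h2 : ⌈Real.exp h⌉₊ ≤ N (c v) := Nat.le_mul_of_pos_left _ h1
    exact (Nat.le_ceil _).trans (by exact_mod_cast h2)
  have hN1 : ∀ v, 0 < r v → 1 ≤ N (c v) := fun v hv =>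
    Nat.mul_pos (Finset.prod_pos fun i _ => hNg v hv i) hceil
  have H1 := H V Γ r c Y Ng N P' S f hr
    (fun v _ i => Dvd.dvd.mul_right (Finset.dvd_prod_of_mem _ (Finset.mem_univ i)) _) hN1 hY
    (by
      intro v hv
      simp only [hP']
      split_ifs
      · rw [MvPolynomial.totalDegree_one]
        exact Nat.zero_le _
      · exact (hP v hv).trans (Nat.le_succ _))
    (fun v _ => hS0 _)
    (by
      intro v _
      obtain ⟨y, hy, hy2⟩ := Pool.KS3.cs_attained (fun _ => 0) 1 zero_le_one (P' (c v))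
      refine ⟨y, fun i => ?_, ?_⟩
      · have := hy i
        rw [zero_add] at this
        exact ⟨this.1, this.2⟩
      · exact le_of_eq hy2.symm)
    (by
      intro v hv u hu
      have hu' := gcell_sub (hY v hv) (u := u) hu
      simp only [hf]
      split_ifs with hb
      · have h1 : P' (c v) = P (c v) := by
          simp only [hP']
          rw [if_neg hb.1.ne']
        simp only [hS]
        rw [h1]
        exact hb.2 u hu
      · exact SML.le_cs zero_le_one _ (mem_cube01 hu'))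
    (by
      intro v hv
      have h1 := hNe v hv
      have h2 : (1 : ℝ) ≤ N (c v) := by exact_mod_cast hN1 v hv
      have h3 : (N (c v) : ℝ) ≤ (N (c v) : ℝ) ^ (2 * (D + 1)) := by
        calc (N (c v) : ℝ) = (N (c v) : ℝ) ^ 1 := (pow_one _).symm
          _ ≤ _ := pow_le_pow_right₀ h2 (by omega)
      have h4 : S (c v) / (N (c v) : ℝ) ^ (2 * (D + 1)) ≤ Real.exp (-h) * S (c v) := by
        rw [Real.exp_neg, inv_mul_eq_div]
        exact div_le_div_of_nonneg_left (hS0 _).le (Real.exp_pos h) (h1.trans h3)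
      simp only [hf]
      split_ifs
      · exact h4
      · refine h4.trans ?_
        have h5 : Real.exp (-h) ≤ 1 := Real.exp_le_one_iff.mpr (by linarith)
        have := hS0 (c v)
        nlinarith)
  have h2 : (∑ v, if bad v then r v else 0) * h =
      Ex r (fun v => Real.log (S (c v)) - Real.log (f v)) := by
    rw [Finset.sum_mul]
    unfold Ex
    refine Finset.sum_congr rfl fun v _ => ?_
    have h3 := hS0 (c v)
    simp only [hf]
    split_ifs
    · rw [Real.log_mul (Real.exp_pos _).ne' h3.ne', Real.log_exp]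
      ring
    · ring
  rw [Ex_sub] at h2
  rw [le_div_iff₀ hh]
  change (∑ v, if bad v then r v else 0) * h ≤ _
  rw [h2]
  push_cast at H1
  linarith

end Pool.IEN
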