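import Pool.Agent.H86.IE.Jen
import Pool.Agent.H86.IE.Rev

/-!
# Values of the passive derivatives at a typical point of the leaf

`nval`: if each derivative `∂ ^ k Q` is not small on the grid cell of the point then the weighted
sums of the suprema over the chart are bounded by the weighted sums of the values at any point
which is at the distance `κ / M`. `nval_ev`: this holds outside a set of small probability.
-/

set_option autoImplicit false

namespace Pool.IEN

open Finset Real
open Pool.Agent.H49.Ent Pool.Agent.H32.Dense Pool.STK Pool.KAF Pool.KAL Pool.KS3 Pool.M3F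

/-- **Values at a typical point.** -/
theorem nval {d : ℕ} (D M : ℕ) {Φ : Option (Fin d) → MvPolynomial (Fin d) ℝ} {E H L KK κ : ℝ}
    (hM : 1 ≤ M) (hE : 1 ≤ E) (hH : 1 ≤ H) (hL : 1 ≤ L) (hK : 0 ≤ KK)
    {Q : MvPolynomial (Option (Fin d)) ℝ} (hQ : Q.totalDegree ≤ D) {x : Option (Fin d) → ℝ}
    (hvar : ∀ R : MvPolynomial (Option (Fin d)) ℝ, R.totalDegree ≤ D →
      ∀ y : Option (Fin d) → ℝ, (∀ o, |y o - x o| ≤ κ / M) →
        |MvPolynomial.eval y R - MvPolynomial.eval x R| ≤ KK * nj D M Φ (1 / E) R)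
    (htyp : ∀ k ≤ D, 0 < csC Φ (pN k Q) → ∃ y : Option (Fin d) → ℝ,
      (∀ o, |y o - x o| ≤ κ / M) ∧ csC Φ (pN k Q) ≤ H * |MvPolynomial.eval y (pN k Q)|)
    (hKL : 4 * KK * (1 / E + D / L) * H ≤ 1)
    {y : Option (Fin d) → ℝ} (hy : ∀ o, |y o - x o| ≤ κ / M) (m : ℕ) :
    ∑ r ∈ range (D + 1), (1 / M : ℝ) ^ r * csC Φ (pN (m + r) Q) ≤
      2 * (D + 1) * L ^ D * H *
        ∑ r ∈ range (D + 1), (1 / M : ℝ) ^ r * |MvPolynomial.eval y (pN (m + r) Q)| := by
  classical
  have hM0 : (0 : ℝ) < M := by exact_mod_cast hM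
  have hL0 : 0 < L := by linarith
  have hE0 : 0 < E := by linarith
  set b : ℕ → ℝ := fun r => (1 / M : ℝ) ^ r * csC Φ (pN (m + r) Q) with hb
  have hb0 : ∀ r, 0 ≤ b r := fun r => mul_nonneg (by positivity) (csC_nonneg _ _)
  have hcz : ∀ k, D < k → csC Φ (pN k Q) = 0 := by
    intro k hk
    rw [pN_eq_zero k D hQ hk]
    exact le_antisymm (csC_le Φ _ le_rfl fun u _ => by simp) (csC_nonneg _ _)
  obtain ⟨s, hs, hmax⟩ := (range (D + 1)).exists_max_image (fun r => L ^ r * b r)
    ⟨0, Finset.mem_range.mpr (Nat.succ_pos _)⟩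
  have hsD : s ≤ D := Nat.lt_succ_iff.mp (Finset.mem_range.mp hs)
  have hnn : 0 ≤ ∑ r ∈ range (D + 1), (1 / M : ℝ) ^ r * |MvPolynomial.eval y (pN (m + r) Q)| :=
    Finset.sum_nonneg fun _ _ => by positivity
  have hle : ∀ r ∈ range (D + 1), b r ≤ L ^ D * b s := by
    intro r hr
    have h1 := hmax r hr
    have h2 : b r ≤ L ^ r * b r := by
      have : (1 : ℝ) ≤ L ^ r := one_le_pow₀ hL
      have := hb0 r
      nlinarith
    have h3 : L ^ s * b s ≤ L ^ D * b s :=
      mul_le_mul_of_nonneg_right (pow_le_pow_right₀ hL hsD) (hb0 s)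
    exact (h2.trans h1).trans h3
  have hsum : ∑ r ∈ range (D + 1), b r ≤ (D + 1) * (L ^ D * b s) := by
    refine (Finset.sum_le_sum hle).trans (le_of_eq ?_)
    rw [Finset.sum_const, Finset.card_range, nsmul_eq_mul]
    push_cast
    ring
  by_cases hpos : 0 < b s
  · have hR0 : 0 < csC Φ (pN (m + s) Q) := by
      have h1 : 0 < (1 / M : ℝ) ^ s := by positivity
      exact (mul_pos_iff_of_pos_left h1).mp hpos
    have hkD : m + s ≤ D := by
      by_contra hcon
      have := hcz (m + s) (by omega)
      linarith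
    set R := pN (m + s) Q with hR
    have hRD : R.totalDegree ≤ D := pN_deg _ D hQ
    obtain ⟨y', hy', hy'2⟩ := htyp (m + s) hkD hR0
    -- the small norm
    have hnj : nj D M Φ (1 / E) R ≤ (1 / E + D / L) * csC Φ R := by
      have h1 : ∀ j ∈ range D, (1 / M : ℝ) ^ (j + 1) * csC Φ (pN (j + 1) R) ≤
          1 / L * csC Φ R := by
        intro j _
        rw [hR, pN_pN]
        by_cases hj : s + (j + 1) ≤ D
        · have h2 := hmax (s + (j + 1)) (Finset.mem_range.mpr (by omega))
          simp only [hb] at h2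
          rw [show m + (s + (j + 1)) = j + 1 + (m + s) by ring, pow_add L s, pow_add (1 / M : ℝ) s]
            at h2
          have h3 : 0 < L ^ s * (1 / M : ℝ) ^ s := by positivity
          have h4 : L ^ (j + 1) * ((1 / M : ℝ) ^ (j + 1) * csC Φ (pN (j + 1 + (m + s)) Q)) ≤
              csC Φ (pN (m + s) Q) := by
            refine le_of_mul_le_mul_left (le_of_eq_of_le ?_ (h2.trans_eq ?_)) h3
            · ring
            · ring
          have h5 : L ≤ L ^ (j + 1) := by
            calc L = L ^ 1 := (pow_one L).symm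
              _ ≤ _ := pow_le_pow_right₀ hL (by omega)
          have h6 : 0 ≤ (1 / M : ℝ) ^ (j + 1) * csC Φ (pN (j + 1 + (m + s)) Q) :=
            mul_nonneg (by positivity) (csC_nonneg _ _)
          rw [one_div_mul_eq_div, le_div_iff₀ hL0]
          nlinarith
        · rw [hcz (j + 1 + (m + s)) (by omega), mul_zero]
          exact mul_nonneg (by positivity) (csC_nonneg _ _)
      have h2 := Finset.sum_le_sum h1
      rw [Finset.sum_const, Finset.card_range, nsmul_eq_mul] at h2
      unfold nj
      calc _ ≤ 1 / E * csC Φ R + D * (1 / L * csC Φ R) := by linarith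
        _ = _ := by ring
    have hnj' : KK * nj D M Φ (1 / E) R ≤ csC Φ R / (4 * H) := by
      have h1 := mul_le_mul_of_nonneg_left hnj hK
      have h2 : KK * ((1 / E + D / L) * csC Φ R) ≤ csC Φ R / (4 * H) := by
        rw [le_div_iff₀ (by linarith)]
        have h3 := mul_le_mul_of_nonneg_right hKL hR0.le
        calc KK * ((1 / E + D / L) * csC Φ R) * (4 * H) =
              4 * KK * (1 / E + D / L) * H * csC Φ R := by ring
          _ ≤ 1 * csC Φ R := h3
          _ = _ := one_mul _
      exact h1.trans h2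
    have h1 := hvar R hRD y hy
    have h2 := hvar R hRD y' hy'
    have h3 : csC Φ R / H ≤ |MvPolynomial.eval y' R| := by
      rw [div_le_iff₀ (by linarith), mul_comm]
      exact hy'2
    have h4 : |MvPolynomial.eval y' R| ≤ |MvPolynomial.eval y R| +
        |MvPolynomial.eval y R - MvPolynomial.eval x R| +
        |MvPolynomial.eval y' R - MvPolynomial.eval x R| := by
      have e1 : MvPolynomial.eval y' R = MvPolynomial.eval y R +
          -(MvPolynomial.eval y R - MvPolynomial.eval x R) +
          (MvPolynomial.eval y' R - MvPolynomial.eval x R) := by ring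
      calc |MvPolynomial.eval y' R| = |MvPolynomial.eval y R +
          -(MvPolynomial.eval y R - MvPolynomial.eval x R) +
          (MvPolynomial.eval y' R - MvPolynomial.eval x R)| := by rw [← e1]
        _ ≤ _ := by
          refine (abs_add_three _ _ _).trans ?_
          rw [abs_neg]
    have h5 : csC Φ R / (2 * H) ≤ |MvPolynomial.eval y R| := by
      have e1 : csC Φ R / H = csC Φ R / (2 * H) + csC Φ R / (4 * H) + csC Φ R / (4 * H) := by
        field_simp
        ring
      linarith
    have h6 : csC Φ R ≤ 2 * H * |MvPolynomial.eval y R| := by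
      rw [div_le_iff₀ (by linarith)] at h5
      linarith
    have h7 : b s ≤ 2 * H * ((1 / M : ℝ) ^ s * |MvPolynomial.eval y R|) := by
      simp only [hb]
      calc (1 / M : ℝ) ^ s * csC Φ R ≤ (1 / M : ℝ) ^ s * (2 * H * |MvPolynomial.eval y R|) :=
            mul_le_mul_of_nonneg_left h6 (by positivity)
        _ = _ := by ring
    have h8 : (1 / M : ℝ) ^ s * |MvPolynomial.eval y R| ≤
        ∑ r ∈ range (D + 1), (1 / M : ℝ) ^ r * |MvPolynomial.eval y (pN (m + r) Q)| :=
      Finset.single_le_sum (f := fun r => (1 / M : ℝ) ^ r *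
        |MvPolynomial.eval y (pN (m + r) Q)|) (fun _ _ => by positivity) hs
    have hD : (0 : ℝ) ≤ D := Nat.cast_nonneg D
    calc ∑ r ∈ range (D + 1), (1 / M : ℝ) ^ r * csC Φ (pN (m + r) Q) ≤
          (D + 1) * (L ^ D * b s) := hsum
      _ ≤ (D + 1) * (L ^ D * (2 * H * ((1 / M : ℝ) ^ s * |MvPolynomial.eval y R|))) :=
          mul_le_mul_of_nonneg_left (mul_le_mul_of_nonneg_left h7 (by positivity)) (by positivity)
      _ ≤ (D + 1) * (L ^ D * (2 * H * ∑ r ∈ range (D + 1), (1 / M : ℝ) ^ r *
            |MvPolynomial.eval y (pN (m + r) Q)|)) :=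
          mul_le_mul_of_nonneg_left (mul_le_mul_of_nonneg_left (mul_le_mul_of_nonneg_left h8
            (by linarith)) (by positivity)) (by positivity)
      _ = _ := by ring
  · have h0 : b s = 0 := le_antisymm (not_lt.mp hpos) (hb0 s)
    rw [h0, mul_zero, mul_zero] at hsum
    refine hsum.trans ?_
    have : 0 ≤ 2 * ((D : ℝ) + 1) * L ^ D * H := by
      have : (0 : ℝ) ≤ D := Nat.cast_nonneg D
      positivity
    exact mul_nonneg this hnn

end Pool.IEN
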