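import Pool.Agent.H86.IE.Cmu

/-!
# A triangular chart on a small cube

The restriction of a triangular chart with natural sizes to a cube of side `1 / K` is a triangular
chart with natural sizes.
-/

set_option autoImplicit false

namespace Pool.IEN

open Finset Real
open Pool.Agent.H49.Ent Pool.Agent.H32.Dense Pool.STK Pool.KAF Pool.KAL Pool.KS3 Pool.M3F Pool.KJA

lemma pderiv_afm {d : ℕ} (a : Fin d → ℝ) (s : ℝ) (P : MvPolynomial (Fin d) ℝ) (i : Fin d) :
    MvPolynomial.pderiv i (MvPolynomial.bind₁ (afm a s) P) =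
      MvPolynomial.bind₁ (afm a s) (MvPolynomial.pderiv i P) * MvPolynomial.C s := by
  classical
  rw [pderiv_bind, Finset.sum_eq_single i]
  · congr 1
    simp [afm, MvPolynomial.pderiv_X]
  · intro o _ ho
    have : MvPolynomial.pderiv i (afm a s o) = 0 := by
      simp only [afm, map_add, MvPolynomial.pderiv_C, Derivation.leibniz, MvPolynomial.pderiv_X,
        smul_eq_mul, zero_add, mul_zero, add_zero]
      rw [Pi.single_eq_of_ne (Ne.symm ho.symm), mul_zero]
    rw [this, mul_zero]
  · intro h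
    exact absurd (Finset.mem_univ i) h

section

variable {d : ℕ} (K : ℕ) (j : Fin d → ℕ)

/-- The corner of the small cube. -/
noncomputable def rco : Fin d → ℝ := fun i => (j i : ℝ) / K

/-- The base part of the restricted chart. -/
noncomputable def rcG (G : Fin d → MvPolynomial (Fin d) ℝ) (w : Fin d → ℝ) :
    Fin d → MvPolynomial (Fin d) ℝ :=
  fun i => MvPolynomial.bind₁ (afm (rco K j) (1 / K)) (G i) + MvPolynomial.C (w i * rco K j i)

lemma rch_eq (G : Fin d → MvPolynomial (Fin d) ℝ) (w : Fin d → ℝ)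
    (F : MvPolynomial (Fin d) ℝ) (o : Option (Fin d)) :
    triC (rcG K j G w) (fun i => w i / K) (MvPolynomial.bind₁ (afm (rco K j) (1 / K)) F) o =
      MvPolynomial.bind₁ (afm (rco K j) (1 / K)) (triC G w F o) := by
  cases o with
  | none => rfl
  | some i =>
    change rcG K j G w i + MvPolynomial.C (w i / K) * MvPolynomial.X i =
      MvPolynomial.bind₁ (afm (rco K j) (1 / K)) (G i + MvPolynomial.C (w i) * MvPolynomial.X i)
    rw [map_add, map_mul, MvPolynomial.bind₁_C_right, MvPolynomial.bind₁_X_right]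
    unfold rcG afm
    rw [mul_add, ← MvPolynomial.C_mul, ← mul_assoc, ← MvPolynomial.C_mul, mul_one_div]
    ring

lemma cpt_rch (G : Fin d → MvPolynomial (Fin d) ℝ) (w : Fin d → ℝ)
    (F : MvPolynomial (Fin d) ℝ) (v : Fin d → ℝ) :
    cpt (triC (rcG K j G w) (fun i => w i / K)
      (MvPolynomial.bind₁ (afm (rco K j) (1 / K)) F)) v =
      cpt (triC G w F) (fun i => rco K j i + 1 / K * v i) := by
  funext o
  unfold cpt
  rw [rch_eq, eval_bind, cpt_afm]

variable {K j}

lemma rco_mem (hK : 1 ≤ K) (hj : ∀ i, j i < K) {v : Fin d → ℝ} (hv : v ∈ ucube d) :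
    (fun i => rco K j i + 1 / K * v i) ∈ ucube d := by
  have hK0 : (0 : ℝ) < K := by exact_mod_cast hK
  intro i
  have h1 := hv i
  have h2 : (j i : ℝ) + 1 ≤ K := by exact_mod_cast hj i
  have e1 : rco K j i + 1 / K * v i = ((j i : ℝ) + v i) / K := by
    unfold rco
    ring
  simp only [e1]
  constructor
  · have : (0 : ℝ) ≤ j i := Nat.cast_nonneg _
    exact div_nonneg (by linarith [h1.1]) hK0.le
  · rw [div_le_one hK0]
    linarith [h1.2]

/-- The restriction of a triangular chart. -/
theorem tri_rest {k₀ : ℕ} {C₀ : ℝ} {M : ℕ} {Ng : Fin d → ℕ}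
    {G : Fin d → MvPolynomial (Fin d) ℝ} {w : Fin d → ℝ} {F : MvPolynomial (Fin d) ℝ}
    (hC₀ : 1 ≤ C₀) (hM : 1 ≤ M) (hT : Tri k₀ C₀ M Ng G w F) (hK : 1 ≤ K)
    (hKN : ∀ i, K ≤ Ng i) (hj : ∀ i, j i < K) :
    Tri k₀ (2 * C₀) M (fun i => Ng i / K) (rcG K j G w) (fun i => w i / K)
      (MvPolynomial.bind₁ (afm (rco K j) (1 / K)) F) := by
  classical
  have hK0 : (0 : ℝ) < K := by exact_mod_cast hK
  have hK1 : (1 : ℝ) ≤ K := by exact_mod_cast hK
  have hM0 : (0 : ℝ) < M := by exact_mod_cast hM
  have hC0 : 0 < C₀ := by linarith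
  have hpos : ∀ i, 1 ≤ Ng i / K := fun i => (Nat.one_le_div_iff (by omega)).mpr (hKN i)
  have hup : ∀ i, ((Ng i / K : ℕ) : ℝ) ≤ (Ng i : ℝ) / K := fun i => Nat.cast_div_le
  have hlow : ∀ i, (Ng i : ℝ) / K ≤ 2 * ((Ng i / K : ℕ) : ℝ) := by
    intro i
    have h1 : Ng i < K * (Ng i / K) + K := by
      have := Nat.lt_mul_div_succ (Ng i) (show 0 < K by omega)
      rwa [Nat.mul_add, mul_one] at this
    have h2 : (Ng i : ℝ) < K * ((Ng i / K : ℕ) : ℝ) + K := by exact_mod_cast h1
    have h3 : (1 : ℝ) ≤ ((Ng i / K : ℕ) : ℝ) := by exact_mod_cast hpos i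
    rw [div_le_iff₀ hK0]
    nlinarith
  have hev : ∀ (P : MvPolynomial (Fin d) ℝ) (i : Fin d) (u : Fin d → ℝ),
      MvPolynomial.eval u (MvPolynomial.pderiv i
        (MvPolynomial.bind₁ (afm (rco K j) (1 / K)) P)) =
      MvPolynomial.eval (fun l => rco K j l + 1 / K * u l) (MvPolynomial.pderiv i P) * (1 / K) := by
    intro P i u
    rw [pderiv_afm, map_mul, MvPolynomial.eval_C, eval_bind, cpt_afm]
  have hsl : ∀ (P : MvPolynomial (Fin d) ℝ) (i : Fin d), (∀ u ∈ ucube d,
      |MvPolynomial.eval u (MvPolynomial.pderiv i P)| ≤ C₀ * (Ng i / M)) → ∀ u ∈ ucube d,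
      |MvPolynomial.eval u (MvPolynomial.pderiv i
        (MvPolynomial.bind₁ (afm (rco K j) (1 / K)) P))| ≤
        2 * C₀ * (((Ng i / K : ℕ) : ℝ) / M) := by
    intro P i h u hu
    rw [hev, abs_mul, abs_of_pos (by positivity : (0 : ℝ) < 1 / K)]
    have h1 := h _ (rco_mem hK hj hu)
    calc |MvPolynomial.eval (fun l => rco K j l + 1 / K * u l) (MvPolynomial.pderiv i P)| *
          (1 / K) ≤ C₀ * (Ng i / M) * (1 / K) :=
          mul_le_mul_of_nonneg_right h1 (by positivity)
      _ = C₀ / M * (Ng i / K) := by ring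
      _ ≤ C₀ / M * (2 * ((Ng i / K : ℕ) : ℝ)) :=
          mul_le_mul_of_nonneg_left (hlow i) (by positivity)
      _ = _ := by ring
  exact
    { pos := hpos
      le := fun i => by
        have h1 := hT.le i
        have h2 := hup i
        have h3 : (Ng i : ℝ) / K ≤ Ng i := div_le_self (Nat.cast_nonneg _) hK1
        have h4 : 0 ≤ C₀ * M := by positivity
        nlinarith
      degG := fun i => by
        refine (MvPolynomial.totalDegree_add _ _).trans (max_le ?_ ?_)
        · exact afm_deg _ _ (hT.degG i)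
        · rw [MvPolynomial.totalDegree_C]
          exact Nat.zero_le _
      degF := afm_deg _ _ hT.degF
      tri := fun i i' hii => by
        unfold rcG
        rw [map_add, MvPolynomial.pderiv_C, add_zero, pderiv_afm, hT.tri i i' hii, map_zero,
          zero_mul]
      w_pos := fun i => div_pos (hT.w_pos i) hK0
      w_le := fun i => by
        have h1 := hT.w_le i
        calc w i / K ≤ C₀ * (Ng i / M) / K := div_le_div_of_nonneg_right h1 hK0.le
          _ = C₀ / M * (Ng i / K) := by ring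
          _ ≤ C₀ / M * (2 * ((Ng i / K : ℕ) : ℝ)) :=
              mul_le_mul_of_nonneg_left (hlow i) (by positivity)
          _ = _ := by ring
      le_w := fun i => by
        have h1 := hT.le_w i
        calc ((Ng i / K : ℕ) : ℝ) / M ≤ (Ng i : ℝ) / K / M :=
              div_le_div_of_nonneg_right (hup i) hM0.le
          _ = (Ng i : ℝ) / M / K := by ring
          _ ≤ C₀ * w i / K := div_le_div_of_nonneg_right h1 hK0.le
          _ = C₀ * (w i / K) := by ring
          _ ≤ 2 * C₀ * (w i / K) := by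
              have h5 : 0 ≤ w i / K := (div_pos (hT.w_pos i) hK0).le
              nlinarith
      slope := fun u hu i i' => by
        have h1 : MvPolynomial.pderiv i (rcG K j G w i') = MvPolynomial.pderiv i
            (MvPolynomial.bind₁ (afm (rco K j) (1 / K)) (G i')) := by
          unfold rcG
          rw [map_add, MvPolynomial.pderiv_C, add_zero]
        rw [h1]
        exact hsl (G i') i (fun v hv => hT.slope v hv i i') u hu
      slopeF := fun u hu i => hsl F i (fun v hv => hT.slopeF v hv i) u hu }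

end

end Pool.IEN
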