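import Pool.Agent.H86.IE.Rch

/-!
# Taylor formula in the passive direction
-/

set_option autoImplicit false

namespace Pool.IEN

open Finset Real
open Pool.Agent.H49.Ent Pool.Agent.H32.Dense Pool.STK Pool.KAF Pool.KAL Pool.KS3 Pool.M3F Pool.KJA

/-- The point shifted in the passive direction. -/
def psh {d : ℕ} (y : Option (Fin d) → ℝ) (s : ℝ) : Option (Fin d) → ℝ :=
  fun o => o.elim (y none + s) (fun i => y (some i))

/-- The passive direction. -/
def pen {d : ℕ} : Option (Fin d) → ℝ := fun o => o.elim 1 (fun _ => 0)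

lemma psh_eq {d : ℕ} (y : Option (Fin d) → ℝ) (s : ℝ) :
    (fun o => y o + s * pen o) = psh y s := by
  funext o
  cases o with
  | none => simp [psh, pen]
  | some i => simp [psh, pen]

lemma lq_der {d : ℕ} (y : Option (Fin d) → ℝ) (P : MvPolynomial (Option (Fin d)) ℝ) :
    Polynomial.derivative (lq y pen P) = lq y pen (MvPolynomial.pderiv none P) := by
  classical
  unfold lq
  induction P using MvPolynomial.induction_on with
  | C a => simp
  | add p q hp hq => simp only [map_add, hp, hq]
  | mul_X p k hp =>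
    rw [map_mul, Polynomial.derivative_mul, hp, Derivation.leibniz, smul_eq_mul, smul_eq_mul,
      map_add, map_mul, map_mul, MvPolynomial.aeval_X, MvPolynomial.pderiv_X]
    cases k with
    | none =>
      simp only [pen, Option.elim_none, Pi.single_eq_same, map_one, mul_one]
      simp only [Polynomial.derivative_add, Polynomial.derivative_C, zero_add,
        Polynomial.derivative_X, mul_one]
      ring
    | some i =>
      rw [Pi.single_eq_of_ne (by simp), map_zero, mul_zero, zero_add]
      simp only [pen, Option.elim_some, map_zero, mul_zero, add_zero, Polynomial.derivative_C]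
      ring

lemma lq_pN {d : ℕ} (y : Option (Fin d) → ℝ) (P : MvPolynomial (Option (Fin d)) ℝ) (m : ℕ) :
    (Polynomial.derivative^[m]) (lq y pen P) = lq y pen (pN m P) := by
  induction m with
  | zero => rfl
  | succ m ih => rw [Function.iterate_succ_apply', ih, lq_der, pN_succ]

/-- **Taylor formula in the passive direction.** -/
theorem tay_pas {d D : ℕ} (y : Option (Fin d) → ℝ) (s : ℝ)
    {P : MvPolynomial (Option (Fin d)) ℝ} (hP : P.totalDegree ≤ D) :
    MvPolynomial.eval (psh y s) P =
      ∑ m ∈ range (D + 1), s ^ m / (m.factorial : ℝ) * MvPolynomial.eval y (pN m P) := by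
  have h1 : (lq y pen P).eval s = MvPolynomial.eval (psh y s) P := by
    rw [eval_lq, psh_eq]
  rw [← h1, Polynomial.eval_eq_sum_range' (Nat.lt_succ_of_le (deg_lq y pen hP))]
  refine Finset.sum_congr rfl fun m _ => ?_
  have h2 : (lq y pen (pN m P)).eval 0 = MvPolynomial.eval y (pN m P) := by
    rw [eval_lq]
    simp
  have h3 : (lq y pen (pN m P)).coeff 0 = (m.factorial : ℝ) * (lq y pen P).coeff m := by
    rw [← lq_pN, Polynomial.coeff_iterate_derivative, zero_add, Nat.descFactorial_self,
      nsmul_eq_mul]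
  rw [← h2, ← Polynomial.coeff_zero_eq_eval_zero, h3]
  have h4 : (m.factorial : ℝ) ≠ 0 := by exact_mod_cast Nat.factorial_ne_zero m
  field_simp

/-- The values at a shifted point. -/
lemma abs_psh_le {d D : ℕ} (y : Option (Fin d) → ℝ) {s r : ℝ} (hs : |s| ≤ r)
    {P : MvPolynomial (Option (Fin d)) ℝ} (hP : P.totalDegree ≤ D) :
    |MvPolynomial.eval (psh y s) P| ≤
      ∑ m ∈ range (D + 1), r ^ m * |MvPolynomial.eval y (pN m P)| := by
  rw [tay_pas y s hP]
  refine (Finset.abs_sum_le_sum_abs _ _).trans (Finset.sum_le_sum fun m _ => ?_)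
  rw [abs_mul, abs_div, abs_pow]
  refine mul_le_mul_of_nonneg_right ?_ (abs_nonneg _)
  have h1 : (1 : ℝ) ≤ m.factorial := by exact_mod_cast Nat.factorial_pos m
  rw [abs_of_nonneg (by linarith : (0 : ℝ) ≤ m.factorial)]
  exact (div_le_self (by positivity) h1).trans (pow_le_pow_left₀ (abs_nonneg _) hs m)

/-- The linear part. -/
lemma lin_psh_le {d D : ℕ} (y : Option (Fin d) → ℝ) {s r : ℝ} (hs : |s| ≤ r)
    {P : MvPolynomial (Option (Fin d)) ℝ} (hP : P.totalDegree ≤ D) :
    |s * MvPolynomial.eval y (pN 1 P)| ≤ |MvPolynomial.eval (psh y s) P| +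
      |MvPolynomial.eval y P| +
      ∑ m ∈ range D, r ^ (m + 2) * |MvPolynomial.eval y (pN (m + 2) P)| := by
  have h0 := tay_pas y s (D := D + 1) (hP.trans (Nat.le_succ D))
  rw [Finset.sum_range_succ', Finset.sum_range_succ'] at h0
  simp only [pow_zero, Nat.factorial_zero, Nat.cast_one, div_one, one_mul, pN_zero, zero_add,
    pow_one, Nat.factorial_one] at h0
  have e1 : s * MvPolynomial.eval y (pN 1 P) = MvPolynomial.eval (psh y s) P -
      MvPolynomial.eval y P - ∑ m ∈ range D, s ^ (m + 1 + 1) / ((m + 1 + 1).factorial : ℝ) *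
        MvPolynomial.eval y (pN (m + 1 + 1) P) := by
    rw [h0]
    ring
  rw [e1]
  have h1 : |∑ m ∈ range D, s ^ (m + 1 + 1) / ((m + 1 + 1).factorial : ℝ) *
        MvPolynomial.eval y (pN (m + 1 + 1) P)| ≤
      ∑ m ∈ range D, r ^ (m + 2) * |MvPolynomial.eval y (pN (m + 2) P)| := by
    refine (Finset.abs_sum_le_sum_abs _ _).trans (Finset.sum_le_sum fun m _ => ?_)
    rw [abs_mul, abs_div, abs_pow]
    refine mul_le_mul_of_nonneg_right ?_ (abs_nonneg _)
    have h1 : (1 : ℝ) ≤ (m + 1 + 1).factorial := by exact_mod_cast Nat.factorial_pos _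
    rw [abs_of_nonneg (by linarith : (0 : ℝ) ≤ (m + 1 + 1).factorial)]
    exact (div_le_self (by positivity) h1).trans (pow_le_pow_left₀ (abs_nonneg _) hs _)
  refine (abs_sub _ _).trans (add_le_add ?_ h1)
  exact abs_sub _ _

end Pool.IEN
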